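import Mathlib

/-! Families of vectors with small projective norm. -/

namespace Pool.Agent.H73.AD

open Finset

section Rep

variable {Z : Type} {E F : Type} [NormedAddCommGroup E] [NormedSpace ℂ E]
  [NormedAddCommGroup F] [NormedSpace ℂ F]

/-- the family `v` is a contraction of a fixed tensor `Ω` with coefficients `s z` -/
def Rep (c : ℝ) (v : Z → E) : Prop :=
  0 ≤ c ∧ ∃ (S : Type) (_ : Fintype S) (Ω : S → E) (s : Z → S → ℂ),
    ∑ i, ‖Ω i‖ ^ 2 ≤ c ∧ (∀ z, ∑ i, ‖s z i‖ ^ 2 ≤ c) ∧ ∀ z, v z = ∑ i, s z i • Ω i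

theorem Rep.nonneg {c : ℝ} {v : Z → E} (h : Rep c v) : 0 ≤ c := h.1

theorem Rep.mono {c c' : ℝ} {v : Z → E} (h : Rep c v) (hc : c ≤ c') : Rep c' v := by
  obtain ⟨h0, S, hS, Ω, s, h1, h2, h3⟩ := h
  exact ⟨h0.trans hc, S, hS, Ω, s, h1.trans hc, fun z => (h2 z).trans hc, h3⟩

theorem Rep.zero {c : ℝ} (hc : 0 ≤ c) : Rep c (fun _ : Z => (0 : E)) :=
  ⟨hc, Empty, inferInstance, Empty.elim, fun _ => Empty.elim, by simpa using hc,
    fun z => by simpa using hc, fun z => by simp⟩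

/-- balance the two factors -/
theorem rep_of {S : Type} [Fintype S] {p q c : ℝ} (hp : 0 ≤ p) (hq : 0 ≤ q) (hc : 0 ≤ c)
    (hpq : p * q ≤ c ^ 2) {v : Z → E} (Ω : S → E) (s : Z → S → ℂ)
    (h1 : ∑ i, ‖Ω i‖ ^ 2 ≤ p) (h2 : ∀ z, ∑ i, ‖s z i‖ ^ 2 ≤ q)
    (h3 : ∀ z, v z = ∑ i, s z i • Ω i) : Rep c v := by
  rcases hp.eq_or_lt with hp0 | hp0
  · have h4 : ∀ i, Ω i = 0 := by
      intro i
      have h5 : ‖Ω i‖ ^ 2 ≤ ∑ i, ‖Ω i‖ ^ 2 :=
        single_le_sum (f := fun i => ‖Ω i‖ ^ 2) (fun j _ => sq_nonneg _) (mem_univ i)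
      have h6 : ‖Ω i‖ ^ 2 ≤ 0 := by rw [← hp0] at h1; exact h5.trans h1
      exact norm_eq_zero.1 (pow_eq_zero_iff two_ne_zero |>.1 (le_antisymm h6 (sq_nonneg _)))
    have h7 : v = fun _ => 0 := by
      funext z
      rw [h3 z]
      exact sum_eq_zero fun i _ => by rw [h4 i, smul_zero]
    rw [h7]
    exact Rep.zero hc
  rcases hq.eq_or_lt with hq0 | hq0
  · have h7 : v = fun _ => 0 := by
      funext z
      rw [h3 z]
      refine sum_eq_zero fun i _ => ?_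
      have h5 : ‖s z i‖ ^ 2 ≤ ∑ i, ‖s z i‖ ^ 2 :=
        single_le_sum (f := fun i => ‖s z i‖ ^ 2) (fun j _ => sq_nonneg _) (mem_univ i)
      have h6 : ‖s z i‖ ^ 2 ≤ 0 := by rw [← hq0] at h2; exact h5.trans (h2 z)
      rw [norm_eq_zero.1 (pow_eq_zero_iff two_ne_zero |>.1 (le_antisymm h6 (sq_nonneg _))),
        zero_smul]
    rw [h7]
    exact Rep.zero hc
  -- `r = sqrt (q / p)`, scale `Ω` by `√r`
  obtain ⟨r, hr⟩ : ∃ r, r = Real.sqrt (q / p) := ⟨_, rfl⟩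
  have hr0 : 0 < r := by rw [hr]; exact Real.sqrt_pos.2 (div_pos hq0 hp0)
  have hr2 : r ^ 2 = q / p := by rw [hr]; exact Real.sq_sqrt (div_pos hq0 hp0).le
  have ha : r * p ≤ c := by
    have h4 : (r * p) ^ 2 ≤ c ^ 2 := by
      rw [mul_pow, hr2]
      have : q / p * p ^ 2 = p * q := by field_simp
      rw [this]
      exact hpq
    exact le_of_sq_le_sq h4 hc
  have hb : q / r ≤ c := by
    have h4 : q / r = r * p := by
      rw [div_eq_iff hr0.ne']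
      have : r * p * r = r ^ 2 * p := by ring
      rw [this, hr2]
      field_simp
    rw [h4]
    exact ha
  have hs0 : 0 < Real.sqrt r := Real.sqrt_pos.2 hr0
  have hs2 : Real.sqrt r ^ 2 = r := Real.sq_sqrt hr0.le
  refine ⟨hc, S, inferInstance, fun i => ((Real.sqrt r : ℝ) : ℂ) • Ω i,
    fun z i => (((Real.sqrt r)⁻¹ : ℝ) : ℂ) * s z i, ?_, fun z => ?_, fun z => ?_⟩
  · calc ∑ i, ‖((Real.sqrt r : ℝ) : ℂ) • Ω i‖ ^ 2 = ∑ i, r * ‖Ω i‖ ^ 2 := by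
          refine sum_congr rfl fun i _ => ?_
          rw [norm_smul, mul_pow, Complex.norm_real, Real.norm_eq_abs, sq_abs, hs2]
      _ = r * ∑ i, ‖Ω i‖ ^ 2 := by rw [mul_sum]
      _ ≤ r * p := mul_le_mul_of_nonneg_left h1 hr0.le
      _ ≤ c := ha
  · calc ∑ i, ‖(((Real.sqrt r)⁻¹ : ℝ) : ℂ) * s z i‖ ^ 2 = ∑ i, r⁻¹ * ‖s z i‖ ^ 2 := by
          refine sum_congr rfl fun i _ => ?_
          rw [norm_mul, mul_pow, Complex.norm_real, Real.norm_eq_abs, sq_abs, inv_pow, hs2]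
      _ = r⁻¹ * ∑ i, ‖s z i‖ ^ 2 := by rw [mul_sum]
      _ ≤ r⁻¹ * q := mul_le_mul_of_nonneg_left (h2 z) (inv_nonneg.2 hr0.le)
      _ = q / r := by rw [div_eq_inv_mul]
      _ ≤ c := hb
  · rw [h3 z]
    refine sum_congr rfl fun i _ => ?_
    rw [smul_smul]
    congr 1
    rw [Complex.ofReal_inv]
    have : ((Real.sqrt r : ℝ) : ℂ) ≠ 0 := by exact_mod_cast hs0.ne'
    field_simp

/-- sums -/
theorem Rep.add {c c' : ℝ} {v w : Z → E} (hv : Rep c v) (hw : Rep c' w) :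
    Rep (c + c') (fun z => v z + w z) := by
  obtain ⟨h0, S, hS, Ω, s, h1, h2, h3⟩ := hv
  obtain ⟨h0', S', hS', Ω', s', h1', h2', h3'⟩ := hw
  refine ⟨add_nonneg h0 h0', S ⊕ S', inferInstance, Sum.elim Ω Ω', fun z => Sum.elim (s z) (s' z),
    ?_, fun z => ?_, fun z => ?_⟩
  · rw [Fintype.sum_sum_type]
    simpa using add_le_add h1 h1'
  · rw [Fintype.sum_sum_type]
    simpa using add_le_add (h2 z) (h2' z)
  · rw [Fintype.sum_sum_type]
    simp only [Sum.elim_inl, Sum.elim_inr]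
    rw [h3 z, h3' z]

/-- finite sums -/
theorem Rep.sum {ι : Type} (I : Finset ι) {c : ι → ℝ} {v : ι → Z → E}
    (h : ∀ i ∈ I, Rep (c i) (v i)) : Rep (∑ i ∈ I, c i) (fun z => ∑ i ∈ I, v i z) := by
  classical
  induction I using Finset.induction_on with
  | empty => simpa using Rep.zero (le_refl (0 : ℝ))
  | insert a s ha ih =>
    simp only [sum_insert ha]
    exact (h a (mem_insert_self a s)).add (ih fun i hi => h i (mem_insert_of_mem hi))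

/-- sums of fixed operators with coefficients that depend on `z` -/
theorem Rep.ops {J : Type} [Fintype J] {c Φ Θ : ℝ} {v : Z → E} (hv : Rep c v) (hΦ : 0 ≤ Φ)
    (hΘ : 0 ≤ Θ) (f : Z → J → ℂ) (h : J → E →ₗ[ℂ] F) (hf : ∀ z, ∑ j, ‖f z j‖ ^ 2 ≤ Φ ^ 2)
    (hh : ∀ u, ∑ j, ‖h j u‖ ^ 2 ≤ Θ ^ 2 * ‖u‖ ^ 2) :
    Rep (Φ * Θ * c) (fun z => ∑ j, f z j • h j (v z)) := by
  obtain ⟨h0, S, hS, Ω, s, h1, h2, h3⟩ := hv
  refine rep_of (S := S × J) (p := Θ ^ 2 * c) (q := Φ ^ 2 * c) (by positivity) (by positivity)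
    (by positivity) (le_of_eq (by ring)) (fun x => h x.2 (Ω x.1)) (fun z x => s z x.1 * f z x.2)
    ?_ (fun z => ?_) fun z => ?_
  · rw [Fintype.sum_prod_type]
    calc ∑ i, ∑ j, ‖h j (Ω i)‖ ^ 2 ≤ ∑ i, Θ ^ 2 * ‖Ω i‖ ^ 2 := sum_le_sum fun i _ => hh _
      _ = Θ ^ 2 * ∑ i, ‖Ω i‖ ^ 2 := by rw [mul_sum]
      _ ≤ _ := mul_le_mul_of_nonneg_left h1 (sq_nonneg _)
  · rw [Fintype.sum_prod_type]
    calc ∑ i, ∑ j, ‖s z i * f z j‖ ^ 2 = (∑ i, ‖s z i‖ ^ 2) * ∑ j, ‖f z j‖ ^ 2 := by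
          rw [sum_mul_sum]
          exact sum_congr rfl fun i _ => sum_congr rfl fun j _ => by rw [norm_mul, mul_pow]
      _ ≤ c * Φ ^ 2 := mul_le_mul (h2 z) (hf z) (sum_nonneg fun _ _ => sq_nonneg _) h0
      _ = _ := by ring
  · rw [Fintype.sum_prod_type, h3 z]
    simp only [map_sum, map_smul, smul_sum, smul_smul]
    rw [sum_comm]
    exact sum_congr rfl fun i _ => sum_congr rfl fun j _ => by rw [mul_comm]

/-- one fixed operator -/
theorem Rep.op {c a : ℝ} {v : Z → E} (hv : Rep c v) (ha : 0 ≤ a) (A : E →ₗ[ℂ] F)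
    (hA : ∀ u, ‖A u‖ ≤ a * ‖u‖) : Rep (a * c) (fun z => A (v z)) := by
  have h := hv.ops (J := Unit) zero_le_one ha (fun _ _ => 1) (fun _ => A) (by simp) (fun u => by
    simp only [univ_unique, sum_const, card_singleton, one_smul]
    rw [← mul_pow]
    exact pow_le_pow_left₀ (norm_nonneg _) (hA u) 2)
  simpa using h

/-- scalars -/
theorem Rep.scalar {c a : ℝ} {v : Z → E} (hv : Rep c v) (ha : 0 ≤ a) (s : Z → ℂ)
    (hs : ∀ z, ‖s z‖ ≤ a) : Rep (a * c) (fun z => s z • v z) := by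
  have h := hv.ops (J := Unit) ha zero_le_one (fun z _ => s z) (fun _ => LinearMap.id) (fun z => by
    simp only [univ_unique, sum_const, card_singleton, one_smul]
    exact pow_le_pow_left₀ (norm_nonneg _) (hs z) 2) (by simp)
  simpa using h

/-- combinations of a few fixed vectors -/
theorem rep_comb {ι : Type} (L : Finset ι) (e : ι → E) (s : Z → ι → ℂ) {c : ℝ} (hc : 0 ≤ c)
    (hL : (L.card : ℝ) ≤ c ^ 2) (he : ∀ i, ‖e i‖ ≤ 1) (hs : ∀ z, ∑ i ∈ L, ‖s z i‖ ^ 2 ≤ 1) :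
    Rep c (fun z => ∑ i ∈ L, s z i • e i) := by
  refine rep_of (S := L) (p := L.card) (q := 1) (Nat.cast_nonneg _) zero_le_one hc
    (by simpa using hL) (fun i => e i) (fun z i => s z i) ?_ (fun z => ?_) fun z => ?_
  · calc ∑ i : L, ‖e i‖ ^ 2 ≤ ∑ _i : L, (1 : ℝ) :=
          sum_le_sum fun i _ => pow_le_one₀ (norm_nonneg _) (he i)
      _ = _ := by simp
  · rw [sum_coe_sort L fun i => ‖s z i‖ ^ 2]
    exact hs z
  · rw [sum_coe_sort L fun i => s z i • e i]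

end Rep

end Pool.Agent.H73.AD
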