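import Pool.Agent.H73.AD.Stmt
import Pool.Agent.H73.AD.Rep

/-! Good families: a represented family plus a family which is small on average. -/

namespace Pool.Agent.H73.AD

open Finset Pool.Agent.H73.QA

/-- states of `n` qubits and an ancilla -/
abbrev Sp (n : ℕ) (Y : Type) := EuclideanSpace ℂ (Cube n × Y)

section l2

set_option linter.unusedSectionVars false

variable {Z : Type} [Fintype Z] {E F : Type} [NormedAddCommGroup E] [NormedSpace ℂ E]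
  [NormedAddCommGroup F] [NormedSpace ℂ F]

/-- norm of a family -/
noncomputable def l2 (v : Z → E) : ℝ := Real.sqrt (∑ z, ‖v z‖ ^ 2)

theorem l2_nonneg (v : Z → E) : 0 ≤ l2 v := Real.sqrt_nonneg _

theorem l2_sq (v : Z → E) : l2 v ^ 2 = ∑ z, ‖v z‖ ^ 2 :=
  Real.sq_sqrt (sum_nonneg fun _ _ => sq_nonneg _)

theorem l2_eq (v : Z → E) : l2 v = ‖(WithLp.toLp 2 v : PiLp 2 fun _ : Z => E)‖ := by
  rw [PiLp.norm_eq_of_L2]
  rfl

theorem l2_add (v w : Z → E) : l2 (fun z => v z + w z) ≤ l2 v + l2 w := by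
  rw [l2_eq, l2_eq, l2_eq]
  exact norm_add_le (WithLp.toLp 2 v : PiLp 2 fun _ : Z => E) (WithLp.toLp 2 w)

theorem l2_le {v : Z → E} {w : Z → F} {a : ℝ} (ha : 0 ≤ a) (h : ∀ z, ‖v z‖ ≤ a * ‖w z‖) :
    l2 v ≤ a * l2 w := by
  unfold l2
  rw [← Real.sqrt_sq ha, ← Real.sqrt_mul (sq_nonneg a)]
  refine Real.sqrt_le_sqrt ?_
  rw [mul_sum]
  refine sum_le_sum fun z _ => ?_
  rw [← mul_pow]
  exact pow_le_pow_left₀ (norm_nonneg _) (h z) 2

theorem l2_zero : l2 (fun _ : Z => (0 : E)) = 0 := by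
  unfold l2
  simp

theorem l2_le_of {v : Z → E} {a : ℝ} (ha : 0 ≤ a) (h : ∑ z, ‖v z‖ ^ 2 ≤ a ^ 2) : l2 v ≤ a :=
  (Real.sqrt_le_left ha).2 h

/-- a family with an exceptional part which is small on average -/
def Good (β c : ℝ) (v : Z → E) : Prop :=
  ∃ v1 v2 : Z → E, (∀ z, v z = v1 z + v2 z) ∧ Rep c v1 ∧ l2 v2 ≤ β * c

variable {β : ℝ}

theorem Good.nonneg {c : ℝ} {v : Z → E} (h : Good β c v) : 0 ≤ c := by
  obtain ⟨v1, v2, h1, h2, h3⟩ := h
  exact h2.nonneg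

theorem Good.mono {c c' : ℝ} {v : Z → E} (hβ : 0 ≤ β) (h : Good β c v) (hc : c ≤ c') :
    Good β c' v := by
  obtain ⟨v1, v2, h1, h2, h3⟩ := h
  exact ⟨v1, v2, h1, h2.mono hc, h3.trans (mul_le_mul_of_nonneg_left hc hβ)⟩

theorem Good.zero {c : ℝ} (hβ : 0 ≤ β) (hc : 0 ≤ c) : Good β c (fun _ : Z => (0 : E)) :=
  ⟨fun _ => 0, fun _ => 0, fun z => by simp, Rep.zero hc, by rw [l2_zero]; positivity⟩

theorem good_of_rep {c : ℝ} {v : Z → E} (hβ : 0 ≤ β) (h : Rep c v) : Good β c v :=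
  ⟨v, fun _ => 0, fun z => by simp, h, by rw [l2_zero]; exact mul_nonneg hβ h.nonneg⟩

theorem good_of_l2 {c : ℝ} {v : Z → E} (hc : 0 ≤ c) (h : l2 v ≤ β * c) : Good β c v :=
  ⟨fun _ => 0, v, fun z => by simp, Rep.zero hc, h⟩

theorem Good.add {c c' : ℝ} {v w : Z → E} (hv : Good β c v) (hw : Good β c' w) :
    Good β (c + c') (fun z => v z + w z) := by
  obtain ⟨v1, v2, h1, h2, h3⟩ := hv
  obtain ⟨w1, w2, k1, k2, k3⟩ := hw
  refine ⟨fun z => v1 z + w1 z, fun z => v2 z + w2 z, fun z => ?_, h2.add k2, ?_⟩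
  · beta_reduce
    rw [h1, k1]; abel
  · rw [mul_add]
    exact (l2_add _ _).trans (add_le_add h3 k3)

theorem Good.sum {ι : Type} (hβ : 0 ≤ β) (I : Finset ι) {c : ι → ℝ} {v : ι → Z → E}
    (h : ∀ i ∈ I, Good β (c i) (v i)) : Good β (∑ i ∈ I, c i) (fun z => ∑ i ∈ I, v i z) := by
  classical
  induction I using Finset.induction_on with
  | empty => simpa using Good.zero hβ (le_refl (0 : ℝ))
  | insert a s ha ih =>
    simp only [sum_insert ha]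
    exact (h a (mem_insert_self a s)).add (ih fun i hi => h i (mem_insert_of_mem hi))

/-- operators that preserve good families -/
def GoodOp (β K : ℝ) (X : Z → E →ₗ[ℂ] F) : Prop :=
  0 ≤ K ∧ ∀ (c : ℝ) (v : Z → E), Good β c v → Good β (K * c) (fun z => X z (v z))

theorem GoodOp.mono {K K' : ℝ} (hβ : 0 ≤ β) {X : Z → E →ₗ[ℂ] F} (h : GoodOp β K X)
    (hK : K ≤ K') : GoodOp β K' X :=
  ⟨h.1.trans hK, fun c v hv => (h.2 c v hv).mono hβ (mul_le_mul_of_nonneg_right hK hv.nonneg)⟩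

theorem GoodOp.add {K K' : ℝ} {X X' : Z → E →ₗ[ℂ] F} (h : GoodOp β K X) (h' : GoodOp β K' X') :
    GoodOp β (K + K') (fun z => X z + X' z) := by
  refine ⟨add_nonneg h.1 h'.1, fun c v hv => ?_⟩
  rw [add_mul]
  exact (h.2 c v hv).add (h'.2 c v hv)

theorem GoodOp.sum {ι : Type} (hβ : 0 ≤ β) (I : Finset ι) {K : ι → ℝ}
    {X : ι → Z → E →ₗ[ℂ] F} (h : ∀ i ∈ I, GoodOp β (K i) (X i)) :
    GoodOp β (∑ i ∈ I, K i) (fun z => ∑ i ∈ I, X i z) := by
  refine ⟨sum_nonneg fun i hi => (h i hi).1, fun c v hv => ?_⟩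
  rw [sum_mul]
  simp only [LinearMap.sum_apply]
  exact Good.sum hβ I fun i hi => (h i hi).2 c v hv

theorem GoodOp.comp {G' : Type} [NormedAddCommGroup G'] [NormedSpace ℂ G'] {K K' : ℝ}
    {X : Z → E →ₗ[ℂ] F} {X' : Z → F →ₗ[ℂ] G'} (h : GoodOp β K X) (h' : GoodOp β K' X') :
    GoodOp β (K' * K) (fun z => X' z ∘ₗ X z) := by
  refine ⟨mul_nonneg h'.1 h.1, fun c v hv => ?_⟩
  rw [mul_assoc]
  exact h'.2 _ _ (h.2 c v hv)

/-- sums of fixed operators with coefficients that depend on `z` -/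
theorem goodOp_ops {J : Type} [Fintype J] {Φ Θ : ℝ} (hΦ : 0 ≤ Φ) (hΘ : 0 ≤ Θ)
    (f : Z → J → ℂ) (h : J → E →ₗ[ℂ] F) (hf : ∀ z, ∑ j, ‖f z j‖ ^ 2 ≤ Φ ^ 2)
    (hh : ∀ u, ∑ j, ‖h j u‖ ^ 2 ≤ Θ ^ 2 * ‖u‖ ^ 2) :
    GoodOp β (Φ * Θ) (fun z => ∑ j, f z j • h j) := by
  refine ⟨mul_nonneg hΦ hΘ, fun c v hv => ?_⟩
  obtain ⟨v1, v2, h1, h2, h3⟩ := hv
  have hop : ∀ z u, ‖∑ j, f z j • h j u‖ ≤ Φ * Θ * ‖u‖ := by
    intro z u
    have h4 : ‖∑ j, f z j • h j u‖ ≤ ∑ j, ‖f z j‖ * ‖h j u‖ :=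
      (norm_sum_le _ _).trans (sum_le_sum fun j _ => (norm_smul _ _).le)
    have h5 : (∑ j, ‖f z j‖ * ‖h j u‖) ^ 2 ≤ (Φ * Θ * ‖u‖) ^ 2 := by
      refine (sum_mul_sq_le_sq_mul_sq _ _ _).trans ?_
      calc (∑ j, ‖f z j‖ ^ 2) * ∑ j, ‖h j u‖ ^ 2 ≤ Φ ^ 2 * (Θ ^ 2 * ‖u‖ ^ 2) :=
            mul_le_mul (hf z) (hh u) (sum_nonneg fun _ _ => sq_nonneg _) (sq_nonneg _)
        _ = _ := by ring
    exact h4.trans (le_of_sq_le_sq h5 (by positivity))
  refine ⟨fun z => ∑ j, f z j • h j (v1 z), fun z => ∑ j, f z j • h j (v2 z), fun z => ?_,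
    h2.ops hΦ hΘ f h hf hh, ?_⟩
  · beta_reduce
    rw [h1]
    simp only [LinearMap.sum_apply, LinearMap.smul_apply, map_add, smul_add, sum_add_distrib]
  · refine (l2_le (by positivity) fun z => hop z (v2 z)).trans ?_
    calc Φ * Θ * l2 v2 ≤ Φ * Θ * (β * c) := mul_le_mul_of_nonneg_left h3 (by positivity)
      _ = _ := by ring

theorem goodOp_fixed {a : ℝ} (ha : 0 ≤ a) (A : E →ₗ[ℂ] F) (hA : ∀ u, ‖A u‖ ≤ a * ‖u‖) :
    GoodOp β a (fun _ : Z => A) := by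
  have h := goodOp_ops (β := β) (J := Unit) (Z := Z) zero_le_one ha (fun _ _ => 1) (fun _ => A)
    (by simp) (fun u => by
      simp only [univ_unique, sum_const, card_singleton, one_smul]
      rw [← mul_pow]
      exact pow_le_pow_left₀ (norm_nonneg _) (hA u) 2)
  simpa using h

theorem goodOp_scalar {a : ℝ} (ha : 0 ≤ a) (s : Z → ℂ) (hs : ∀ z, ‖s z‖ ≤ a) :
    GoodOp β a (fun z => s z • (LinearMap.id : E →ₗ[ℂ] E)) := by
  have h := goodOp_ops (β := β) (J := Unit) ha zero_le_one (fun z _ => s z)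
    (fun _ => (LinearMap.id : E →ₗ[ℂ] E)) (fun z => by
      simp only [univ_unique, sum_const, card_singleton, one_smul]
      exact pow_le_pow_left₀ (norm_nonneg _) (hs z) 2) (by simp)
  simpa using h

theorem GoodOp.smul {K a : ℝ} {X : Z → E →ₗ[ℂ] F} (h : GoodOp β K X) (ha : 0 ≤ a) (s : Z → ℂ)
    (hs : ∀ z, ‖s z‖ ≤ a) : GoodOp β (a * K) (fun z => s z • X z) := by
  have h1 := h.comp (goodOp_scalar (β := β) (E := F) ha s hs)
  have h2 : (fun z => (s z • (LinearMap.id : F →ₗ[ℂ] F)) ∘ₗ X z) = fun z => s z • X z := by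
    funext z
    ext u
    simp
  rwa [h2] at h1

/-- iteration -/
theorem iterate {K θ cp : ℝ} (hβ : 0 ≤ β) (hθ : 0 ≤ θ) {X : Z → E →ₗ[ℂ] E}
    (hX : GoodOp β K X) (hXs : ∀ z u, ‖X z u‖ ≤ θ * ‖u‖) {v p : Z → E} (hp : Good β cp p)
    (hv : ∀ z, ‖v z‖ ≤ 1) (h : ∀ z, v z = p z + X z (v z)) (J : ℕ)
    (hJ : θ ^ J * Real.sqrt (Fintype.card Z) ≤ β) :
    Good β (cp * (∑ j ∈ range J, K ^ j) + 1) v := by
  obtain ⟨Xp, hXp⟩ : ∃ Xp : ℕ → Z → E →ₗ[ℂ] E, ∀ j z, Xp j z = X z ^ j := ⟨_, fun _ _ => rfl⟩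
  have h1 : ∀ j, GoodOp β (K ^ j) (Xp j) := by
    intro j
    induction j with
    | zero =>
      have h2 : Xp 0 = fun _ => LinearMap.id := by
        funext z
        rw [hXp, pow_zero]
        rfl
      rw [h2, pow_zero]
      exact goodOp_fixed zero_le_one _ fun u => by simp
    | succ j ih =>
      have h2 := ih.comp hX
      have h3 : (fun z => X z ∘ₗ Xp j z) = Xp (j + 1) := by
        funext z
        rw [hXp, hXp, pow_succ']
        rfl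
      rw [h3] at h2
      rw [pow_succ']
      exact h2
  have h2 : ∀ (j : ℕ) z, v z = (∑ i ∈ range j, Xp i z (p z)) + Xp j z (v z) := by
    intro j z
    induction j with
    | zero => simp [hXp]
    | succ j ih =>
      have h3 : Xp j z (v z) = Xp j z (p z) + Xp (j + 1) z (v z) := by
        conv_lhs => rw [h z]
        rw [map_add, hXp, hXp, pow_succ]
        rfl
      rw [sum_range_succ, add_assoc, ← h3]
      exact ih
  have h3 : ∀ j z u, ‖Xp j z u‖ ≤ θ ^ j * ‖u‖ := by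
    intro j z
    induction j with
    | zero => intro u; simp [hXp]
    | succ j ih =>
      intro u
      have h4 : Xp (j + 1) z u = X z (Xp j z u) := by
        rw [hXp, hXp, pow_succ']
        rfl
      rw [h4]
      calc ‖X z (Xp j z u)‖ ≤ θ * ‖Xp j z u‖ := hXs _ _
        _ ≤ θ * (θ ^ j * ‖u‖) := mul_le_mul_of_nonneg_left (ih u) hθ
        _ = _ := by ring
  have h4 : Good β 1 (fun z => Xp J z (v z)) := by
    refine good_of_l2 zero_le_one ?_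
    rw [mul_one]
    have h5 : l2 (fun z => Xp J z (v z)) ≤ θ ^ J * l2 v :=
      l2_le (pow_nonneg hθ J) fun z => h3 J z (v z)
    have h6 : l2 v ≤ Real.sqrt (Fintype.card Z) := by
      unfold l2
      refine Real.sqrt_le_sqrt ?_
      calc ∑ z, ‖v z‖ ^ 2 ≤ ∑ _z : Z, (1 : ℝ) :=
            sum_le_sum fun z _ => pow_le_one₀ (norm_nonneg _) (hv z)
        _ = _ := by simp
    exact (h5.trans (mul_le_mul_of_nonneg_left h6 (pow_nonneg hθ J))).trans hJ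
  have h5 : Good β (∑ j ∈ range J, K ^ j * cp) (fun z => ∑ j ∈ range J, Xp j z (p z)) :=
    Good.sum hβ _ fun j _ => (h1 j).2 cp p hp
  have h6 := h5.add h4
  have h7 : (fun z => (∑ j ∈ range J, Xp j z (p z)) + Xp J z (v z)) = v := by
    funext z
    exact (h2 J z).symm
  rw [h7] at h6
  have h8 : ∑ j ∈ range J, K ^ j * cp = cp * ∑ j ∈ range J, K ^ j := by
    rw [mul_sum]
    exact sum_congr rfl fun j _ => mul_comm _ _
  rwa [h8] at h6

end l2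

section near

set_option linter.unusedSectionVars false

variable {n : ℕ} {Y : Type} [Fintype Y]

/-- multiplication by a function of the assignment -/
noncomputable def dg (f : Cube n → ℂ) : Sp n Y →ₗ[ℂ] Sp n Y where
  toFun u := WithLp.toLp 2 fun x => f x.1 * u x
  map_add' u w := by
    ext x
    simp [mul_add]
  map_smul' c u := by
    ext x
    simp [mul_left_comm]

@[simp] theorem dg_apply (f : Cube n → ℂ) (u : Sp n Y) (x : Cube n × Y) :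
    dg f u x = f x.1 * u x := rfl

theorem norm_dg_le {f : Cube n → ℂ} {a : ℝ} (ha : 0 ≤ a) (hf : ∀ x, ‖f x‖ ≤ a) (u : Sp n Y) :
    ‖dg f u‖ ≤ a * ‖u‖ := by
  have h : ‖dg f u‖ ^ 2 ≤ (a * ‖u‖) ^ 2 := by
    rw [EuclideanSpace.norm_sq_eq, mul_pow, EuclideanSpace.norm_sq_eq, mul_sum]
    refine sum_le_sum fun x _ => ?_
    rw [dg_apply, norm_mul, mul_pow]
    exact mul_le_mul_of_nonneg_right (pow_le_pow_left₀ (norm_nonneg _) (hf _) 2) (sq_nonneg _)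
  exact le_of_sq_le_sq h (by positivity)

/-- the part in the set `B` -/
noncomputable def nearP (B : Finset (Cube n)) : Sp n Y →ₗ[ℂ] Sp n Y :=
  dg fun x => if x ∈ B then 1 else 0

theorem nearP_sq (B : Finset (Cube n)) (u : Sp n Y) :
    ‖nearP B u‖ ^ 2 = ∑ x ∈ B, ∑ y, ‖u (x, y)‖ ^ 2 := by
  rw [EuclideanSpace.norm_sq_eq, Fintype.sum_prod_type]
  have h : ∀ x : Cube n, ∑ y, ‖nearP B u (x, y)‖ ^ 2 =
      if x ∈ B then ∑ y, ‖u (x, y)‖ ^ 2 else 0 := by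
    intro x
    by_cases hx : x ∈ B
    · simp [nearP, hx]
    · simp [nearP, hx]
  simp only [h]
  rw [sum_ite_mem, univ_inter]

variable {Z : Type} [Fintype Z] {β : ℝ} {B : Z → Finset (Cube n)}

/-- near lemma -/
theorem near_rep (hβ : 0 ≤ β)
    (hB : ∀ x, ((univ.filter fun z => x ∈ B z).card : ℝ) ≤ β ^ 2) {c : ℝ}
    {v : Z → Sp n Y} (hv : Rep c v) : l2 (fun z => nearP (B z) (v z)) ≤ β * c := by
  obtain ⟨h0, S, hS, Ω, s, h1, h2, h3⟩ := hv
  refine l2_le_of (by positivity) ?_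
  have h4 : ∀ z x, ‖v z x‖ ^ 2 ≤ c * ∑ i, ‖Ω i x‖ ^ 2 := by
    intro z x
    have h5 : v z x = ∑ i, s z i * Ω i x := by
      rw [h3 z]
      simp
    rw [h5]
    have h6 : ‖∑ i, s z i * Ω i x‖ ≤ ∑ i, ‖s z i‖ * ‖Ω i x‖ :=
      (norm_sum_le _ _).trans (sum_le_sum fun i _ => (norm_mul _ _).le)
    calc ‖∑ i, s z i * Ω i x‖ ^ 2 ≤ (∑ i, ‖s z i‖ * ‖Ω i x‖) ^ 2 :=
          pow_le_pow_left₀ (norm_nonneg _) h6 2
      _ ≤ (∑ i, ‖s z i‖ ^ 2) * ∑ i, ‖Ω i x‖ ^ 2 := sum_mul_sq_le_sq_mul_sq _ _ _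
      _ ≤ _ := mul_le_mul_of_nonneg_right (h2 z) (sum_nonneg fun _ _ => sq_nonneg _)
  calc ∑ z, ‖nearP (B z) (v z)‖ ^ 2 = ∑ z, ∑ x ∈ B z, ∑ y, ‖v z (x, y)‖ ^ 2 :=
        sum_congr rfl fun z _ => nearP_sq _ _
    _ ≤ ∑ z, ∑ x ∈ B z, ∑ y, c * ∑ i, ‖Ω i (x, y)‖ ^ 2 :=
        sum_le_sum fun z _ => sum_le_sum fun x _ => sum_le_sum fun y _ => h4 z (x, y)
    _ = ∑ x, ∑ z ∈ univ.filter (fun z => x ∈ B z), ∑ y, c * ∑ i, ‖Ω i (x, y)‖ ^ 2 := by
        refine sum_comm' fun z x => ?_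
        simp
    _ = ∑ x, ((univ.filter fun z => x ∈ B z).card : ℝ) * ∑ y, c * ∑ i, ‖Ω i (x, y)‖ ^ 2 :=
        sum_congr rfl fun x _ => by rw [sum_const, nsmul_eq_mul]
    _ ≤ ∑ x, β ^ 2 * ∑ y, c * ∑ i, ‖Ω i (x, y)‖ ^ 2 := by
        refine sum_le_sum fun x _ => mul_le_mul_of_nonneg_right (hB x) ?_
        exact sum_nonneg fun y _ => mul_nonneg h0 (sum_nonneg fun _ _ => sq_nonneg _)
    _ = β ^ 2 * (c * ∑ i, ‖Ω i‖ ^ 2) := by
        rw [← mul_sum]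
        congr 1
        simp only [← mul_sum]
        congr 1
        rw [← Fintype.sum_prod_type' (f := fun x y => ∑ i, ‖Ω i (x, y)‖ ^ 2), sum_comm]
        exact sum_congr rfl fun i _ => (EuclideanSpace.norm_sq_eq _).symm
    _ ≤ β ^ 2 * (c * c) := by
        refine mul_le_mul_of_nonneg_left (mul_le_mul_of_nonneg_left h1 h0) (sq_nonneg _)
    _ = _ := by ring

theorem norm_nearP_le (B : Finset (Cube n)) (u : Sp n Y) : ‖nearP B u‖ ≤ ‖u‖ := by
  have h := norm_dg_le (f := fun x : Cube n => if x ∈ B then (1 : ℂ) else 0) zero_le_one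
    (fun x => by split_ifs <;> simp) u
  rwa [one_mul] at h

theorem near_good (hβ : 0 ≤ β)
    (hB : ∀ x, ((univ.filter fun z => x ∈ B z).card : ℝ) ≤ β ^ 2) {c : ℝ}
    {v : Z → Sp n Y} (hv : Good β c v) :
    l2 (fun z => nearP (B z) (v z)) ≤ 2 * (β * c) := by
  obtain ⟨v1, v2, h1, h2, h3⟩ := hv
  have h4 : (fun z => nearP (B z) (v z)) = fun z => nearP (B z) (v1 z) + nearP (B z) (v2 z) := by
    funext z
    rw [h1, map_add]
  rw [h4]
  have h5 : l2 (fun z => nearP (B z) (v2 z)) ≤ 1 * l2 v2 :=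
    l2_le zero_le_one fun z => by rw [one_mul]; exact norm_nearP_le _ _
  have := near_rep hβ hB h2
  have := l2_add (fun z => nearP (B z) (v1 z)) (fun z => nearP (B z) (v2 z))
  linarith

/-- operators that factor through the near part -/
theorem goodOp_near (hβ : 0 ≤ β)
    (hB : ∀ x, ((univ.filter fun z => x ∈ B z).card : ℝ) ≤ β ^ 2) {a : ℝ} (ha : 0 ≤ a)
    (X : Z → Sp n Y →ₗ[ℂ] Sp n Y) (hX : ∀ z u, ‖X z u‖ ≤ a * ‖nearP (B z) u‖) :
    GoodOp β (2 * a) X := by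
  refine ⟨by positivity, fun c v hv => good_of_l2 (mul_nonneg (by positivity) hv.nonneg) ?_⟩
  have h1 := l2_le (v := fun z => X z (v z)) (w := fun z => nearP (B z) (v z)) ha
    fun z => hX z (v z)
  have h2 := near_good hβ hB hv
  calc _ ≤ _ := h1
    _ ≤ a * (2 * (β * c)) := mul_le_mul_of_nonneg_left h2 ha
    _ = _ := by ring

/-- few members of a good family have a large near part -/
theorem markov (hβ : 0 ≤ β)
    (hB : ∀ x, ((univ.filter fun z => x ∈ B z).card : ℝ) ≤ β ^ 2) {c η : ℝ}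
    {v : Z → Sp n Y} (hv : Good β c v) (hη : 0 ≤ η)
    (h : ∀ z, η ≤ ‖nearP (B z) (v z)‖) : (Fintype.card Z : ℝ) * η ^ 2 ≤ 4 * (β ^ 2 * c ^ 2) := by
  have h1 := near_good hβ hB hv
  have h2 : l2 (fun z => nearP (B z) (v z)) ^ 2 ≤ (2 * (β * c)) ^ 2 :=
    pow_le_pow_left₀ (l2_nonneg _) h1 2
  rw [l2_sq] at h2
  calc (Fintype.card Z : ℝ) * η ^ 2 = ∑ _z : Z, η ^ 2 := by
        rw [sum_const, nsmul_eq_mul, card_univ]
    _ ≤ ∑ z, ‖nearP (B z) (v z)‖ ^ 2 :=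
        sum_le_sum fun z _ => pow_le_pow_left₀ hη (h z) 2
    _ ≤ _ := h2
    _ = _ := by ring

end near

end Pool.Agent.H73.AD
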