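import Pool.Agent.H73.AD.Flat

/-! Most formulas are typical; Hamming balls. -/

namespace Pool.Agent.H73.AD

open Finset Matrix Pool.Agent.H73.QA

section chern

variable {K : Type} [Fintype K]

/-- number of clauses with the property `P` -/
def cnt (P : K → Prop) [DecidablePred P] {m : ℕ} (F : Fin m → K) : ℕ :=
  (univ.filter fun j => P (F j)).card

/-- exponential moments of the number of clauses with a property -/
theorem chern (P : K → Prop) [DecidablePred P] (m : ℕ) (L p T : ℝ)
    (h : ((univ.filter P).card : ℝ) * (Real.exp L - 1) ≤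
      p * Fintype.card K * (Real.exp L - 1)) :
    ((univ.filter fun F : Fin m → K => T ≤ L * cnt P F).card : ℝ) ≤
      (Fintype.card K : ℝ) ^ m * Real.exp (m * (p * (Real.exp L - 1)) - T) := by
  classical
  have h1 : ∀ F : Fin m → K, Real.exp (L * cnt P F) =
      ∏ j, (if P (F j) then Real.exp L else 1) := by
    intro F
    rw [prod_ite, prod_const, prod_const_one, mul_one, ← Real.exp_nat_mul]
    congr 1
    unfold cnt
    ring
  have h2 : ∑ F : Fin m → K, Real.exp (L * cnt P F) =
      ((Fintype.card K : ℝ) + (univ.filter P).card * (Real.exp L - 1)) ^ m := by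
    simp only [h1]
    rw [← Fintype.prod_sum (fun (_ : Fin m) (c : K) => if P c then Real.exp L else 1),
      prod_const, card_univ, Fintype.card_fin]
    congr 1
    rw [sum_ite]
    simp only [sum_const, nsmul_eq_mul, mul_one]
    have h3 := card_filter_add_card_filter_not (s := (univ : Finset K)) P
    have h4 : (Fintype.card K : ℝ) = (univ.filter P).card +
        (univ.filter fun c => ¬ P c).card := by
      rw [← card_univ]
      exact_mod_cast h3.symm
    rw [h4]
    ring
  have h3 : (Fintype.card K : ℝ) + (univ.filter P).card * (Real.exp L - 1) ≤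
      Fintype.card K * Real.exp (p * (Real.exp L - 1)) := by
    have h4 := Real.add_one_le_exp (p * (Real.exp L - 1))
    have h5 : (Fintype.card K : ℝ) * (p * (Real.exp L - 1) + 1) ≤
        Fintype.card K * Real.exp (p * (Real.exp L - 1)) :=
      mul_le_mul_of_nonneg_left h4 (Nat.cast_nonneg _)
    nlinarith
  have h0 : 0 ≤ (Fintype.card K : ℝ) + (univ.filter P).card * (Real.exp L - 1) := by
    have h4 : ((univ.filter P).card : ℝ) ≤ Fintype.card K := by
      rw [← card_univ]
      exact_mod_cast card_filter_le _ _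
    have h5 := Real.exp_pos L
    have h6 : (0 : ℝ) ≤ (univ.filter P).card := Nat.cast_nonneg _
    nlinarith
  have h4 : ∑ F : Fin m → K, Real.exp (L * cnt P F) ≤
      (Fintype.card K : ℝ) ^ m * Real.exp (m * (p * (Real.exp L - 1))) := by
    rw [h2, Real.exp_nat_mul, ← mul_pow]
    exact pow_le_pow_left₀ h0 h3 m
  have h5 : ((univ.filter fun F : Fin m → K => T ≤ L * cnt P F).card : ℝ) * Real.exp T ≤
      (Fintype.card K : ℝ) ^ m * Real.exp (m * (p * (Real.exp L - 1))) := by
    refine le_trans ?_ h4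
    rw [← nsmul_eq_mul]
    refine (card_nsmul_le_sum _ _ _ fun F hF => ?_).trans
      (sum_le_sum_of_subset_of_nonneg (filter_subset _ _) fun F _ _ => Real.exp_nonneg _)
    rw [Real.exp_le_exp]
    exact (mem_filter.1 hF).2
  have hT : 0 < Real.exp T := Real.exp_pos _
  refine le_of_mul_le_mul_right (h5.trans (le_of_eq ?_)) hT
  rw [mul_assoc, ← Real.exp_add]
  congr 2
  ring

end chern

variable {n k : ℕ}

theorem card_clause : Fintype.card (Clause n k) = n.descFactorial k * 2 ^ k := by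
  rw [Fintype.card_prod, Fintype.card_embedding_eq, Fintype.card_fin, Fintype.card_fin]
  simp

theorem card_viol (x : Cube n) : ((univ.filter fun c : Clause n k => Violates x c).card : ℝ) =
    1 / 2 ^ k * Fintype.card (Clause n k) := by
  have h1 : (univ.filter fun c : Clause n k => Violates x c).card = n.descFactorial k := by
    have h2 : (univ.filter fun c : Clause n k => Violates x c) =
        (univ : Finset (Fin k ↪ Fin n)).image fun v => (v, fun i => x (v i)) := by
      ext c
      simp only [mem_filter, mem_univ, true_and, mem_image, Violates]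
      constructor
      · intro h
        exact ⟨c.1, Prod.ext rfl (funext fun i => h i)⟩
      · rintro ⟨v, rfl⟩ i
        rfl
    rw [h2, card_image_of_injective _ fun v w h => (Prod.ext_iff.1 h).1, card_univ,
      Fintype.card_embedding_eq, Fintype.card_fin, Fintype.card_fin]
  rw [h1, card_clause]
  push_cast
  field_simp

theorem card_viol2 {δ : ℝ} (hδ0 : 0 < δ) (hδ1 : δ < 1) (z x : Cube n)
    (hx : x ∉ hball δ z) : ((univ.filter fun c : Clause n k => Violates z c ∧ Violates x c).card : ℝ) ≤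
    (1 - δ) ^ k / 2 ^ k * Fintype.card (Clause n k) := by
  have hd : δ * n ≤ (diff x z).card := by
    unfold hball at hx
    rw [mem_filter] at hx
    push Not at hx
    exact (hx (mem_univ _)).le
  have h1 : (univ.filter fun c : Clause n k => Violates z c ∧ Violates x c).card ≤
      (univ.filter fun v : Fin k ↪ Fin n => ∀ i, x (v i) = z (v i)).card := by
    refine card_le_card_of_injOn (fun c => c.1) (fun c hc => ?_) fun c hc c' hc' h => ?_
    · simp only [coe_filter, mem_univ, true_and, Set.mem_ofPred_eq, Violates] at hc ⊢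
      exact fun i => (hc.2 i).trans (hc.1 i).symm
    · simp only [coe_filter, mem_univ, true_and, Set.mem_ofPred_eq, Violates] at hc hc'
      refine Prod.ext h (funext fun i => ?_)
      rw [← hc.1 i, ← hc'.1 i]
      have h2 : c.1 = c'.1 := h
      rw [h2]
  have h2 := desc_le hδ0.le hδ1.le hd k
  have h3 : ((univ.filter fun c : Clause n k => Violates z c ∧ Violates x c).card : ℝ) ≤
      ((n - (diff x z).card).descFactorial k : ℕ) := by
    exact_mod_cast h1.trans (card_same_le (k := k) x z)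
  rw [card_clause]
  push_cast
  refine h3.trans (h2.trans (le_of_eq ?_))
  field_simp

theorem ball_in {β : ℝ} (hβ : 0 < β) : ∃ δ : ℝ, 0 < δ ∧ δ ≤ 1 / 4 ∧ ∀ (n : ℕ) (x : Cube n),
    ((univ.filter fun z => x ∈ hball δ z).card : ℝ) ≤ (2 : ℝ) ^ (β * n) := by
  obtain ⟨δ, h0, h1, h2⟩ := ball hβ
  refine ⟨δ, h0, h1, fun n x => le_trans ?_ (h2 n)⟩
  have h3 : (univ.filter fun z => x ∈ hball δ z) = hball δ x := by
    ext z
    simp only [hball, mem_filter, mem_univ, true_and]
    rw [diff_comm]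
  rw [h3]
  exact_mod_cast card_hball δ x

theorem typ_count {ε δ ν : ℝ} (hε0 : 0 < ε) (hε1 : ε ≤ 1) (hδ0 : 0 < δ) (hδ1 : δ < 1)
    (hν0 : 0 < ν) (hν1 : ν ≤ 1) :
    ∃ C : ℝ, 0 < C ∧ ∃ k₀ : ℕ, ∀ k ≥ k₀, ∀ n : ℕ, 1 ≤ n → ∀ m : ℕ,
      C * 2 ^ k * n ≤ m → (Nat.card {G : Fin m → Clause n k // ¬ Typ ε δ ν G} : ℝ) ≤
        Nat.card (Fin m → Clause n k) / 2 ^ n := by
  classical
  obtain ⟨c, hc⟩ : ∃ c : ℝ, c = min (ε ^ 2 / 4) (ν / 2) := ⟨_, rfl⟩
  have hc0 : 0 < c := by rw [hc]; exact lt_min (by positivity) (by positivity)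
  have hc1 : c ≤ ε ^ 2 / 4 := by rw [hc]; exact min_le_left _ _
  have hc2 : c ≤ ν / 2 := by rw [hc]; exact min_le_right _ _
  obtain ⟨k₀, hk₀⟩ := exists_pow_lt_of_lt_one (show (0 : ℝ) < ν / 4 by linarith)
    (show 1 - δ < 1 by linarith)
  refine ⟨4 / c, by positivity, k₀, fun k hk n hn m hm => ?_⟩
  obtain ⟨q, hq⟩ : ∃ q : ℝ, q = m / 2 ^ k := ⟨_, rfl⟩
  have hq0 : 0 ≤ q := by rw [hq]; positivity
  have h2k : (0 : ℝ) < 2 ^ k := by positivity
  have hqn : 4 * (n : ℝ) ≤ c * q := by
    rw [hq]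
    have h1 : 4 / c * 2 ^ k * n * (c / 2 ^ k) ≤ m * (c / 2 ^ k) :=
      mul_le_mul_of_nonneg_right hm (by positivity)
    have h2 : 4 / c * 2 ^ k * n * (c / 2 ^ k) = 4 * (n : ℝ) := by field_simp
    have h3 : (m : ℝ) * (c / 2 ^ k) = c * (m / 2 ^ k) := by ring
    rw [h2, h3] at h1
    exact h1
  have hδk : (1 - δ) ^ k ≤ ν / 4 :=
    (pow_le_pow_of_le_one (by linarith) (by linarith) hk).trans hk₀.le
  obtain ⟨N, hN⟩ : ∃ N : ℝ, N = Fintype.card (Clause n k) := ⟨_, rfl⟩
  have hN0 : 0 ≤ N := by rw [hN]; exact Nat.cast_nonneg _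
  -- upper tail
  have hU : ∀ x : Cube n, ((univ.filter fun G : Fin m → Clause n k =>
      ε / 2 * ((1 + ε) * q) ≤ ε / 2 * cnt (fun c => Violates x c) G).card : ℝ) ≤
      N ^ m * Real.exp (-(c * q)) := by
    intro x
    have h1 := chern (fun c : Clause n k => Violates x c) m (ε / 2) (1 / 2 ^ k)
      (ε / 2 * ((1 + ε) * q)) (le_of_eq (by rw [card_viol]))
    rw [← hN] at h1
    refine h1.trans (mul_le_mul_of_nonneg_left ?_ (by positivity))
    rw [Real.exp_le_exp]
    have h2 : Real.exp (ε / 2) - 1 ≤ ε / 2 + (ε / 2) ^ 2 := by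
      have h3 := Real.abs_exp_sub_one_sub_id_le (x := ε / 2) (by
        rw [abs_of_pos (by positivity)]; linarith)
      have h4 := le_abs_self (Real.exp (ε / 2) - 1 - ε / 2)
      linarith
    have h3 : (m : ℝ) * (1 / 2 ^ k * (Real.exp (ε / 2) - 1)) = q * (Real.exp (ε / 2) - 1) := by
      rw [hq]; ring
    rw [h3]
    have h4 : q * (Real.exp (ε / 2) - 1) ≤ q * (ε / 2 + (ε / 2) ^ 2) :=
      mul_le_mul_of_nonneg_left h2 hq0
    have h5 : c * q ≤ ε ^ 2 / 4 * q := mul_le_mul_of_nonneg_right hc1 hq0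
    nlinarith
  -- lower tail
  have hD : ∀ x : Cube n, ((univ.filter fun G : Fin m → Clause n k =>
      -ε * ((1 - ε) * q) ≤ -ε * cnt (fun c => Violates x c) G).card : ℝ) ≤
      N ^ m * Real.exp (-(c * q)) := by
    intro x
    have h1 := chern (fun c : Clause n k => Violates x c) m (-ε) (1 / 2 ^ k)
      (-ε * ((1 - ε) * q)) (le_of_eq (by rw [card_viol]))
    rw [← hN] at h1
    refine h1.trans (mul_le_mul_of_nonneg_left ?_ (by positivity))
    rw [Real.exp_le_exp]
    have h2 : Real.exp (-ε) - 1 ≤ -ε + ε ^ 2 / 2 := by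
      have h1 := Real.quadratic_le_exp_of_nonneg hε0.le
      have h2 : Real.exp (-ε) * Real.exp ε = 1 := by rw [← Real.exp_add]; simp
      have h3 : 0 < Real.exp (-ε) := Real.exp_pos _
      have h4 : Real.exp (-ε) * (1 + ε + ε ^ 2 / 2) ≤ 1 :=
        (mul_le_mul_of_nonneg_left h1 h3.le).trans h2.le
      have h5 : 1 ≤ (1 - ε + ε ^ 2 / 2) * (1 + ε + ε ^ 2 / 2) := by nlinarith [sq_nonneg (ε ^ 2)]
      have h6 : 0 < 1 + ε + ε ^ 2 / 2 := by positivity
      have h7 : Real.exp (-ε) * (1 + ε + ε ^ 2 / 2) ≤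
          (1 - ε + ε ^ 2 / 2) * (1 + ε + ε ^ 2 / 2) := h4.trans h5
      have h8 := le_of_mul_le_mul_right h7 h6
      linarith
    have h3 : (m : ℝ) * (1 / 2 ^ k * (Real.exp (-ε) - 1)) = q * (Real.exp (-ε) - 1) := by
      rw [hq]; ring
    rw [h3]
    have h4 : q * (Real.exp (-ε) - 1) ≤ q * (-ε + ε ^ 2 / 2) :=
      mul_le_mul_of_nonneg_left h2 hq0
    have h5 : c * q ≤ ε ^ 2 / 4 * q := mul_le_mul_of_nonneg_right hc1 hq0
    nlinarith [mul_nonneg hq0 (sq_nonneg ε)]
  -- pairs
  have hW : ∀ zx : Cube n × Cube n, zx.2 ∉ hball δ zx.1 →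
      ((univ.filter fun G : Fin m → Clause n k =>
      1 * (ν * q) ≤ 1 * cnt (fun c => Violates zx.1 c ∧ Violates zx.2 c) G).card : ℝ) ≤
      N ^ m * Real.exp (-(c * q)) := by
    intro zx hzx
    have he : Real.exp 1 < 3 := by
      have := Real.exp_one_lt_d9
      linarith
    have he1 : 1 < Real.exp 1 := by
      have := Real.exp_one_gt_d9
      linarith
    have h1 := chern (fun c : Clause n k => Violates zx.1 c ∧ Violates zx.2 c) m 1
      ((1 - δ) ^ k / 2 ^ k) (1 * (ν * q))
      (mul_le_mul_of_nonneg_right (card_viol2 hδ0 hδ1 zx.1 zx.2 hzx) (by linarith))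
    rw [← hN] at h1
    refine h1.trans (mul_le_mul_of_nonneg_left ?_ (by positivity))
    rw [Real.exp_le_exp]
    have h3 : (m : ℝ) * ((1 - δ) ^ k / 2 ^ k * (Real.exp 1 - 1)) =
        q * ((1 - δ) ^ k * (Real.exp 1 - 1)) := by rw [hq]; ring
    rw [h3]
    have h4 : (1 - δ) ^ k * (Real.exp 1 - 1) ≤ ν / 4 * 2 :=
      mul_le_mul hδk (by linarith) (by linarith) (by linarith)
    have h5 : q * ((1 - δ) ^ k * (Real.exp 1 - 1)) ≤ q * (ν / 4 * 2) :=
      mul_le_mul_of_nonneg_left h4 hq0
    have h6 : c * q ≤ ν / 2 * q := mul_le_mul_of_nonneg_right hc2 hq0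
    linarith
  -- union
  have hsub : (univ.filter fun G : Fin m → Clause n k => ¬ Typ ε δ ν G) ⊆
      ((univ : Finset (Cube n)).biUnion fun x => univ.filter fun G : Fin m → Clause n k =>
        ε / 2 * ((1 + ε) * q) ≤ ε / 2 * cnt (fun c => Violates x c) G) ∪
      ((univ : Finset (Cube n)).biUnion fun x => univ.filter fun G : Fin m → Clause n k =>
        -ε * ((1 - ε) * q) ≤ -ε * cnt (fun c => Violates x c) G) ∪
      ((univ.filter fun zx : Cube n × Cube n => zx.2 ∉ hball δ zx.1).biUnion fun zx =>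
        univ.filter fun G : Fin m → Clause n k =>
        1 * (ν * q) ≤ 1 * cnt (fun c => Violates zx.1 c ∧ Violates zx.2 c) G) := by
    intro G hG
    rw [mem_filter] at hG
    by_contra hno
    apply hG.2
    simp only [mem_union, mem_biUnion, mem_filter, mem_univ, true_and, not_or, not_exists,
      not_and, not_le] at hno
    obtain ⟨⟨n1, n2⟩, n3⟩ := hno
    have hv : ∀ x, (cnt (fun c : Clause n k => Violates x c) G : ℝ) = viol G x := fun x => rfl
    refine ⟨fun x => ?_, fun z x hx => ?_⟩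
    · rw [abs_le, ← hq]
      have a1 := n1 x
      have a2 := n2 x
      rw [hv] at a1 a2
      have a3 : (viol G x : ℝ) < (1 + ε) * q := lt_of_mul_lt_mul_left a1 (by positivity)
      have a4 : (1 - ε) * q < (viol G x : ℝ) := by
        have a5 : ε * ((1 - ε) * q) < ε * viol G x := by linarith
        exact lt_of_mul_lt_mul_left a5 hε0.le
      constructor <;> linarith
    · have a1 := n3 (z, x) hx
      rw [← hq]
      have hw : (cnt (fun c : Clause n k => Violates z c ∧ Violates x c) G : ℝ) = Wn G z x := rfl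
      simp only [one_mul] at a1
      rw [hw] at a1
      exact a1.le
  have hcardC : (Fintype.card (Cube n) : ℝ) = 2 ^ n := by simp
  have hcard : ((univ.filter fun G : Fin m → Clause n k => ¬ Typ ε δ ν G).card : ℝ) ≤
      2 ^ n * (N ^ m * Real.exp (-(c * q))) + 2 ^ n * (N ^ m * Real.exp (-(c * q))) +
        4 ^ n * (N ^ m * Real.exp (-(c * q))) := by
    have b1 : ((univ.filter fun G : Fin m → Clause n k => ¬ Typ ε δ ν G).card : ℝ) ≤
        ∑ x : Cube n, ((univ.filter fun G : Fin m → Clause n k =>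
          ε / 2 * ((1 + ε) * q) ≤ ε / 2 * cnt (fun c => Violates x c) G).card : ℝ) +
        ∑ x : Cube n, ((univ.filter fun G : Fin m → Clause n k =>
          -ε * ((1 - ε) * q) ≤ -ε * cnt (fun c => Violates x c) G).card : ℝ) +
        ∑ zx ∈ univ.filter (fun zx : Cube n × Cube n => zx.2 ∉ hball δ zx.1),
          ((univ.filter fun G : Fin m → Clause n k =>
          1 * (ν * q) ≤ 1 * cnt (fun c => Violates zx.1 c ∧ Violates zx.2 c) G).card : ℝ) := by
      have b2 := card_le_card hsub
      have b3 := b2.trans ((card_union_le _ _).trans (Nat.add_le_add (card_union_le _ _) le_rfl))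
      have b4 := b3.trans (Nat.add_le_add (Nat.add_le_add card_biUnion_le card_biUnion_le)
        card_biUnion_le)
      exact_mod_cast b4
    refine b1.trans (add_le_add (add_le_add ?_ ?_) ?_)
    · refine (sum_le_sum fun x _ => hU x).trans (le_of_eq ?_)
      rw [sum_const, card_univ, nsmul_eq_mul, hcardC]
    · refine (sum_le_sum fun x _ => hD x).trans (le_of_eq ?_)
      rw [sum_const, card_univ, nsmul_eq_mul, hcardC]
    · refine (sum_le_sum fun x hx => hW x (mem_filter.1 hx).2).trans ?_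
      rw [sum_const, nsmul_eq_mul]
      refine mul_le_mul_of_nonneg_right ?_ (by positivity)
      have b5 : (univ.filter fun zx : Cube n × Cube n => zx.2 ∉ hball δ zx.1).card ≤
          Fintype.card (Cube n × Cube n) := card_filter_le _ _
      have b6 : (Fintype.card (Cube n × Cube n) : ℝ) = 4 ^ n := by
        rw [Fintype.card_prod]
        push_cast
        rw [hcardC, ← mul_pow]
        norm_num
      rw [← b6]
      exact_mod_cast b5
  have hfin : (2 : ℝ) ^ n * (N ^ m * Real.exp (-(c * q))) + 2 ^ n * (N ^ m * Real.exp (-(c * q))) +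
      4 ^ n * (N ^ m * Real.exp (-(c * q))) ≤ N ^ m / 2 ^ n := by
    have f1 : Real.exp (-(c * q)) ≤ Real.exp (-(4 * (n : ℝ))) := by
      rw [Real.exp_le_exp]
      linarith
    have f2 : Real.exp (-(4 * (n : ℝ))) ≤ 1 / 24 ^ n := by
      rw [Real.exp_neg, ← one_div]
      refine one_div_le_one_div_of_le (by positivity) ?_
      have f3 : (24 : ℝ) ≤ Real.exp 4 := by
        have f4 := Real.exp_one_gt_d9
        have f5 : Real.exp 4 = Real.exp 1 ^ 4 := by
          rw [← Real.exp_nat_mul]
          norm_num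
        rw [f5]
        have f6 : (2.7 : ℝ) ^ 4 ≤ Real.exp 1 ^ 4 :=
          pow_le_pow_left₀ (by norm_num) (by linarith) 4
        refine le_trans (by norm_num) f6
      calc (24 : ℝ) ^ n ≤ Real.exp 4 ^ n := pow_le_pow_left₀ (by norm_num) f3 n
        _ = Real.exp (4 * n) := by rw [← Real.exp_nat_mul]; ring_nf
    have f3 : (2 : ℝ) ^ n ≤ 4 ^ n := pow_le_pow_left₀ (by norm_num) (by norm_num) n
    have f4 : (3 : ℝ) ≤ 3 ^ n := by
      calc (3 : ℝ) = 3 ^ 1 := by norm_num
        _ ≤ 3 ^ n := pow_le_pow_right₀ (by norm_num) hn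
    have hM : 0 ≤ N ^ m := by positivity
    have f5 : (2 : ℝ) ^ n + 2 ^ n + 4 ^ n ≤ 3 ^ n * 4 ^ n := by
      have : (0 : ℝ) < 4 ^ n := by positivity
      nlinarith
    calc (2 : ℝ) ^ n * (N ^ m * Real.exp (-(c * q))) + 2 ^ n * (N ^ m * Real.exp (-(c * q))) +
          4 ^ n * (N ^ m * Real.exp (-(c * q)))
        = ((2 : ℝ) ^ n + 2 ^ n + 4 ^ n) * (N ^ m * Real.exp (-(c * q))) := by ring
      _ ≤ (3 ^ n * 4 ^ n) * (N ^ m * (1 / 24 ^ n)) := by
          refine mul_le_mul f5 (mul_le_mul_of_nonneg_left (f1.trans f2) hM) (by positivity)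
            (by positivity)
      _ = N ^ m / 2 ^ n := by
          rw [← mul_pow]
          have : (24 : ℝ) ^ n = (3 * 4) ^ n * 2 ^ n := by rw [← mul_pow]; norm_num
          rw [this]
          field_simp
  have e1 : (Nat.card {G : Fin m → Clause n k // ¬ Typ ε δ ν G} : ℝ) =
      ((univ.filter fun G : Fin m → Clause n k => ¬ Typ ε δ ν G).card : ℝ) := by
    rw [Nat.card_eq_fintype_card, Fintype.card_subtype]
  have e2 : (Nat.card (Fin m → Clause n k) : ℝ) = N ^ m := by
    rw [Nat.card_eq_fintype_card, Fintype.card_fun, Fintype.card_fin, hN]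
    push_cast
    rfl
  rw [e1, e2]
  exact hcard.trans hfin

end Pool.Agent.H73.AD
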