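import Mathlib

/-! Cells of coefficient vectors, nets and fiber counts (module C of the annealing board). -/

namespace Pool.Agent.H73.AD

open Finset

/-- possible cells of coefficient vectors of `ℓ¹` norm at most `Λ` -/
noncomputable def cells (p L : ℕ) : Finset (Fin p → ℤ) :=
  (Fintype.piFinset fun _ => Finset.Icc (-(L : ℤ)) L).filter fun v => ∑ i, |v i| ≤ L

theorem sum_half (L : ℕ) :
    ∑ j ∈ Finset.Icc (-(L : ℤ)) L, (1 / 2 : ℝ) ^ j.natAbs = 3 - 2 * (1 / 2 : ℝ) ^ L := by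
  induction L with
  | zero => norm_num
  | succ L ih =>
    have h1 : Finset.Icc (-((L + 1 : ℕ) : ℤ)) ((L + 1 : ℕ) : ℤ) =
        insert ((L : ℤ) + 1) (insert (-((L : ℤ) + 1)) (Finset.Icc (-(L : ℤ)) L)) := by
      ext j
      simp only [Finset.mem_Icc, Finset.mem_insert]
      push_cast
      omega
    have h2 : -((L : ℤ) + 1) ∉ Finset.Icc (-(L : ℤ)) L := by
      simp only [Finset.mem_Icc]
      omega
    have h3 : (L : ℤ) + 1 ∉ insert (-((L : ℤ) + 1)) (Finset.Icc (-(L : ℤ)) L) := by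
      simp only [Finset.mem_Icc, Finset.mem_insert]
      omega
    rw [h1, Finset.sum_insert h3, Finset.sum_insert h2, ih]
    have h4 : ((L : ℤ) + 1).natAbs = L + 1 := by omega
    have h5 : (-((L : ℤ) + 1)).natAbs = L + 1 := by omega
    rw [h4, h5]
    ring

theorem cells_card (p L : ℕ) : (cells p L).card ≤ 2 ^ L * 3 ^ p := by
  have h1 : ((cells p L).card : ℝ) ≤ 2 ^ L * 3 ^ p := by
    have h2 : ∀ v ∈ cells p L, (1 : ℝ) ≤ 2 ^ L * ∏ i, (1 / 2 : ℝ) ^ (v i).natAbs := by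
      intro v hv
      have h3 : ∑ i, |v i| ≤ (L : ℤ) := (Finset.mem_filter.1 hv).2
      have h4 : ∑ i, (v i).natAbs ≤ L := by
        have h5 : ((∑ i, (v i).natAbs : ℕ) : ℤ) = ∑ i, |v i| := by
          push_cast
          rfl
        have h6 : ((∑ i, (v i).natAbs : ℕ) : ℤ) ≤ (L : ℤ) := by
          rw [h5]
          exact h3
        exact_mod_cast h6
      rw [Finset.prod_pow_eq_pow_sum]
      have h7 : (1 / 2 : ℝ) ^ L ≤ (1 / 2 : ℝ) ^ (∑ i, (v i).natAbs) :=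
        pow_le_pow_of_le_one (by norm_num) (by norm_num) h4
      have h8 : (2 : ℝ) ^ L * (1 / 2 : ℝ) ^ L = 1 := by
        rw [← mul_pow]
        norm_num
      calc (1 : ℝ) = 2 ^ L * (1 / 2 : ℝ) ^ L := h8.symm
        _ ≤ _ := mul_le_mul_of_nonneg_left h7 (by positivity)
    have h9 : ((cells p L).card : ℝ) ≤
        ∑ v ∈ cells p L, 2 ^ L * ∏ i, (1 / 2 : ℝ) ^ (v i).natAbs := by
      have := Finset.sum_le_sum h2
      simpa using this
    refine h9.trans ?_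
    have h10 : ∑ v ∈ cells p L, 2 ^ L * ∏ i, (1 / 2 : ℝ) ^ (v i).natAbs ≤
        ∑ v ∈ Fintype.piFinset (fun _ : Fin p => Finset.Icc (-(L : ℤ)) L),
          2 ^ L * ∏ i, (1 / 2 : ℝ) ^ (v i).natAbs := by
      refine Finset.sum_le_sum_of_subset_of_nonneg (Finset.filter_subset _ _) ?_
      intro v _ _
      positivity
    refine h10.trans ?_
    rw [← Finset.mul_sum, Finset.sum_prod_piFinset (Finset.Icc (-(L : ℤ)) L)
      (fun (_ : Fin p) (j : ℤ) => (1 / 2 : ℝ) ^ j.natAbs)]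
    refine mul_le_mul_of_nonneg_left ?_ (by positivity)
    rw [Finset.prod_const, Finset.card_univ, Fintype.card_fin, sum_half]
    have h11 : (0 : ℝ) ≤ 2 * (1 / 2 : ℝ) ^ L := by positivity
    have h12 : 2 * (1 / 2 : ℝ) ^ L ≤ 2 := by
      have := pow_le_one₀ (n := L) (by norm_num : (0 : ℝ) ≤ 1 / 2) (by norm_num)
      linarith
    exact pow_le_pow_left₀ (by linarith) (by linarith) p
  exact_mod_cast h1

/-- truncation towards zero -/
noncomputable def tr (x : ℝ) : ℤ := if 0 ≤ x then ⌊x⌋ else -⌊-x⌋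

theorem abs_tr_le (x : ℝ) : ((|tr x| : ℤ) : ℝ) ≤ |x| := by
  unfold tr
  split_ifs with h
  · have h1 : 0 ≤ ⌊x⌋ := Int.floor_nonneg.2 h
    rw [abs_of_nonneg h1, abs_of_nonneg h]
    exact Int.floor_le x
  · have h2 : x < 0 := not_le.1 h
    have h1 : 0 ≤ ⌊-x⌋ := Int.floor_nonneg.2 (by linarith)
    rw [abs_neg, abs_of_nonneg h1, abs_of_neg h2]
    exact Int.floor_le (-x)

theorem sub_tr_le (x : ℝ) : |x - tr x| ≤ 1 := by
  unfold tr
  split_ifs with h
  · have h1 := Int.floor_le x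
    have h2 := Int.lt_floor_add_one x
    rw [abs_le]
    constructor <;> linarith
  · have h1 := Int.floor_le (-x)
    have h2 := Int.lt_floor_add_one (-x)
    push_cast
    rw [abs_le]
    constructor <;> linarith

theorem exists_cell {ρ Λ : ℝ} (hρ : 0 < ρ) (p L : ℕ) (hL : Λ * p / ρ ≤ L) :
    ∃ cell : (Fin p → ℝ) → Fin p → ℤ, (∀ a, ∑ i, |a i| ≤ Λ → cell a ∈ cells p L) ∧
      ∀ a a', cell a = cell a' → ∀ i, |a i - a' i| ≤ 2 * ρ / p := by
  refine ⟨fun a i => tr (a i * p / ρ), ?_, ?_⟩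
  · intro a ha
    have h1 : ∑ i, |tr (a i * p / ρ)| ≤ (L : ℤ) := by
      have h2 : ((∑ i, |tr (a i * p / ρ)| : ℤ) : ℝ) ≤ ((L : ℤ) : ℝ) := by
        rw [Int.cast_sum]
        calc ∑ i, ((|tr (a i * p / ρ)| : ℤ) : ℝ) ≤ ∑ i, |a i * p / ρ| :=
              Finset.sum_le_sum fun i _ => abs_tr_le _
          _ = (∑ i, |a i|) * p / ρ := by
              rw [Finset.sum_mul, Finset.sum_div]
              refine Finset.sum_congr rfl fun i _ => ?_
              rw [abs_div, abs_mul, abs_of_pos hρ, Nat.abs_cast]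
          _ ≤ Λ * p / ρ := by gcongr
          _ ≤ ((L : ℤ) : ℝ) := by exact_mod_cast hL
      exact_mod_cast h2
    refine Finset.mem_filter.2 ⟨Fintype.mem_piFinset.2 fun i => ?_, h1⟩
    have h3 : |tr (a i * p / ρ)| ≤ (L : ℤ) :=
      (Finset.single_le_sum (f := fun i => |tr (a i * p / ρ)|) (fun _ _ => abs_nonneg _)
        (Finset.mem_univ i)).trans h1
    exact Finset.mem_Icc.2 (abs_le.1 h3)
  · intro a a' h i
    have hp : 0 < p := i.pos
    have hp' : (0 : ℝ) < p := by exact_mod_cast hp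
    have h2 : tr (a i * p / ρ) = tr (a' i * p / ρ) := congrFun h i
    have h3 := abs_le.1 (sub_tr_le (a i * p / ρ))
    have h4 := abs_le.1 (sub_tr_le (a' i * p / ρ))
    rw [← h2] at h4
    have h5 : |a i * p / ρ - a' i * p / ρ| ≤ 2 := by
      rw [abs_le]
      constructor <;> linarith [h3.1, h3.2, h4.1, h4.2]
    have h6 : a i * p / ρ - a' i * p / ρ = (a i - a' i) * (p / ρ) := by ring
    rw [h6, abs_mul, abs_of_pos (by positivity : (0 : ℝ) < p / ρ)] at h5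
    rw [le_div_iff₀ hp']
    have h7 : |a i - a' i| * (p / ρ) * ρ ≤ 2 * ρ := mul_le_mul_of_nonneg_right h5 hρ.le
    have h8 : |a i - a' i| * (p / ρ) * ρ = |a i - a' i| * p := by
      field_simp
    linarith

/-- the summed form of the closeness in a cell -/
theorem sum_of_cell {ρ : ℝ} (hρ : 0 < ρ) {p : ℕ} {a a' : Fin p → ℝ}
    (h : ∀ i, |a i - a' i| ≤ 2 * ρ / p) : ∑ i, |a i - a' i| ≤ 2 * ρ := by
  rcases Nat.eq_zero_or_pos p with hp | hp
  · subst hp
    simp only [Finset.univ_eq_empty, Finset.sum_empty]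
    positivity
  · have hp' : (0 : ℝ) < p := by exact_mod_cast hp
    calc ∑ i, |a i - a' i| ≤ ∑ _i : Fin p, 2 * ρ / p := Finset.sum_le_sum fun i _ => h i
      _ = 2 * ρ := by
          rw [Finset.sum_const, Finset.card_univ, Fintype.card_fin, nsmul_eq_mul]
          field_simp

theorem exists_net {ζ A B : ℝ} (hζ : 0 < ζ) (hAB : A ≤ B) :
    ∃ (I : Finset ℤ) (f : ℝ → ℤ), (I.card : ℝ) ≤ (B - A) / ζ + 2 ∧
      (∀ x, A ≤ x → x ≤ B → f x ∈ I) ∧ ∀ x y, f x = f y → |x - y| ≤ ζ := by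
  refine ⟨Finset.Icc ⌊A / ζ⌋ ⌊B / ζ⌋, fun x => ⌊x / ζ⌋, ?_, ?_, ?_⟩
  · have h1 : ⌊A / ζ⌋ ≤ ⌊B / ζ⌋ := Int.floor_mono (by gcongr)
    have h2 : (((Finset.Icc ⌊A / ζ⌋ ⌊B / ζ⌋).card : ℤ) : ℝ) = ⌊B / ζ⌋ + 1 - ⌊A / ζ⌋ := by
      rw [Int.card_Icc, Int.toNat_of_nonneg (by omega)]
      push_cast
      ring
    have h3 : (((Finset.Icc ⌊A / ζ⌋ ⌊B / ζ⌋).card : ℕ) : ℝ) =
        (((Finset.Icc ⌊A / ζ⌋ ⌊B / ζ⌋).card : ℤ) : ℝ) := by norm_cast
    rw [h3, h2]
    have h4 := Int.floor_le (B / ζ)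
    have h5 := Int.lt_floor_add_one (A / ζ)
    have h6 : (B - A) / ζ = B / ζ - A / ζ := by ring
    rw [h6]
    linarith
  · intro x hx hx'
    exact Finset.mem_Icc.2 ⟨Int.floor_mono (by gcongr), Int.floor_mono (by gcongr)⟩
  · intro x y h
    have h' : ⌊x / ζ⌋ = ⌊y / ζ⌋ := h
    have h1 := Int.floor_le (x / ζ)
    have h2 := Int.lt_floor_add_one (x / ζ)
    have h3 := Int.floor_le (y / ζ)
    have h4 := Int.lt_floor_add_one (y / ζ)
    rw [← h'] at h3 h4
    have h5 : |x / ζ - y / ζ| ≤ 1 := by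
      rw [abs_le]
      constructor <;> linarith
    have h6 : x / ζ - y / ζ = (x - y) / ζ := by ring
    rw [h6, abs_div, abs_of_pos hζ, div_le_iff₀ hζ, one_mul] at h5
    exact h5

theorem fiber_count {α K : Type} [DecidableEq K] (S : Finset α) (key : α → K) (I : Finset K)
    (hI : ∀ z ∈ S, key z ∈ I) {b : ℝ}
    (h : ∀ y ∈ I, ((S.filter fun z => key z = y).card : ℝ) ≤ b) :
    (S.card : ℝ) ≤ I.card * b := by
  have h1 : S.card = ∑ y ∈ I, (S.filter fun z => key z = y).card :=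
    Finset.card_eq_sum_card_fiberwise hI
  rw [h1, Nat.cast_sum]
  calc ∑ y ∈ I, ((S.filter fun z => key z = y).card : ℝ) ≤ ∑ _y ∈ I, b :=
        Finset.sum_le_sum h
    _ = I.card * b := by rw [Finset.sum_const, nsmul_eq_mul]

end Pool.Agent.H73.AD
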