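import Pool.Agent.H73.AD.Fam
import Pool.Agent.H73.AD.Cell

/-! Few assignments are not good. -/

namespace Pool.Agent.H73.AD

open Finset Matrix Pool.Agent.H73.QA

variable {n k m p q : ℕ} {Y : Type} [Fintype Y] [DecidableEq Y]

/-- a low-lying eigenvector of a flattened Hamiltonian -/
structure D1 (α κ Λ δ : ℝ) (G : Fin m → Clause n k) (D : Fin p → Op n Y)
    (h : Fin p → Fin m → Op n Y) (z : Cube n) (a : Fin p → ℝ) (b f : ℝ) (φ : Sp n Y) : Prop where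
  adm : Adm α κ Λ a (driver G D h z a) z
  b5 : 1 / 5 ≤ b
  b1 : b ≤ 1
  unit : ‖φ‖ = 1
  eig : flatH G δ z (driver G D h z a) b φ = (f : ℂ) • φ
  low : f ≤ 1 - (1 - κ / 4) * b + κ / 80

/-- identity or one of the operators `T j` -/
noncomputable def Uof (T : Fin q → Op n Y) (o : Option (Fin q)) : Sp n Y →ₗ[ℂ] Sp n Y :=
  o.elim LinearMap.id fun j => toEuclideanLin (T j)

/-- a resolvent applied to `U φ` -/
structure D2 (α κ Λ δ : ℝ) (G : Fin m → Clause n k) (D : Fin p → Op n Y)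
    (h : Fin p → Fin m → Op n Y) (T : Fin q → Op n Y) (z : Cube n) (φ : Sp n Y)
    (o : Option (Fin q)) (a : Fin p → ℝ) (b e d : ℝ) (v : Sp n Y) : Prop where
  adm : Adm α κ Λ a (driver G D h z a) z
  b0 : 0 ≤ b
  b1 : b ≤ 1
  e0 : 0 ≤ e
  low : e ≤ 1 - (1 - κ / 4) * b
  low' : b < 1 / 5 → e ≤ 1 / 2
  d0 : 0 < d
  d1 : d ≤ 1
  unit : ‖v‖ ≤ 1
  eq : flatH G δ z (driver G D h z a) b v - (e : ℂ) • v = (d : ℂ) • Uof T o φ

theorem nearN_re_nonneg (G : Fin m → Clause n k) (δ : ℝ) (z : Cube n) {b : ℝ} (hb : b ≤ 1)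
    (v : Sp n Y) : 0 ≤ (inner ℂ v (nearN G δ z b v)).re := by
  rw [PiLp.inner_apply, Complex.re_sum]
  refine sum_nonneg fun x _ => ?_
  unfold nearN
  rw [dg_apply]
  have h1 : ∀ (r : ℝ) (w : ℂ), 0 ≤ r → 0 ≤ (inner ℂ w ((r : ℂ) * w)).re := by
    intro r w hr
    have h2 : inner ℂ w ((r : ℂ) * w) = ((r * ‖w‖ ^ 2 : ℝ) : ℂ) := by
      rw [RCLike.inner_apply, mul_assoc, Complex.mul_conj]
      push_cast
      rw [Complex.normSq_eq_norm_sq]
      push_cast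
      ring
    rw [h2, Complex.ofReal_re]
    positivity
  split_ifs
  · exact h1 _ _ (mul_nonneg (by linarith) (by positivity))
  · simp

theorem ham_re_nonneg (G : Fin m → Clause n k) (z : Cube n) {A : Op n Y}
    (hA : ∀ v : Cube n × Y → ℂ, 0 ≤ (star v ⬝ᵥ A *ᵥ v).re) {b : ℝ} (hb0 : 0 ≤ b) (hb : b ≤ 1)
    (v : Cube n × Y → ℂ) : 0 ≤ (star v ⬝ᵥ ham G z A b *ᵥ v).re := by
  unfold ham
  rw [add_mulVec, smul_mulVec, dotProduct_add, dotProduct_smul, Complex.add_re, smul_eq_mul,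
    Complex.re_ofReal_mul]
  have h1 := mul_nonneg hb0 (hA v)
  have h2 : 0 ≤ (star v ⬝ᵥ (diagonal fun x : Cube n × Y =>
      (((1 - b) * (2 ^ k / m * pviol G z x.1) : ℝ) : ℂ)) *ᵥ v).re := by
    unfold dotProduct
    rw [Complex.re_sum]
    refine sum_nonneg fun x _ => ?_
    rw [mulVec_diagonal]
    have h3 : star v x * ((((1 - b) * (2 ^ k / m * pviol G z x.1) : ℝ) : ℂ) * v x) =
        (((1 - b) * (2 ^ k / m * pviol G z x.1) * ‖v x‖ ^ 2 : ℝ) : ℂ) := by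
      have h4 : star v x * v x = ((‖v x‖ ^ 2 : ℝ) : ℂ) := by
        have h5 := Complex.mul_conj (v x)
        rw [Complex.normSq_eq_norm_sq] at h5
        rw [Pi.star_apply, ← h5, mul_comm]
        rfl
      calc _ = (((1 - b) * (2 ^ k / m * pviol G z x.1) : ℝ) : ℂ) * (star v x * v x) := by ring
        _ = _ := by rw [h4]; push_cast; ring
    rw [h3, Complex.ofReal_re]
    have h4 : 0 ≤ 1 - b := by linarith
    positivity
  linarith

theorem inner_toLin (A : Op n Y) (v : Sp n Y) :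
    inner ℂ v (toEuclideanLin A v) = star v.ofLp ⬝ᵥ A *ᵥ v.ofLp := by
  rw [EuclideanSpace.inner_eq_star_dotProduct, toEuclideanLin, toLpLin_apply, dotProduct_comm]

theorem flat_re_nonneg (G : Fin m → Clause n k) (δ : ℝ) (z : Cube n) {A : Op n Y}
    (hA : ∀ v : Cube n × Y → ℂ, 0 ≤ (star v ⬝ᵥ A *ᵥ v).re) {b : ℝ} (hb0 : 0 ≤ b) (hb : b ≤ 1)
    (v : Sp n Y) : 0 ≤ (inner ℂ v (flatH G δ z A b v)).re := by
  unfold flatH
  rw [LinearMap.add_apply, inner_add_right, Complex.add_re]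
  have h1 := nearN_re_nonneg G δ z hb v
  have h2 := ham_re_nonneg G z hA hb0 hb v.ofLp
  rw [← inner_toLin] at h2
  linarith

theorem D1.f_nonneg {α κ Λ δ : ℝ} {G : Fin m → Clause n k} {D : Fin p → Op n Y}
    {h : Fin p → Fin m → Op n Y} {z : Cube n} {a : Fin p → ℝ} {b f : ℝ} {φ : Sp n Y}
    (hd : D1 α κ Λ δ G D h z a b f φ) : 0 ≤ f := by
  have h1 := flat_re_nonneg G δ z hd.adm.psd (by linarith [hd.b5]) hd.b1 φ
  rw [hd.eig, inner_smul_right, inner_self_eq_norm_sq_to_K, hd.unit] at h1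
  simpa using h1

end Pool.Agent.H73.AD
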