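import Pool.Agent.H73.AD.Bad

/-! Counting assignments which are not good. -/

namespace Pool.Agent.H73.AD

open Finset Matrix Pool.Agent.H73.QA

variable {n k m p q : ℕ} {Y : Type} [Fintype Y] [DecidableEq Y]

/-- functions that discretise the parameters -/
structure Nets (Λ ρ σ : ℝ) (p : ℕ) (Ic : Finset (Fin p → ℤ)) (Ib Is : Finset ℤ)
    (cell : (Fin p → ℝ) → Fin p → ℤ) (nb ns : ℝ → ℤ) : Prop where
  c1 : ∀ a : Fin p → ℝ, ∑ i, |a i| ≤ Λ → cell a ∈ Ic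
  c2 : ∀ a a', cell a = cell a' → ∀ i, |a i - a' i| ≤ 2 * ρ / p
  b1 : ∀ x, 0 ≤ x → x ≤ 1 → nb x ∈ Ib
  b2 : ∀ x y, nb x = nb y → |x - y| * (3 * Λ + 1) ≤ σ
  s1 : ∀ x, -1 ≤ x → x ≤ 1 → ns x ∈ Is
  s2 : ∀ x y, ns x = ns y → |x - y| ≤ σ

variable {α κ Λ ε δ ν ρ σ β r : ℝ} {J : ℕ} {Ic : Finset (Fin p → ℤ)} {Ib Is : Finset ℤ}
  {cell : (Fin p → ℝ) → Fin p → ℤ} {nb ns : ℝ → ℤ}

theorem D1.s_bounds {G : Fin m → Clause n k} {D : Fin p → Op n Y}
    {h : Fin p → Fin m → Op n Y} {z : Cube n} {a : Fin p → ℝ} {b f : ℝ} {φ : Sp n Y}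
    (hκ0 : 0 < κ) (hκ1 : κ ≤ 1) (hd : D1 α κ Λ δ G D h z a b f φ) :
    -1 ≤ 1 - b - f ∧ 1 - b - f ≤ 1 ∧ κ / 8 ≤ b * κ + (1 - b - f) := by
  have h1 := hd.f_nonneg
  have h2 := hd.low
  have h3 := hd.b5
  have h4 := hd.b1
  refine ⟨?_, by linarith, ?_⟩
  · nlinarith
  · nlinarith

theorem D2.s_bounds {G : Fin m → Clause n k} {D : Fin p → Op n Y}
    {h : Fin p → Fin m → Op n Y} {T : Fin q → Op n Y} {z : Cube n} {φ : Sp n Y}
    {o : Option (Fin q)} {a : Fin p → ℝ} {b e d : ℝ} {v : Sp n Y}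
    (hκ0 : 0 < κ) (hκ1 : κ ≤ 1) (hd : D2 α κ Λ δ G D h T z φ o a b e d v) :
    -1 ≤ 1 - b - e ∧ 1 - b - e ≤ 1 ∧ κ / 8 ≤ b * κ + (1 - b - e) := by
  have h1 := hd.e0
  have h2 := hd.low
  have h3 := hd.b0
  have h4 := hd.b1
  refine ⟨?_, by linarith, ?_⟩
  · nlinarith
  · rcases lt_or_ge b (1 / 5) with h5 | h5
    · have h6 := hd.low' h5
      nlinarith
    · nlinarith

/-- the first kind of bad assignments -/
theorem count1 (hC : Consts κ Λ ε δ ν ρ σ β r n k J) (hm : 0 < m) {G : Fin m → Clause n k}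
    (hG : Typ ε δ ν G) (D : Fin p → Op n Y) (h : Fin p → Fin m → Op n Y)
    (hD : ∀ i, Bdd (D i + ∑ j, h i j) 1) (hh : ∀ i j, Bdd (h i j) (Real.sqrt (2 ^ k) / m))
    (hr : (2 : ℝ) ^ (α * n) ≤ r ^ 2) (hN : Nets Λ ρ σ p Ic Ib Is cell nb ns) {η : ℝ}
    (hη : 0 < η) (S : Finset (Cube n))
    (hS : ∀ z ∈ S, ∃ a b f φ, D1 α κ Λ δ G D h z a b f φ ∧ η < ‖nearP (hball δ z) φ‖) :
    (S.card : ℝ) ≤ (Ic.card * (Ib.card * Is.card) : ℝ) *
      (4 * (β ^ 2 * (r * geo κ Λ ρ σ J + 1) ^ 2) / η ^ 2) := by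
  classical
  choose! a b f φ hD1 hnear using hS
  have hcard := fiber_count S (fun z => (cell (a z), nb (b z), ns (1 - b z - f z)))
    (Ic ×ˢ Ib ×ˢ Is) (fun z hz => by
      have h1 := hD1 z hz
      have h2 := h1.s_bounds hC.κ0 hC.κ1
      rw [mem_product, mem_product]
      exact ⟨hN.c1 _ h1.adm.coeff, hN.b1 _ (by linarith [h1.b5]) h1.b1, hN.s1 _ h2.1 h2.2.1⟩)
    (b := 4 * (β ^ 2 * (r * geo κ Λ ρ σ J + 1) ^ 2) / η ^ 2) (fun y _ => ?_)
  · rw [card_product, card_product] at hcard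
    push_cast at hcard
    exact hcard
  obtain ⟨F, hF⟩ : ∃ F, F = S.filter fun z => (cell (a z), nb (b z), ns (1 - b z - f z)) = y :=
    ⟨_, rfl⟩
  rw [← hF]
  have hFS : ∀ z ∈ F, z ∈ S ∧ (cell (a z), nb (b z), ns (1 - b z - f z)) = y := by
    intro z hz
    rw [hF, mem_filter] at hz
    exact hz
  rcases F.eq_empty_or_nonempty with hF0 | ⟨z0, hz0⟩
  · rw [hF0, card_empty, Nat.cast_zero]
    positivity
  have hkey : ∀ z : F, cell (a z) = cell (a z0) ∧ nb (b z) = nb (b z0) ∧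
      ns (1 - b z - f z) = ns (1 - b z0 - f z0) := by
    intro z
    have h1 := (hFS z z.2).2.trans (hFS z0 hz0).2.symm
    simpa [Prod.ext_iff] using h1
  have hgood := fam (α := α) (β := β) (r := r) (cu := 0) hC hm hG D h hD hh hr
    (Z := F) (fun z => (z : Cube n)) Subtype.val_injective (fun z => a z) (fun z => b z)
    (fun z => 1 - b z - f z) ⟨z0, hz0⟩ (fun z => (hD1 z (hFS z z.2).1).adm)
    (fun z => by linarith [(hD1 z (hFS z z.2).1).b5]) (fun z => (hD1 z (hFS z z.2).1).b1)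
    (fun z => hN.c2 _ _ (hkey z).1) (fun z => hN.b2 _ _ (hkey z).2.1)
    (fun z => hN.s2 _ _ (hkey z).2.2)
    (by
      have h1 := (hD1 z0 (hFS z0 hz0).1).s_bounds hC.κ0 hC.κ1
      exact h1.2.2)
    (fun z => φ z) (fun _ => 0) (fun z => (hD1 z (hFS z z.2).1).unit.le)
    (Good.zero hC.β0 le_rfl) (fun z => by
      have h1 := (hD1 z (hFS z z.2).1).eig
      rw [h1]
      have h2 : 1 - b z - (1 - b z - f z) = f z := by ring
      rw [h2, sub_self])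
  rw [mul_zero, add_zero] at hgood
  have h5 := markov hC.β0 (fun x => ?_) hgood hη.le
    (fun z => (hnear z (hFS z z.2).1).le)
  · rw [Fintype.card_coe] at h5
    rw [le_div_iff₀ (by positivity)]
    exact h5
  · refine le_trans ?_ (hC.ball x)
    have : (univ.filter fun z : F => x ∈ hball δ (z : Cube n)).card ≤
        (univ.filter fun z : Cube n => x ∈ hball δ z).card :=
      card_le_card_of_injOn (fun z : F => (z : Cube n)) (fun z hz => by simpa using hz)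
        (Subtype.val_injective.injOn)
    exact_mod_cast this

end Pool.Agent.H73.AD
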