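import Pool.Agent.H73.AD.BadB

/-! Counting assignments which are not good, second kind. -/

namespace Pool.Agent.H73.AD

open Finset Matrix Pool.Agent.H73.QA

variable {n k m p q : ℕ} {Y : Type} [Fintype Y] [DecidableEq Y]

theorem Uof_norm {T : Fin q → Op n Y} (hT : ∀ j, Bdd (T j) 1) (o : Option (Fin q)) (u : Sp n Y) :
    ‖Uof T o u‖ ≤ 1 * ‖u‖ := by
  cases o with
  | none => simp [Uof]
  | some j => exact norm_of_bdd zero_le_one (hT j) u

variable {α κ Λ ε δ ν ρ σ β r : ℝ} {J : ℕ} {Ic : Finset (Fin p → ℤ)} {Ib Is : Finset ℤ}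
  {cell : (Fin p → ℝ) → Fin p → ℤ} {nb ns : ℝ → ℤ}

/-- the second kind of bad assignments -/
theorem count2 (hC : Consts κ Λ ε δ ν ρ σ β r n k J) (hm : 0 < m) {G : Fin m → Clause n k}
    (hG : Typ ε δ ν G) (D : Fin p → Op n Y) (h : Fin p → Fin m → Op n Y)
    (hD : ∀ i, Bdd (D i + ∑ j, h i j) 1) (hh : ∀ i j, Bdd (h i j) (Real.sqrt (2 ^ k) / m))
    (T : Fin q → Op n Y) (hT : ∀ j, Bdd (T j) 1)
    (hr : (2 : ℝ) ^ (α * n) ≤ r ^ 2) (hN : Nets Λ ρ σ p Ic Ib Is cell nb ns) {η : ℝ}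
    (hη : 0 < η) (S : Finset (Cube n))
    (hS : ∀ z ∈ S, ∃ a b f φ o a' b' e d v, D1 α κ Λ δ G D h z a b f φ ∧
      D2 α κ Λ δ G D h T z φ o a' b' e d v ∧ η < ‖nearP (hball δ z) v‖) :
    (S.card : ℝ) ≤ ((Ic.card * (Ib.card * Is.card)) * ((q + 1) * (Ic.card * (Ib.card * Is.card))) : ℝ)
      * (4 * (β ^ 2 * ((r + (κ / 8)⁻¹ * (r * geo κ Λ ρ σ J + 1)) * geo κ Λ ρ σ J + 1) ^ 2) /
        η ^ 2) := by
  classical
  choose! a b f φ o a' b' e d v hD1 hD2 hnear using hS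
  obtain ⟨key, hkeydef⟩ : ∃ key : Cube n → ((Fin p → ℤ) × ℤ × ℤ) × Option (Fin q) ×
      (Fin p → ℤ) × ℤ × ℤ, ∀ z, key z = ((cell (a z), nb (b z), ns (1 - b z - f z)), o z,
        cell (a' z), nb (b' z), ns (1 - b' z - e z)) := ⟨_, fun _ => rfl⟩
  have hcard := fiber_count S key ((Ic ×ˢ Ib ×ˢ Is) ×ˢ univ ×ˢ Ic ×ˢ Ib ×ˢ Is) (fun z hz => by
      have h1 := hD1 z hz
      have h2 := h1.s_bounds hC.κ0 hC.κ1
      have h3 := hD2 z hz
      have h4 := h3.s_bounds hC.κ0 hC.κ1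
      rw [hkeydef]
      simp only [mem_product, mem_univ, true_and]
      exact ⟨⟨hN.c1 _ h1.adm.coeff, hN.b1 _ (by linarith [h1.b5]) h1.b1, hN.s1 _ h2.1 h2.2.1⟩,
        hN.c1 _ h3.adm.coeff, hN.b1 _ h3.b0 h3.b1, hN.s1 _ h4.1 h4.2.1⟩)
    (b := 4 * (β ^ 2 * ((r + (κ / 8)⁻¹ * (r * geo κ Λ ρ σ J + 1)) * geo κ Λ ρ σ J + 1) ^ 2) /
      η ^ 2) (fun y _ => ?_)
  · simp only [card_product, card_univ, Fintype.card_option, Fintype.card_fin] at hcard
    push_cast at hcard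
    exact hcard
  obtain ⟨F, hF⟩ : ∃ F, F = S.filter fun z => key z = y := ⟨_, rfl⟩
  rw [← hF]
  have hFS : ∀ z ∈ F, z ∈ S ∧ key z = y := by
    intro z hz
    rw [hF, mem_filter] at hz
    exact hz
  rcases F.eq_empty_or_nonempty with hF0 | ⟨z0, hz0⟩
  · rw [hF0, card_empty, Nat.cast_zero]
    positivity
  have hkey : ∀ z : F, (cell (a z) = cell (a z0) ∧ nb (b z) = nb (b z0) ∧
      ns (1 - b z - f z) = ns (1 - b z0 - f z0)) ∧ o z = o z0 ∧ cell (a' z) = cell (a' z0) ∧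
      nb (b' z) = nb (b' z0) ∧ ns (1 - b' z - e z) = ns (1 - b' z0 - e z0) := by
    intro z
    have h1 := (hFS z z.2).2.trans (hFS z0 hz0).2.symm
    rw [hkeydef, hkeydef] at h1
    simpa [Prod.ext_iff] using h1
  have hgood := fam (α := α) (β := β) (r := r) (cu := 0) hC hm hG D h hD hh hr
    (Z := F) (fun z => (z : Cube n)) Subtype.val_injective (fun z => a z) (fun z => b z)
    (fun z => 1 - b z - f z) ⟨z0, hz0⟩ (fun z => (hD1 z (hFS z z.2).1).adm)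
    (fun z => by linarith [(hD1 z (hFS z z.2).1).b5]) (fun z => (hD1 z (hFS z z.2).1).b1)
    (fun z => hN.c2 _ _ (hkey z).1.1) (fun z => hN.b2 _ _ (hkey z).1.2.1)
    (fun z => hN.s2 _ _ (hkey z).1.2.2)
    (by
      have h1 := (hD1 z0 (hFS z0 hz0).1).s_bounds hC.κ0 hC.κ1
      exact h1.2.2)
    (fun z => φ z) (fun _ => 0) (fun z => (hD1 z (hFS z z.2).1).unit.le)
    (Good.zero hC.β0 le_rfl) (fun z => by
      have h1 := (hD1 z (hFS z z.2).1).eig
      rw [h1]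
      have h2 : 1 - b z - (1 - b z - f z) = f z := by ring
      rw [h2, sub_self])
  rw [mul_zero, add_zero] at hgood
  -- the source of the second equation
  have hsrc : Good β (1 * (1 * (r * geo κ Λ ρ σ J + 1)))
      (fun z : F => ((d z : ℝ) : ℂ) • Uof T (o z0) (φ z)) := by
    have h1 := (goodOp_fixed (β := β) (Z := F) zero_le_one (Uof T (o z0))
      (Uof_norm hT (o z0))).2 _ _ hgood
    have h2 := (goodOp_scalar (β := β) (Z := F) (E := Sp n Y) zero_le_one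
      (fun z => ((d z : ℝ) : ℂ)) (fun z => by
        have h3 := hD2 z (hFS z z.2).1
        rw [Complex.norm_real, Real.norm_eq_abs, abs_of_pos h3.d0]
        exact h3.d1)).2 _ _ h1
    simpa using h2
  rw [one_mul, one_mul] at hsrc
  have hgood2 := fam (α := α) (β := β) (r := r) hC hm hG D h hD hh hr
    (Z := F) (fun z => (z : Cube n)) Subtype.val_injective (fun z => a' z) (fun z => b' z)
    (fun z => 1 - b' z - e z) ⟨z0, hz0⟩ (fun z => (hD2 z (hFS z z.2).1).adm)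
    (fun z => (hD2 z (hFS z z.2).1).b0) (fun z => (hD2 z (hFS z z.2).1).b1)
    (fun z => hN.c2 _ _ (hkey z).2.2.1) (fun z => hN.b2 _ _ (hkey z).2.2.2.1)
    (fun z => hN.s2 _ _ (hkey z).2.2.2.2)
    (by
      have h1 := (hD2 z0 (hFS z0 hz0).1).s_bounds hC.κ0 hC.κ1
      exact h1.2.2)
    (fun z => v z) _ (fun z => (hD2 z (hFS z z.2).1).unit) hsrc (fun z => by
      have h1 := (hD2 z (hFS z z.2).1).eq
      have h2 : 1 - b' z - (1 - b' z - e z) = e z := by ring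
      rw [h2, h1, (hkey z).2.1])
  have h5 := markov hC.β0 (fun x => ?_) hgood2 hη.le
    (fun z => (hnear z (hFS z z.2).1).le)
  · rw [Fintype.card_coe] at h5
    rw [le_div_iff₀ (by positivity)]
    exact h5
  · refine le_trans ?_ (hC.ball x)
    have : (univ.filter fun z : F => x ∈ hball δ (z : Cube n)).card ≤
        (univ.filter fun z : Cube n => x ∈ hball δ z).card :=
      card_le_card_of_injOn (fun z : F => (z : Cube n)) (fun z hz => by simpa using hz)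
        (Subtype.val_injective.injOn)
    exact_mod_cast this

/-- assignments which are not good -/
theorem count_bad (hC : Consts κ Λ ε δ ν ρ σ β r n k J) (hm : 0 < m) {G : Fin m → Clause n k}
    (hG : Typ ε δ ν G) (D : Fin p → Op n Y) (h : Fin p → Fin m → Op n Y)
    (hD : ∀ i, Bdd (D i + ∑ j, h i j) 1) (hh : ∀ i j, Bdd (h i j) (Real.sqrt (2 ^ k) / m))
    (T : Fin q → Op n Y) (hT : ∀ j, Bdd (T j) 1)
    (hr : (2 : ℝ) ^ (α * n) ≤ r ^ 2) (hN : Nets Λ ρ σ p Ic Ib Is cell nb ns) {η : ℝ}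
    (hη : 0 < η) (S : Finset (Cube n)) (hS : ∀ z ∈ S, ¬ GoodZ α κ Λ δ η G D h T z) :
    (S.card : ℝ) ≤ (Ic.card * (Ib.card * Is.card) : ℝ) *
      (4 * (β ^ 2 * (r * geo κ Λ ρ σ J + 1) ^ 2) / η ^ 2) +
    ((Ic.card * (Ib.card * Is.card)) * ((q + 1) * (Ic.card * (Ib.card * Is.card))) : ℝ)
      * (4 * (β ^ 2 * ((r + (κ / 8)⁻¹ * (r * geo κ Λ ρ σ J + 1)) * geo κ Λ ρ σ J + 1) ^ 2) /
        η ^ 2) := by
  classical
  obtain ⟨P1, hP1⟩ : ∃ P1 : Cube n → Prop, ∀ z, P1 z ↔ ∃ a b f φ, D1 α κ Λ δ G D h z a b f φ ∧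
    η < ‖nearP (hball δ z) φ‖ := ⟨_, fun _ => Iff.rfl⟩
  have h1 := count1 hC hm hG D h hD hh hr hN hη (S.filter P1) (fun z hz => by
    rw [mem_filter] at hz
    exact (hP1 z).1 hz.2)
  have h2 := count2 hC hm hG D h hD hh T hT hr hN hη (S.filter fun z => ¬ P1 z) (fun z hz => by
    rw [mem_filter] at hz
    by_contra hno
    refine hS z hz.1 ⟨fun a b f φ hadm hb5 hb1 hφ heig hf => ?_,
      fun a b f φ hadm hb5 hb1 hφ heig hf U hU a' b' e d v hadm' hb0' hb1' he0 he he' hd0 hd1 hv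
        heq => ?_⟩
    · by_contra hlt
      exact hz.2 ((hP1 z).2 ⟨a, b, f, φ, ⟨hadm, hb5, hb1, hφ, heig, hf⟩, not_le.1 hlt⟩)
    · by_contra hlt
      obtain ⟨o, ho⟩ : ∃ o, U = Uof T o := by
        rcases hU with h3 | ⟨j, h3⟩
        · exact ⟨none, h3⟩
        · exact ⟨some j, h3⟩
      exact hno ⟨a, b, f, φ, o, a', b', e, d, v, ⟨hadm, hb5, hb1, hφ, heig, hf⟩,
        ⟨hadm', hb0', hb1', he0, he, he', hd0, hd1, hv, by rw [← ho]; exact heq⟩,
        not_le.1 hlt⟩)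
  have h3 := card_filter_add_card_filter_not (s := S) P1
  have h4 : (S.card : ℝ) = ((S.filter P1).card : ℝ) + ((S.filter fun z => ¬ P1 z).card : ℝ) := by
    exact_mod_cast h3.symm
  rw [h4]
  exact add_le_add h1 h2

end Pool.Agent.H73.AD
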