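import Pool.Agent.H73.AD.Good

/-! Solutions of nearly fixed equations form good families. -/

namespace Pool.Agent.H73.AD

open Finset

section

variable {Z : Type} [Fintype Z] {E : Type} [NormedAddCommGroup E] [InnerProductSpace ℂ E]

theorem master {ι : Type} {κ₀ β σ K0 cu b0 s0 Λ' r : ℝ} (hβ : 0 ≤ β) (hκ₀ : 0 < κ₀) (hσ : 0 ≤ σ)
    (hΛ : 0 < Λ') (A0 R : E →ₗ[ℂ] E) (hR : ∀ u, ‖R u‖ ≤ κ₀⁻¹ * ‖u‖) (L : Finset ι) (e : ι → E)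
    (he : ∀ i, ‖e i‖ ≤ 1) (hbes : ∀ v : E, ‖v‖ ≤ 1 → ∑ i ∈ L, ‖inner ℂ (e i) v‖ ^ 2 ≤ 1)
    (hr : 0 ≤ r) (hL : (L.card : ℝ) ≤ r ^ 2)
    (hdec : ∀ v, v = (∑ i ∈ L, inner ℂ (e i) v • e i) + R ((b0 : ℂ) • A0 v + (s0 : ℂ) • v))
    (hA0 : ∀ u, ‖A0 u‖ ≤ Λ' * ‖u‖) (b s : Z → ℝ) (hb : ∀ z, |b z - b0| * Λ' ≤ σ)
    (hs : ∀ z, |s z - s0| ≤ σ) (X : Z → E →ₗ[ℂ] E) (hX : GoodOp β K0 X)
    (hXs : ∀ z u, ‖X z u‖ ≤ σ * ‖u‖) (v u : Z → E) (hv : ∀ z, ‖v z‖ ≤ 1) (hu : Good β cu u)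
    (heq : ∀ z, (b z : ℂ) • A0 (v z) + (s z : ℂ) • v z = u z + X z (v z)) (J : ℕ)
    (hJ : (κ₀⁻¹ * (3 * σ)) ^ J * Real.sqrt (Fintype.card Z) ≤ β) :
    Good β ((r + κ₀⁻¹ * cu) * (∑ j ∈ range J, (κ₀⁻¹ * (K0 + 2 * σ)) ^ j) + 1) v := by
  have hκi : 0 ≤ κ₀⁻¹ := (inv_pos.2 hκ₀).le
  -- the perturbation of the fixed operator
  obtain ⟨P, hP⟩ : ∃ P : Z → E →ₗ[ℂ] E, ∀ z, P z = X z + (((b0 - b z : ℝ) : ℂ) • A0 +
      ((s0 - s z : ℝ) : ℂ) • LinearMap.id) := ⟨_, fun _ => rfl⟩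
  have hb1 : ∀ z, ‖((b0 - b z : ℝ) : ℂ)‖ ≤ σ / Λ' := by
    intro z
    rw [Complex.norm_real, Real.norm_eq_abs, abs_sub_comm, le_div_iff₀ hΛ]
    exact hb z
  have hs1 : ∀ z, ‖((s0 - s z : ℝ) : ℂ)‖ ≤ σ := by
    intro z
    rw [Complex.norm_real, Real.norm_eq_abs, abs_sub_comm]
    exact hs z
  have hPg : GoodOp β (K0 + 2 * σ) P := by
    have h1 := (goodOp_fixed (β := β) (Z := Z) hΛ.le A0 hA0).smul
      (div_nonneg hσ hΛ.le) (fun z => ((b0 - b z : ℝ) : ℂ)) hb1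
    have h2 := goodOp_scalar (β := β) (E := E) hσ (fun z => ((s0 - s z : ℝ) : ℂ)) hs1
    have h3 := hX.add (h1.add h2)
    have h4 : K0 + (σ / Λ' * Λ' + σ) = K0 + 2 * σ := by
      rw [div_mul_cancel₀ _ hΛ.ne']; ring
    rw [h4] at h3
    have h5 : P = fun z => X z + (((b0 - b z : ℝ) : ℂ) • A0 +
      ((s0 - s z : ℝ) : ℂ) • LinearMap.id) := funext hP
    rw [h5]
    exact h3
  have hPs : ∀ z w, ‖P z w‖ ≤ 3 * σ * ‖w‖ := by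
    intro z w
    rw [hP]
    simp only [LinearMap.add_apply, LinearMap.smul_apply, LinearMap.id_apply]
    have h1 := norm_add_le (X z w) (((b0 - b z : ℝ) : ℂ) • A0 w + ((s0 - s z : ℝ) : ℂ) • w)
    have h2 := norm_add_le (((b0 - b z : ℝ) : ℂ) • A0 w) (((s0 - s z : ℝ) : ℂ) • w)
    have h3 : ‖((b0 - b z : ℝ) : ℂ) • A0 w‖ ≤ σ * ‖w‖ := by
      rw [norm_smul]
      calc ‖((b0 - b z : ℝ) : ℂ)‖ * ‖A0 w‖ ≤ σ / Λ' * (Λ' * ‖w‖) :=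
            mul_le_mul (hb1 z) (hA0 w) (norm_nonneg _) (div_nonneg hσ hΛ.le)
        _ = _ := by field_simp
    have h4 : ‖((s0 - s z : ℝ) : ℂ) • w‖ ≤ σ * ‖w‖ := by
      rw [norm_smul]
      exact mul_le_mul_of_nonneg_right (hs1 z) (norm_nonneg _)
    have h5 := hXs z w
    linarith
  -- the iteration
  obtain ⟨T, hT⟩ : ∃ T : Z → E →ₗ[ℂ] E, T = fun z => R ∘ₗ P z := ⟨_, rfl⟩
  have hTg : GoodOp β (κ₀⁻¹ * (K0 + 2 * σ)) T := by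
    rw [hT]
    exact hPg.comp (goodOp_fixed hκi R hR)
  have hTs : ∀ z w, ‖T z w‖ ≤ κ₀⁻¹ * (3 * σ) * ‖w‖ := by
    intro z w
    rw [hT]
    calc ‖R (P z w)‖ ≤ κ₀⁻¹ * ‖P z w‖ := hR _
      _ ≤ κ₀⁻¹ * (3 * σ * ‖w‖) := mul_le_mul_of_nonneg_left (hPs z w) hκi
      _ = _ := by ring
  have hp : Good β (r + κ₀⁻¹ * cu) (fun z => (∑ i ∈ L, inner ℂ (e i) (v z) • e i) + R (u z)) :=
    (good_of_rep hβ (rep_comb L e (fun z i => inner ℂ (e i) (v z)) hr hL he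
      fun z => hbes _ (hv z))).add ((goodOp_fixed hκi R hR).2 cu u hu)
  refine iterate hβ (by positivity) hTg hTs hp hv (fun z => ?_) J hJ
  have h1 : (b0 : ℂ) • A0 (v z) + (s0 : ℂ) • v z = u z + P z (v z) := by
    rw [hP]
    simp only [LinearMap.add_apply, LinearMap.smul_apply, LinearMap.id_apply]
    have h2 := heq z
    rw [← add_assoc, ← h2]
    push_cast
    module
  conv_lhs => rw [hdec (v z), h1, map_add]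
  rw [hT, LinearMap.comp_apply, add_assoc]

end

end Pool.Agent.H73.AD
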