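import Pool.Agent.H73.AD.Flat

/-! Differences of drivers in a cell. -/

namespace Pool.Agent.H73.AD

open Finset Matrix Pool.Agent.H73.QA

section qop

variable {n k m p : ℕ} {Y : Type} [Fintype Y] [DecidableEq Y]

theorem norm_of_bdd {A : Op n Y} {a : ℝ} (ha : 0 ≤ a) (hA : Bdd A a) (u : Sp n Y) :
    ‖toEuclideanLin A u‖ ≤ a * ‖u‖ := by
  have h := hA (WithLp.ofLp u)
  have h1 : ‖toEuclideanLin A u‖ ^ 2 ≤ (a * ‖u‖) ^ 2 := by
    rw [EuclideanSpace.norm_sq_eq, mul_pow, EuclideanSpace.norm_sq_eq]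
    exact h
  exact le_of_sq_le_sq h1 (by positivity)

/-- the part of the clauses violated by `z` -/
noncomputable def vterm (G : Fin m → Clause n k) (h : Fin p → Fin m → Op n Y) (z : Cube n)
    (i : Fin p) : Sp n Y →ₗ[ℂ] Sp n Y :=
  ∑ j, (if Violates z (G j) then (1 : ℂ) else 0) • toEuclideanLin (h i j)

theorem driver_eq (G : Fin m → Clause n k) (D : Fin p → Op n Y) (h : Fin p → Fin m → Op n Y)
    (z : Cube n) (a : Fin p → ℝ) :
    toEuclideanLin (driver G D h z a) =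
      ∑ i, (a i : ℂ) • (toEuclideanLin (D i + ∑ j, h i j) - vterm G h z i) := by
  unfold driver vterm
  rw [map_sum]
  refine sum_congr rfl fun i _ => ?_
  rw [map_smul]
  congr 1
  rw [map_add, map_add, map_sum, map_sum, add_sub_assoc]
  congr 1
  rw [eq_sub_iff_add_eq, sum_filter, ← sum_add_distrib]
  refine sum_congr rfl fun j _ => ?_
  by_cases hj : Violates z (G j)
  · simp [hj]
  · simp [hj]

theorem norm_vterm (hm : 0 < m) (G : Fin m → Clause n k) (h : Fin p → Fin m → Op n Y)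
    (hh : ∀ i j, Bdd (h i j) (Real.sqrt (2 ^ k) / m))
    (hV : ∀ x, (viol G x : ℝ) ≤ 2 * (m / 2 ^ k)) (z : Cube n) (i : Fin p) (u : Sp n Y) :
    ‖vterm G h z i u‖ ≤ 2 / Real.sqrt (2 ^ k) * ‖u‖ := by
  have hm' : (0 : ℝ) < m := by exact_mod_cast hm
  have h2 : (0 : ℝ) < 2 ^ k := by positivity
  have hs : (0 : ℝ) < Real.sqrt (2 ^ k) := Real.sqrt_pos.2 h2
  have h1 : ‖vterm G h z i u‖ ≤ ∑ j, (if Violates z (G j) then (1 : ℝ) else 0) *
      (Real.sqrt (2 ^ k) / m * ‖u‖) := by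
    unfold vterm
    rw [LinearMap.sum_apply]
    refine (norm_sum_le _ _).trans (sum_le_sum fun j _ => ?_)
    rw [LinearMap.smul_apply, norm_smul]
    by_cases hj : Violates z (G j)
    · simp only [hj, if_true, norm_one]
      exact mul_le_mul_of_nonneg_left (norm_of_bdd (by positivity) (hh i j) u) zero_le_one
    · simp only [hj, if_false, norm_zero, zero_mul]
      exact le_refl _
  have h3 : ∑ j, (if Violates z (G j) then (1 : ℝ) else 0) = viol G z := by
    unfold viol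
    simp
  rw [← sum_mul, h3] at h1
  refine h1.trans ?_
  have h4 : (2 * (m / 2 ^ k) : ℝ) * (Real.sqrt (2 ^ k) / m) = 2 / Real.sqrt (2 ^ k) := by
    have h5 : Real.sqrt (2 ^ k) * Real.sqrt (2 ^ k) = 2 ^ k := Real.mul_self_sqrt h2.le
    rw [eq_div_iff hs.ne']
    calc (2 * (m / 2 ^ k) : ℝ) * (Real.sqrt (2 ^ k) / m) * Real.sqrt (2 ^ k)
        = 2 * (m / m) * (Real.sqrt (2 ^ k) * Real.sqrt (2 ^ k) / 2 ^ k) := by ring
      _ = 2 := by rw [h5, div_self hm'.ne', div_self h2.ne']; ring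
  calc (viol G z : ℝ) * (Real.sqrt (2 ^ k) / m * ‖u‖)
      ≤ 2 * (m / 2 ^ k) * (Real.sqrt (2 ^ k) / m * ‖u‖) :=
        mul_le_mul_of_nonneg_right (hV z) (by positivity)
    _ = 2 * (m / 2 ^ k) * (Real.sqrt (2 ^ k) / m) * ‖u‖ := by ring
    _ = _ := by rw [h4]

theorem goodOp_vterm {β : ℝ} (hm : 0 < m) (G : Fin m → Clause n k)
    (h : Fin p → Fin m → Op n Y) (hh : ∀ i j, Bdd (h i j) (Real.sqrt (2 ^ k) / m))
    (hV : ∀ x, (viol G x : ℝ) ≤ 2 * (m / 2 ^ k)) {Z : Type} [Fintype Z] (ζ : Z → Cube n)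
    (i : Fin p) : GoodOp β (Real.sqrt 2) (fun z => vterm G h (ζ z) i) := by
  have hm' : (0 : ℝ) < m := by exact_mod_cast hm
  have h2 : (0 : ℝ) < 2 ^ k := by positivity
  have h3 := goodOp_ops (β := β) (J := Fin m) (Φ := Real.sqrt (2 * (m / 2 ^ k)))
    (Θ := Real.sqrt (2 ^ k / m)) (Real.sqrt_nonneg _) (Real.sqrt_nonneg _)
    (fun (z : Z) j => if Violates (ζ z) (G j) then (1 : ℂ) else 0)
    (fun j => toEuclideanLin (h i j)) (fun z => by
      rw [Real.sq_sqrt (by positivity)]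
      refine le_trans (le_of_eq ?_) (hV (ζ z))
      unfold viol
      simp only [apply_ite, norm_one, norm_zero]
      simp) (fun u => by
      rw [Real.sq_sqrt (by positivity)]
      calc ∑ j, ‖toEuclideanLin (h i j) u‖ ^ 2 ≤ ∑ _j : Fin m, 2 ^ k / (m : ℝ) ^ 2 * ‖u‖ ^ 2 := by
            refine sum_le_sum fun j _ => ?_
            have h5 := norm_of_bdd (by positivity) (hh i j) u
            have h6 := pow_le_pow_left₀ (norm_nonneg _) h5 2
            rwa [mul_pow, div_pow, Real.sq_sqrt h2.le] at h6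
        _ = (m : ℝ) * (2 ^ k / (m : ℝ) ^ 2 * ‖u‖ ^ 2) := by
            rw [sum_const, nsmul_eq_mul, card_univ, Fintype.card_fin]
        _ = 2 ^ k / m * ‖u‖ ^ 2 := by field_simp)
  have h4 : Real.sqrt (2 * (m / 2 ^ k)) * Real.sqrt (2 ^ k / m) = Real.sqrt 2 := by
    rw [← Real.sqrt_mul (by positivity)]
    congr 1
    field_simp
  rw [h4] at h3
  exact h3

/-- the difference of two drivers of a cell -/
theorem diff_eq (G : Fin m → Clause n k) (D : Fin p → Op n Y) (h : Fin p → Fin m → Op n Y)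
    (z0 z : Cube n) (a0 a : Fin p → ℝ) :
    toEuclideanLin (driver G D h z0 a0) - toEuclideanLin (driver G D h z a) =
      (∑ i, ((a0 i - a i : ℝ) : ℂ) • toEuclideanLin (D i + ∑ j, h i j) -
        ∑ i, (a0 i : ℂ) • vterm G h z0 i) + ∑ i, (a i : ℂ) • vterm G h z i := by
  rw [driver_eq, driver_eq, ← sum_sub_distrib, ← sum_sub_distrib, ← sum_add_distrib]
  refine sum_congr rfl fun i _ => ?_
  rw [Complex.ofReal_sub, smul_sub, smul_sub, sub_smul]
  abel

theorem qop {Z : Type} [Fintype Z] {β Λ ρ : ℝ} (hβ : 0 ≤ β) (hm : 0 < m)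
    (G : Fin m → Clause n k) (D : Fin p → Op n Y) (h : Fin p → Fin m → Op n Y)
    (ζ : Z → Cube n) (z0 : Cube n) (a0 : Fin p → ℝ) (a : Z → Fin p → ℝ)
    (hD : ∀ i, Bdd (D i + ∑ j, h i j) 1) (hh : ∀ i j, Bdd (h i j) (Real.sqrt (2 ^ k) / m))
    (hV : ∀ x, (viol G x : ℝ) ≤ 2 * (m / 2 ^ k)) (hρ : 0 ≤ ρ) (ha0 : ∑ i, |a0 i| ≤ Λ)
    (ha : ∀ z, ∑ i, |a z i| ≤ Λ) (hc : ∀ z i, |a z i - a0 i| ≤ 2 * ρ / p) :
    GoodOp β (5 * ρ + 4 * Λ) (fun z => toEuclideanLin (driver G D h z0 a0) -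
      toEuclideanLin (driver G D h (ζ z) (a z))) ∧
    ∀ z u, ‖(toEuclideanLin (driver G D h z0 a0) - toEuclideanLin (driver G D h (ζ z) (a z))) u‖ ≤
      (2 * ρ + 4 * Λ / Real.sqrt (2 ^ k)) * ‖u‖ := by
  have h2 : (0 : ℝ) < 2 ^ k := by positivity
  have hs : (0 : ℝ) < Real.sqrt (2 ^ k) := Real.sqrt_pos.2 h2
  have hs1 : (1 : ℝ) ≤ Real.sqrt (2 ^ k) := by
    rw [← Real.sqrt_one]
    exact Real.sqrt_le_sqrt (one_le_pow₀ (by norm_num))
  have hΛ : 0 ≤ Λ := (sum_nonneg fun i _ => abs_nonneg (a0 i)).trans ha0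
  have hsq2 : Real.sqrt 2 ≤ 17 / 12 := by
    rw [Real.sqrt_le_left (by norm_num)]
    norm_num
  have hp : ∑ _i : Fin p, 2 * ρ / (p : ℝ) ≤ 2 * ρ := by
    rw [sum_const, card_univ, Fintype.card_fin, nsmul_eq_mul]
    rcases Nat.eq_zero_or_pos p with h0 | h0
    · subst h0
      simp only [Nat.cast_zero, zero_mul]
      positivity
    · have : (0 : ℝ) < p := by exact_mod_cast h0
      exact le_of_eq (by field_simp)
  have hN1 : ∀ i u, ‖toEuclideanLin (D i + ∑ j, h i j) u‖ ≤ 1 * ‖u‖ := fun i u =>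
    norm_of_bdd zero_le_one (hD i) u
  have hN2 := norm_vterm hm G h hh hV
  constructor
  · -- the cost
    have g1 : GoodOp β (∑ _i : Fin p, 2 * ρ / (p : ℝ) * 1) (fun z => ∑ i,
        ((a0 i - a z i : ℝ) : ℂ) • toEuclideanLin (D i + ∑ j, h i j)) :=
      GoodOp.sum hβ univ fun i _ => by
        refine (goodOp_fixed (β := β) zero_le_one (toEuclideanLin (D i + ∑ j, h i j))
          (hN1 i)).smul (by positivity) (fun z : Z => ((a0 i - a z i : ℝ) : ℂ)) fun z => ?_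
        rw [Complex.norm_real, Real.norm_eq_abs, abs_sub_comm]
        exact hc z i
    have g2 : GoodOp β (∑ i, |a0 i| * (2 / Real.sqrt (2 ^ k))) (fun _ : Z => ∑ i,
        (-(a0 i : ℂ)) • vterm G h z0 i) :=
      GoodOp.sum hβ univ fun i _ => by
        refine (goodOp_fixed (β := β) (by positivity) (vterm G h z0 i)
          (hN2 z0 i)).smul (abs_nonneg _) (fun _ : Z => (-(a0 i : ℂ))) fun z => ?_
        rw [norm_neg, Complex.norm_real, Real.norm_eq_abs]
    have g3 : GoodOp β (∑ i, (|a0 i| + 2 * ρ / p) * Real.sqrt 2) (fun z => ∑ i,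
        (a z i : ℂ) • vterm G h (ζ z) i) :=
      GoodOp.sum hβ univ fun i _ => by
        refine (goodOp_vterm (β := β) hm G h hh hV ζ i).smul (by positivity)
          (fun z : Z => (a z i : ℂ)) fun z => ?_
        rw [Complex.norm_real, Real.norm_eq_abs]
        have := abs_add_le (a0 i) (a z i - a0 i)
        have h5 : a0 i + (a z i - a0 i) = a z i := by ring
        rw [h5] at this
        linarith [hc z i]
    have g4 := (g1.add g2).add g3
    have h6 : (fun z => ((∑ i, ((a0 i - a z i : ℝ) : ℂ) • toEuclideanLin (D i + ∑ j, h i j)) +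
        ∑ i, (-(a0 i : ℂ)) • vterm G h z0 i) + ∑ i, (a z i : ℂ) • vterm G h (ζ z) i) =
        fun z => toEuclideanLin (driver G D h z0 a0) -
          toEuclideanLin (driver G D h (ζ z) (a z)) := by
      funext z
      rw [diff_eq]
      congr 1
      rw [sub_eq_add_neg, ← sum_neg_distrib]
      congr 1
      exact sum_congr rfl fun i _ => by rw [neg_smul]
    rw [h6] at g4
    refine g4.mono hβ ?_
    rw [← sum_mul, ← sum_mul, ← sum_mul, sum_add_distrib, mul_one]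
    have e1 : (∑ i, |a0 i|) * (2 / Real.sqrt (2 ^ k)) ≤ Λ * 2 := by
      refine mul_le_mul ha0 ?_ (by positivity) hΛ
      rw [div_le_iff₀ hs]
      linarith
    have e2 : (∑ i, |a0 i| + ∑ _i : Fin p, 2 * ρ / (p : ℝ)) * Real.sqrt 2 ≤
        (Λ + 2 * ρ) * (17 / 12) :=
      mul_le_mul (add_le_add ha0 hp) hsq2 (Real.sqrt_nonneg _) (by positivity)
    linarith
  · intro z u
    rw [diff_eq, LinearMap.add_apply, LinearMap.sub_apply, LinearMap.sum_apply,
      LinearMap.sum_apply, LinearMap.sum_apply]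
    have e1 : ‖∑ i, (((a0 i - a z i : ℝ) : ℂ) • toEuclideanLin (D i + ∑ j, h i j)) u‖ ≤
        2 * ρ * ‖u‖ := by
      refine (norm_sum_le _ _).trans ?_
      calc ∑ i, ‖(((a0 i - a z i : ℝ) : ℂ) • toEuclideanLin (D i + ∑ j, h i j)) u‖
          ≤ ∑ _i : Fin p, 2 * ρ / (p : ℝ) * ‖u‖ := by
            refine sum_le_sum fun i _ => ?_
            rw [LinearMap.smul_apply, norm_smul, Complex.norm_real, Real.norm_eq_abs,
              abs_sub_comm]
            refine mul_le_mul (hc z i) ?_ (norm_nonneg _) (by positivity)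
            have := hN1 i u
            rwa [one_mul] at this
        _ ≤ _ := by
            rw [← sum_mul]
            exact mul_le_mul_of_nonneg_right hp (norm_nonneg _)
    have e2 : ∀ (c : Fin p → ℝ) (y : Cube n), ∑ i, |c i| ≤ Λ →
        ‖∑ i, ((c i : ℂ) • vterm G h y i) u‖ ≤ Λ * (2 / Real.sqrt (2 ^ k)) * ‖u‖ := by
      intro c y hcs
      refine (norm_sum_le _ _).trans ?_
      calc ∑ i, ‖((c i : ℂ) • vterm G h y i) u‖
          ≤ ∑ i, |c i| * (2 / Real.sqrt (2 ^ k) * ‖u‖) := by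
            refine sum_le_sum fun i _ => ?_
            rw [LinearMap.smul_apply, norm_smul, Complex.norm_real, Real.norm_eq_abs]
            exact mul_le_mul_of_nonneg_left (hN2 y i u) (abs_nonneg _)
        _ = (∑ i, |c i|) * (2 / Real.sqrt (2 ^ k) * ‖u‖) := by rw [sum_mul]
        _ ≤ Λ * (2 / Real.sqrt (2 ^ k) * ‖u‖) :=
            mul_le_mul_of_nonneg_right hcs (by positivity)
        _ = _ := by ring
    have e3 := e2 a0 z0 ha0
    have e4 := e2 (a z) (ζ z) (ha z)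
    refine (norm_add_le _ _).trans ?_
    have e5 := norm_sub_le
      (∑ i, (((a0 i - a z i : ℝ) : ℂ) • toEuclideanLin (D i + ∑ j, h i j)) u)
      (∑ i, ((a0 i : ℂ) • vterm G h z0 i) u)
    calc _ ≤ (2 * ρ * ‖u‖ + Λ * (2 / Real.sqrt (2 ^ k)) * ‖u‖) +
          Λ * (2 / Real.sqrt (2 ^ k)) * ‖u‖ := by linarith
      _ = _ := by ring

theorem driver_bdd {Λ : ℝ} (hm : 0 < m) (G : Fin m → Clause n k) (D : Fin p → Op n Y)
    (h : Fin p → Fin m → Op n Y) (z : Cube n) (a : Fin p → ℝ)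
    (hD : ∀ i, Bdd (D i + ∑ j, h i j) 1) (hh : ∀ i j, Bdd (h i j) (Real.sqrt (2 ^ k) / m))
    (hV : ∀ x, (viol G x : ℝ) ≤ 2 * (m / 2 ^ k)) (ha : ∑ i, |a i| ≤ Λ) (u : Sp n Y) :
    ‖toEuclideanLin (driver G D h z a) u‖ ≤ 3 * Λ * ‖u‖ := by
  have h2 : (0 : ℝ) < 2 ^ k := by positivity
  have hs : (0 : ℝ) < Real.sqrt (2 ^ k) := Real.sqrt_pos.2 h2
  have hs1 : (1 : ℝ) ≤ Real.sqrt (2 ^ k) := by
    rw [← Real.sqrt_one]
    exact Real.sqrt_le_sqrt (one_le_pow₀ (by norm_num))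
  have h3 : 2 / Real.sqrt (2 ^ k) ≤ 2 := by
    rw [div_le_iff₀ hs]
    linarith
  rw [driver_eq, LinearMap.sum_apply]
  refine (norm_sum_le _ _).trans ?_
  calc ∑ i, ‖((a i : ℂ) • (toEuclideanLin (D i + ∑ j, h i j) - vterm G h z i)) u‖
      ≤ ∑ i, |a i| * (3 * ‖u‖) := by
        refine sum_le_sum fun i _ => ?_
        rw [LinearMap.smul_apply, norm_smul, Complex.norm_real, Real.norm_eq_abs,
          LinearMap.sub_apply]
        refine mul_le_mul_of_nonneg_left ?_ (abs_nonneg _)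
        have e1 := norm_of_bdd zero_le_one (hD i) u
        have e2 := norm_vterm hm G h hh hV z i u
        have e3 := norm_sub_le (toEuclideanLin (D i + ∑ j, h i j) u) (vterm G h z i u)
        have e4 : 2 / Real.sqrt (2 ^ k) * ‖u‖ ≤ 2 * ‖u‖ :=
          mul_le_mul_of_nonneg_right h3 (norm_nonneg _)
        linarith
    _ = (∑ i, |a i|) * (3 * ‖u‖) := by rw [sum_mul]
    _ ≤ Λ * (3 * ‖u‖) := mul_le_mul_of_nonneg_right ha (by positivity)
    _ = _ := by ring

end qop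

end Pool.Agent.H73.AD
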