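import Pool.Agent.H73.AD.Good

/-! Spectral decomposition of the driver (module S of the annealing board). -/

namespace Pool.Agent.H73.AD

open Finset Matrix Pool.Agent.H73.QA

section spec
variable {X : Type} [Fintype X] [DecidableEq X]

theorem spec_eig {A : Matrix X X ℂ} (hA : A.IsHermitian) (i : X) :
    toEuclideanLin A (hA.eigenvectorBasis i) = (hA.eigenvalues i : ℂ) • hA.eigenvectorBasis i := by
  have h := hA.mulVec_eigenvectorBasis i
  rw [toEuclideanLin_apply]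
  apply (WithLp.linearEquiv 2 ℂ (X → ℂ)).injective
  exact h

/-- spectral multipliers -/
noncomputable def mult {A : Matrix X X ℂ} (hA : A.IsHermitian) (c : X → ℂ) :
    EuclideanSpace ℂ X →ₗ[ℂ] EuclideanSpace ℂ X where
  toFun u := ∑ i, (c i * inner ℂ (hA.eigenvectorBasis i) u) • hA.eigenvectorBasis i
  map_add' u v := by
    rw [← sum_add_distrib]
    refine sum_congr rfl fun i _ => ?_
    rw [inner_add_right, mul_add, add_smul]
  map_smul' a u := by
    rw [RingHom.id_apply, smul_sum]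
    refine sum_congr rfl fun i _ => ?_
    rw [inner_smul_right, smul_smul]
    congr 1
    ring

theorem mult_apply {A : Matrix X X ℂ} (hA : A.IsHermitian) (c : X → ℂ) (u : EuclideanSpace ℂ X) :
    mult hA c u = ∑ i, (c i * inner ℂ (hA.eigenvectorBasis i) u) • hA.eigenvectorBasis i := rfl

theorem mult_norm {A : Matrix X X ℂ} (hA : A.IsHermitian) (c : X → ℂ) {a : ℝ} (ha : 0 ≤ a)
    (hc : ∀ i, ‖c i‖ ≤ a) (u : EuclideanSpace ℂ X) : ‖mult hA c u‖ ≤ a * ‖u‖ := by
  refine le_of_sq_le_sq ?_ (mul_nonneg ha (norm_nonneg _))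
  rw [mul_pow, ← hA.eigenvectorBasis.sum_sq_norm_inner_right u,
    ← hA.eigenvectorBasis.sum_sq_norm_inner_right, mul_sum]
  refine sum_le_sum fun j _ => ?_
  have h2 : inner ℂ (hA.eigenvectorBasis j) (mult hA c u) =
      c j * inner ℂ (hA.eigenvectorBasis j) u := by
    rw [mult_apply, hA.eigenvectorBasis.orthonormal.inner_right_fintype]
  rw [h2, norm_mul, mul_pow]
  exact mul_le_mul_of_nonneg_right (pow_le_pow_left₀ (norm_nonneg _) (hc j) 2) (sq_nonneg _)

theorem mult_inner {A : Matrix X X ℂ} (hA : A.IsHermitian) (v : EuclideanSpace ℂ X) (i : X) :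
    inner ℂ (hA.eigenvectorBasis i) (toEuclideanLin A v) =
      (hA.eigenvalues i : ℂ) * inner ℂ (hA.eigenvectorBasis i) v := by
  have hs : (toEuclideanLin A).IsSymmetric := isHermitian_iff_isSymmetric.1 hA
  rw [← hs, spec_eig hA i, inner_smul_left, Complex.conj_ofReal]

theorem spec {A : Matrix X X ℂ} (hA : A.IsHermitian)
    {κ b s κ₀ : ℝ} (hκ₀ : 0 < κ₀)
    (hlow : ∀ i, κ ≤ hA.eigenvalues i → κ₀ ≤ b * hA.eigenvalues i + s) :
    ∃ R : EuclideanSpace ℂ X →ₗ[ℂ] EuclideanSpace ℂ X, (∀ u, ‖R u‖ ≤ κ₀⁻¹ * ‖u‖) ∧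
      ∀ v, v = (∑ i ∈ univ.filter (fun i => hA.eigenvalues i < κ),
          inner ℂ (hA.eigenvectorBasis i) v • hA.eigenvectorBasis i) +
        R ((b : ℂ) • toEuclideanLin A v + (s : ℂ) • v) := by
  classical
  refine ⟨mult hA fun i => if hA.eigenvalues i < κ then 0 else
    (((b * hA.eigenvalues i + s)⁻¹ : ℝ) : ℂ), ?_, ?_⟩
  · refine mult_norm hA _ (inv_pos.2 hκ₀).le fun i => ?_
    beta_reduce
    split_ifs with h
    · rw [norm_zero]
      exact (inv_pos.2 hκ₀).le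
    · have h1 := hlow i (not_lt.1 h)
      rw [Complex.norm_real, Real.norm_of_nonneg (inv_nonneg.2 (hκ₀.le.trans h1))]
      exact inv_anti₀ hκ₀ h1
  · intro v
    rw [mult_apply]
    conv_lhs => rw [← hA.eigenvectorBasis.sum_repr' v]
    rw [← sum_filter_add_sum_filter_not univ (fun i => hA.eigenvalues i < κ)]
    congr 1
    rw [sum_filter]
    refine sum_congr rfl fun i _ => ?_
    by_cases h : hA.eigenvalues i < κ
    · rw [if_neg (not_not.2 h), if_pos h, zero_mul, zero_smul]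
    · rw [if_pos h, if_neg h, inner_add_right, inner_smul_right, inner_smul_right, mult_inner]
      congr 1
      have h1 := hlow i (not_lt.1 h)
      have h2 : ((b : ℂ) * (hA.eigenvalues i : ℂ) + (s : ℂ)) ≠ 0 := by
        have : b * hA.eigenvalues i + s ≠ 0 := (lt_of_lt_of_le hκ₀ h1).ne'
        exact_mod_cast this
      push_cast
      field_simp

theorem eigenvalue_bounds {A : Matrix X X ℂ}
    (hA : A.IsHermitian) (hpsd : ∀ v : X → ℂ, 0 ≤ (star v ⬝ᵥ A *ᵥ v).re) {Λ' : ℝ}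
    (hb : ∀ u, ‖toEuclideanLin A u‖ ≤ Λ' * ‖u‖) (i : X) :
    0 ≤ hA.eigenvalues i ∧ hA.eigenvalues i ≤ Λ' := by
  have h0 : 0 ≤ hA.eigenvalues i := by
    rw [hA.eigenvalues_eq i]
    exact hpsd _
  refine ⟨h0, ?_⟩
  have h1 := hb (hA.eigenvectorBasis i)
  rw [spec_eig, norm_smul, hA.eigenvectorBasis.orthonormal.1 i, mul_one, mul_one,
    Complex.norm_real, Real.norm_of_nonneg h0] at h1
  exact h1

/-- projections on few eigenvectors are represented -/
theorem bessel {A : Matrix X X ℂ} (hA : A.IsHermitian)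
    (L : Finset X) (v : EuclideanSpace ℂ X) (hv : ‖v‖ ≤ 1) :
    ∑ i ∈ L, ‖inner ℂ (hA.eigenvectorBasis i) v‖ ^ 2 ≤ 1 := by
  calc ∑ i ∈ L, ‖inner ℂ (hA.eigenvectorBasis i) v‖ ^ 2 ≤
      ∑ i, ‖inner ℂ (hA.eigenvectorBasis i) v‖ ^ 2 :=
        sum_le_sum_of_subset_of_nonneg (subset_univ L) fun _ _ _ => sq_nonneg _
    _ = ‖v‖ ^ 2 := hA.eigenvectorBasis.sum_sq_norm_inner_right v
    _ ≤ 1 := pow_le_one₀ (norm_nonneg _) hv

end spec

end Pool.Agent.H73.AD
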