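import Pool.Agent.H73.AD.XOp
import Pool.Agent.H73.AD.Master
import Pool.Agent.H73.AD.Spec
import Pool.Agent.H73.AD.QOp

/-! Solutions of flattened equations with nearby parameters form good families. -/

namespace Pool.Agent.H73.AD

open Finset Matrix Pool.Agent.H73.QA

/-- constants of the argument -/
structure Consts (κ Λ ε δ ν ρ σ β r : ℝ) (n k J : ℕ) : Prop where
  κ0 : 0 < κ
  κ1 : κ ≤ 1
  Λ0 : 0 ≤ Λ
  ε0 : 0 ≤ ε
  ε1 : ε ≤ 1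
  ν0 : 0 ≤ ν
  ρ0 : 0 ≤ ρ
  σ0 : 0 ≤ σ
  β0 : 0 ≤ β
  r0 : 0 ≤ r
  tot : 2 * ρ + 4 * Λ / Real.sqrt (2 ^ k) + ν + ε ≤ σ
  iter : ((κ / 8)⁻¹ * (3 * σ)) ^ J * Real.sqrt (2 ^ n) ≤ β
  ball : ∀ x : Cube n, ((univ.filter fun z => x ∈ hball δ z).card : ℝ) ≤ β ^ 2

/-- growth factor -/
noncomputable def geo (κ Λ ρ σ : ℝ) (J : ℕ) : ℝ :=
  ∑ j ∈ range J, ((κ / 8)⁻¹ * (5 * ρ + 4 * Λ + 7 + 2 * σ)) ^ j

variable {n k m p : ℕ} {Y : Type} [Fintype Y] [DecidableEq Y]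

theorem fam {α κ Λ ε δ ν ρ σ β r cu : ℝ} {J : ℕ} (hC : Consts κ Λ ε δ ν ρ σ β r n k J)
    (hm : 0 < m) {G : Fin m → Clause n k} (hG : Typ ε δ ν G)
    (D : Fin p → Op n Y) (h : Fin p → Fin m → Op n Y)
    (hD : ∀ i, Bdd (D i + ∑ j, h i j) 1) (hh : ∀ i j, Bdd (h i j) (Real.sqrt (2 ^ k) / m))
    (hr : (2 : ℝ) ^ (α * n) ≤ r ^ 2)
    {Z : Type} [Fintype Z] (ζ : Z → Cube n) (hζ : Function.Injective ζ) (a : Z → Fin p → ℝ)
    (b s : Z → ℝ) (z0 : Z) (hadm : ∀ z, Adm α κ Λ (a z) (driver G D h (ζ z) (a z)) (ζ z))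
    (hb0 : ∀ z, 0 ≤ b z) (hb1 : ∀ z, b z ≤ 1) (hcell : ∀ z i, |a z i - a z0 i| ≤ 2 * ρ / p)
    (hbn : ∀ z, |b z - b z0| * (3 * Λ + 1) ≤ σ) (hsn : ∀ z, |s z - s z0| ≤ σ)
    (hlow : κ / 8 ≤ b z0 * κ + s z0) (v u : Z → Sp n Y) (hv : ∀ z, ‖v z‖ ≤ 1)
    (hu : Good β cu u)
    (heq : ∀ z, flatH G δ (ζ z) (driver G D h (ζ z) (a z)) (b z) (v z) -
      ((1 - b z - s z : ℝ) : ℂ) • v z = u z) :
    Good β ((r + (κ / 8)⁻¹ * cu) * geo κ Λ ρ σ J + 1) v := by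
  have hκ8 : 0 < κ / 8 := by linarith [hC.κ0]
  obtain ⟨A0, hA0⟩ : ∃ A0, A0 = driver G D h (ζ z0) (a z0) := ⟨_, rfl⟩
  have hAdm := hadm z0
  rw [← hA0] at hAdm
  have hV : ∀ x, (viol G x : ℝ) ≤ 2 * (m / 2 ^ k) := by
    intro x
    have h1 := (abs_le.1 (hG.t1 x)).2
    have h2 : ε * ((m : ℝ) / 2 ^ k) ≤ 1 * (m / 2 ^ k) :=
      mul_le_mul_of_nonneg_right hC.ε1 (by positivity)
    linarith
  have hbd : ∀ w, ‖toEuclideanLin A0 w‖ ≤ (3 * Λ + 1) * ‖w‖ := by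
    intro w
    rw [hA0]
    refine (driver_bdd hm G D h (ζ z0) (a z0) hD hh hV (hadm z0).coeff w).trans ?_
    exact mul_le_mul_of_nonneg_right (by linarith) (norm_nonneg _)
  have hpsd := hAdm.psd
  obtain ⟨R, hR, hdec⟩ := spec (κ := κ) (b := b z0) (s := s z0) hAdm.herm hκ8 (fun i hi => by
    have h1 := mul_le_mul_of_nonneg_left hi (hb0 z0)
    linarith)
  obtain ⟨hQ, hQs⟩ := qop (β := β) (ρ := ρ) hC.β0 hm G D h ζ (ζ z0) (a z0) a hD hh hV hC.ρ0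
    (hadm z0).coeff (fun z => (hadm z).coeff) hcell
  rw [← hA0] at hQ hQs
  have hball : ∀ x, ((univ.filter fun z : Z => x ∈ hball δ (ζ z)).card : ℝ) ≤ β ^ 2 := by
    intro x
    refine le_trans ?_ (hC.ball x)
    have : (univ.filter fun z : Z => x ∈ hball δ (ζ z)).card ≤
        (univ.filter fun z : Cube n => x ∈ hball δ z).card :=
      card_le_card_of_injOn ζ (fun z hz => by simpa using hz) (hζ.injOn)
    exact_mod_cast this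
  have hX := goodOp_Xop hm hC.ε1 hG hC.β0 ζ hball A0 (fun z => driver G D h (ζ z) (a z)) b
    hb0 hb1 hQ
  have hXs : ∀ z w, ‖Xop G δ (ζ z) A0 (driver G D h (ζ z) (a z)) (b z) w‖ ≤ σ * ‖w‖ := by
    intro z w
    refine (norm_Xop_le hm hC.ε0 hC.ν0 hG (ζ z) A0 _ (hb0 z) (hb1 z) (hQs z) w).trans ?_
    exact mul_le_mul_of_nonneg_right hC.tot (norm_nonneg _)
  have hcard : Real.sqrt (Fintype.card Z) ≤ Real.sqrt (2 ^ n) := by
    refine Real.sqrt_le_sqrt ?_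
    have h1 := Fintype.card_le_of_injective ζ hζ
    have h2 : Fintype.card (Cube n) = 2 ^ n := by simp
    rw [h2] at h1
    exact_mod_cast h1
  have h3 := master (β := β) (σ := σ) (K0 := 5 * ρ + 4 * Λ + 7) (cu := cu) (b0 := b z0)
    (s0 := s z0) (Λ' := 3 * Λ + 1) (r := r) hC.β0 hκ8 hC.σ0 (by linarith [hC.Λ0])
    (toEuclideanLin A0) R hR (univ.filter fun i => hAdm.herm.eigenvalues i < κ)
    (fun i => hAdm.herm.eigenvectorBasis i) (fun i => (hAdm.herm.eigenvectorBasis.orthonormal.1 i).le)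
    (fun w hw => bessel hAdm.herm _ w hw) hC.r0 (hAdm.low.trans hr) hdec hbd b s hbn hsn
    (fun z => Xop G δ (ζ z) A0 (driver G D h (ζ z) (a z)) (b z)) hX hXs v u hv hu (fun z => ?_) J ?_
  · exact h3
  · have h1 := heq z
    rw [flat_eq G hm δ (ζ z) A0] at h1
    rw [← h1]
    push_cast
    module
  · refine le_trans ?_ hC.iter
    refine mul_le_mul_of_nonneg_left hcard ?_
    have := hC.σ0
    positivity

end Pool.Agent.H73.AD
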