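import Pool.Agent.H73.AD.Good
import Pool.Agent.H73.QA.Rand

/-! The flattened Hamiltonian and the properties of typical formulas and of good assignments. -/

namespace Pool.Agent.H73.AD

open Finset Matrix Pool.Agent.H73.QA

/-- number of clauses of `G` violated by both assignments -/
def Wn {n k m : ℕ} (G : Fin m → Clause n k) (z x : Cube n) : ℕ :=
  (univ.filter fun j => Violates z (G j) ∧ Violates x (G j)).card

theorem pviol_eq {n k m : ℕ} (G : Fin m → Clause n k) (z x : Cube n) :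
    (pviol G z x : ℝ) = viol G x - Wn G z x := by
  have h : viol G x = pviol G z x + Wn G z x := by
    unfold viol pviol Wn
    rw [← card_filter_add_card_filter_not (s := univ.filter fun j => Violates x (G j))
      (fun j => ¬ Violates z (G j)), filter_filter, filter_filter]
    congr 2
    · ext j; simp [and_comm]
    · ext j; simp [and_comm]
  rw [h]
  push_cast
  ring

/-- typical formulas -/
structure Typ {n k m : ℕ} (ε δ ν : ℝ) (G : Fin m → Clause n k) : Prop where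
  t1 : ∀ x, |(viol G x : ℝ) - m / 2 ^ k| ≤ ε * (m / 2 ^ k)
  t2 : ∀ z x : Cube n, x ∉ hball δ z → (Wn G z x : ℝ) ≤ ν * (m / 2 ^ k)

variable {n k m : ℕ} {Y : Type} [Fintype Y] [DecidableEq Y]

/-- the part of the cost that is removed near `z` -/
noncomputable def nearN (G : Fin m → Clause n k) (δ : ℝ) (z : Cube n) (b : ℝ) :
    Sp n Y →ₗ[ℂ] Sp n Y :=
  dg fun x => if x ∈ hball δ z then (((1 - b) * (2 ^ k / m * Wn G z x) : ℝ) : ℂ) else 0

/-- the flattened Hamiltonian -/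
noncomputable def flatH (G : Fin m → Clause n k) (δ : ℝ) (z : Cube n) (A : Op n Y) (b : ℝ) :
    Sp n Y →ₗ[ℂ] Sp n Y :=
  toEuclideanLin (ham G z A b) + nearN G δ z b

/-- `z` is good: low-lying eigenvectors of the flattened Hamiltonians, and resolvents applied to
their images, have small near parts. -/
structure GoodZ {p q : ℕ} (α κ Λ δ η : ℝ) (G : Fin m → Clause n k) (D : Fin p → Op n Y)
    (h : Fin p → Fin m → Op n Y) (T : Fin q → Op n Y) (z : Cube n) : Prop where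
  g1 : ∀ (a : Fin p → ℝ) (b f : ℝ) (φ : Sp n Y), Adm α κ Λ a (driver G D h z a) z →
    1 / 5 ≤ b → b ≤ 1 → ‖φ‖ = 1 → flatH G δ z (driver G D h z a) b φ = (f : ℂ) • φ →
    f ≤ 1 - (1 - κ / 4) * b + κ / 80 → ‖nearP (hball δ z) φ‖ ≤ η
  g2 : ∀ (a : Fin p → ℝ) (b f : ℝ) (φ : Sp n Y), Adm α κ Λ a (driver G D h z a) z →
    1 / 5 ≤ b → b ≤ 1 → ‖φ‖ = 1 → flatH G δ z (driver G D h z a) b φ = (f : ℂ) • φ →
    f ≤ 1 - (1 - κ / 4) * b + κ / 80 →
    ∀ U : Sp n Y →ₗ[ℂ] Sp n Y, (U = LinearMap.id ∨ ∃ j, U = toEuclideanLin (T j)) →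
    ∀ (a' : Fin p → ℝ) (b' e d : ℝ) (v : Sp n Y), Adm α κ Λ a' (driver G D h z a') z →
    0 ≤ b' → b' ≤ 1 → 0 ≤ e → e ≤ 1 - (1 - κ / 4) * b' → (b' < 1 / 5 → e ≤ 1 / 2) → 0 < d →
    d ≤ 1 → ‖v‖ ≤ 1 →
    flatH G δ z (driver G D h z a') b' v - (e : ℂ) • v = (d : ℂ) • U φ →
    ‖nearP (hball δ z) v‖ ≤ η

end Pool.Agent.H73.AD
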