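import Pool.Agent.H73.AD.Num
import Pool.Agent.H73.AD.Typ
import Pool.Agent.H73.AD.ChainB

/-! The theorem. -/

namespace Pool.Agent.H73.AD

open Finset Matrix Pool.Agent.H73.QA

/-- one typical formula -/
theorem one_formula {α κ Λ t e ε δ ν σ K1 : ℝ} {Q : ℕ} (hα : 0 ≤ α) (hκ : 0 < κ) (hκ1 : κ ≤ 1)
    (hΛ : 0 ≤ Λ) (he : 0 < e) (hQ1 : 1 ≤ Q) (hσ0 : 0 < σ) (hK1 : 1 ≤ K1)
    (hK2 : K1 ≤ 2 ^ (e / 16 * Q)) (hK3 : (κ / 8)⁻¹ * (2 * σ + 4 * Λ + 7 + 2 * σ) ≤ K1)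
    (hθ : (κ / 8)⁻¹ * (3 * σ) ≤ 2 ^ (-(Q : ℝ) / 2)) (hε0 : 0 ≤ ε) (hε1 : ε ≤ σ / 4)
    (hε2 : ε ≤ κ / 40) (hν0 : 0 ≤ ν) (hν1 : ν ≤ σ / 4) (hν2 : ν ≤ 1 / 20) (hεν : ε + ν < t)
    (hball : ∀ (n : ℕ) (x : Cube n),
      ((univ.filter fun z => x ∈ hball δ z).card : ℝ) ≤ (2 : ℝ) ^ (e / 16 * n))
    {Ib Is : Finset ℤ} {nb ns : ℝ → ℤ} (hb1 : ∀ x, 0 ≤ x → x ≤ 1 → nb x ∈ Ib)
    (hb2 : ∀ x y, nb x = nb y → |x - y| ≤ σ / (3 * Λ + 1))
    (hs1 : ∀ x, -1 ≤ x → x ≤ 1 → ns x ∈ Is) (hs2 : ∀ x y, ns x = ns y → |x - y| ≤ σ)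
    {k n m : ℕ} (hk : 4 * Λ / Real.sqrt (2 ^ k) ≤ σ / 4) (hn1 : (n : ℝ) + 1 ≤ 2 ^ (e / 16 * n))
    (hn2 : 4 * 3 * 4 * ((Ib.card : ℝ) * Is.card) ^ 2 * (81 / κ ^ 2 * 16 * K1 ^ 4) *
      (400 / κ) ^ 2 ≤ 2 ^ (e / 4 * n)) (hm : 0 < m)
    {G : Fin m → Clause n k} (hG : Typ ε δ ν G) {Y : Type} [Fintype Y] [DecidableEq Y] {p q : ℕ}
    (D : Fin p → Op n Y) (h : Fin p → Fin m → Op n Y) (T : Fin q → Op n Y) (u : ℝ)
    (hp : p ≤ e / 16 / (8 * Λ / σ + 2) * n) (hq : q ≤ (2 : ℝ) ^ (e / 16 / (8 * Λ / σ + 2) * n))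
    (hD : ∀ i, Bdd (D i + ∑ j, h i j) 1) (hh : ∀ i j, Bdd (h i j) (Real.sqrt (2 ^ k) / m))
    (hT : ∀ j, Bdd (T j) 1) :
    (Nat.card {z : Cube n // ¬ Hard α κ Λ t u G D h T z} : ℝ) ≤ 2 ^ ((α + 2 * u + e) * n) := by
  classical
  obtain ⟨L, hL⟩ : ∃ L : ℕ, L = ⌈Λ * p / (σ / 8)⌉₊ := ⟨_, rfl⟩
  obtain ⟨cell, hc1, hc2⟩ := exists_cell (Λ := Λ) (ρ := σ / 8) (by linarith) p L
    (by rw [hL]; exact Nat.le_ceil _)
  have hρ8 : 0 < 8 * Λ / σ + 2 := by positivity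
  have he1 : 0 < e / 16 := by linarith
  -- nets
  have hN : Nets Λ (σ / 8) σ p (cells p L) Ib Is cell nb ns := by
    refine ⟨hc1, hc2, hb1, fun x y hxy => ?_, hs1, hs2⟩
    have h1 := hb2 x y hxy
    rw [le_div_iff₀ (by positivity)] at h1
    exact h1
  -- constants
  obtain ⟨r, hr⟩ : ∃ r : ℝ, r = 2 ^ (α / 2 * n) := ⟨_, rfl⟩
  have hr1 : 1 ≤ r := by rw [hr]; exact Real.one_le_rpow one_le_two (by positivity)
  have hr2 : r ^ 2 = 2 ^ (α * n) := by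
    rw [hr, rpow_sq_n]; congr 2; ring
  obtain ⟨β, hβ⟩ : ∃ β : ℝ, β = 2 ^ (e / 32 * n) := ⟨_, rfl⟩
  have hβ1 : 1 ≤ β := by rw [hβ]; exact Real.one_le_rpow one_le_two (by positivity)
  have hβ2 : β ^ 2 = 2 ^ (e / 16 * n) := by
    rw [hβ, rpow_sq_n]; congr 2; ring
  have hC : Consts κ Λ ε δ ν (σ / 8) σ β r n k (n / Q + 1) := by
    refine ⟨hκ, hκ1, hΛ, hε0, by linarith, hν0, by linarith, hσ0.le, by linarith, by linarith,
      by linarith, ?_, fun x => ?_⟩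
    · exact (iter_le hQ1 (by positivity) hθ).trans hβ1
    · rw [hβ2]; exact hball n x
  obtain ⟨η, hη⟩ : ∃ η : ℝ, η = κ * (2 : ℝ) ^ (-u * n) / 400 := ⟨_, rfl⟩
  have hη0 : 0 < η := by
    rw [hη]
    have := Real.rpow_pos_of_pos two_pos (-u * n)
    positivity
  obtain ⟨S, hS⟩ : ∃ S : Finset (Cube n), S = univ.filter fun z => ¬ GoodZ α κ Λ δ η G D h T z :=
    ⟨_, rfl⟩
  have h1 := count_bad (α := α) hC hm hG D h hD hh T hT hr2.ge hN hη0 S (fun z hz => by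
    rw [hS, mem_filter] at hz
    exact hz.2)
  -- the numbers
  have hg := geo_le (e1 := e / 16) (ρ := σ / 8) n hκ hΛ (by linarith) (by linarith) hK1 hK2
    he1.le hK3 hn1
  have hp2 : Λ * p / (σ / 8) + 2 * p ≤ e / 16 * n := by
    have h2 : Λ * p / (σ / 8) + 2 * p = (8 * Λ / σ + 2) * p := by field_simp
    rw [h2]
    calc (8 * Λ / σ + 2) * p ≤ (8 * Λ / σ + 2) * (e / 16 / (8 * Λ / σ + 2) * n) :=
          mul_le_mul_of_nonneg_left hp hρ8.le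
      _ = _ := by field_simp
  have hNc : ((cells p L).card : ℝ) ≤ 2 * 2 ^ (e / 16 * n) := by
    have h2 : ((cells p L).card : ℝ) ≤ 2 ^ L * 3 ^ p := by exact_mod_cast cells_card p L
    have h3 : (2 : ℝ) ^ L * 3 ^ p ≤ 2 ^ (Λ * p / (σ / 8) + 1) * 2 ^ (2 * (p : ℝ)) := by
      refine mul_le_mul ?_ ?_ (by positivity) (by positivity)
      · rw [← Real.rpow_natCast]
        refine Real.rpow_le_rpow_of_exponent_le one_le_two ?_
        rw [hL]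
        exact (Nat.ceil_lt_add_one (by positivity)).le
      · rw [Real.rpow_mul two_pos.le, Real.rpow_natCast]
        exact pow_le_pow_left₀ (by norm_num) (by norm_num) p
    refine h2.trans (h3.trans ?_)
    rw [← Real.rpow_add two_pos]
    calc (2 : ℝ) ^ (Λ * p / (σ / 8) + 1 + 2 * p) ≤ 2 ^ (1 + e / 16 * n) :=
          Real.rpow_le_rpow_of_exponent_le one_le_two (by linarith)
      _ = _ := by rw [Real.rpow_add two_pos, Real.rpow_one]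
  have hq2 : (q : ℝ) + 1 ≤ 2 * 2 ^ (e / 16 * n) := by
    have h2 : (q : ℝ) ≤ 2 ^ (e / 16 * n) := by
      refine hq.trans (Real.rpow_le_rpow_of_exponent_le one_le_two ?_)
      refine mul_le_mul_of_nonneg_right ?_ (Nat.cast_nonneg _)
      rw [div_le_iff₀ hρ8]
      have : 0 ≤ 8 * Λ / σ := by positivity
      nlinarith
    have h3 : (1 : ℝ) ≤ 2 ^ (e / 16 * n) := Real.one_le_rpow one_le_two (by positivity)
    linarith
  have hint : ((cells p L).card : ℝ) * ((Ib.card : ℝ) * Is.card) ≤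
      (((cells p L).card : ℝ) * ((Ib.card : ℝ) * Is.card)) ^ 2 := by
    have h2 : ∀ x : ℕ, x ≤ x ^ 2 := fun x => Nat.le_self_pow two_ne_zero x
    exact_mod_cast h2 ((cells p L).card * (Ib.card * Is.card))
  have hgeo0 : 0 ≤ geo κ Λ (σ / 8) σ (n / Q + 1) := by
    unfold geo
    positivity
  have h2 := final (α := α) (u := u) (e := e) (κ := κ) (K1 := K1) (β := β) (r := r) (η := η)
    (g := geo κ Λ (σ / 8) σ (n / Q + 1)) (Nc := (cells p L).card)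
    (Nb := (Ib.card : ℝ) * Is.card) (q := q) (n := n) hκ hκ1 hK1 hβ2.le hr1 hr2 hη hgeo0 hg
    (Nat.cast_nonneg _) hNc (by positivity) hint (Nat.cast_nonneg _) hq2 hn2 he.le
  have h3 : (Nat.card {z : Cube n // ¬ Hard α κ Λ t u G D h T z} : ℝ) ≤ S.card := by
    have h4 : Nat.card {z : Cube n // ¬ Hard α κ Λ t u G D h T z} ≤ S.card := by
      rw [Nat.card_eq_fintype_card, Fintype.card_subtype]
      refine card_le_card fun z hz => ?_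
      rw [mem_filter] at hz
      rw [hS, mem_filter]
      refine ⟨mem_univ _, fun hgood => hz.2 ?_⟩
      rw [hη] at hgood
      exact hard_of_good hκ hκ1 hε0 hε2 hν0 hν2 hεν hm hG D h hD hh T hT z hgood
    exact_mod_cast h4
  exact h3.trans (h1.trans h2)

theorem main (α κ Λ t e : ℝ) (hα : 0 ≤ α) (hκ : 0 < κ) (hκ1 : κ ≤ 1) (hΛ : 0 ≤ Λ) (ht : 0 < t)
    (he : 0 < e) :
    ∃ c C : ℝ, 0 < c ∧ 0 < C ∧ ∃ k₀ : ℕ, ∀ k ≥ k₀, ∃ n₀ : ℕ, ∀ n ≥ n₀, ∀ m : ℕ,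
      C * 2 ^ k * n ≤ m →
      (Nat.card {G : Fin m → Clause n k // ¬ ∀ (Y : Type) (_ : Fintype Y) (_ : DecidableEq Y)
        (p q : ℕ) (D : Fin p → Op n Y) (h : Fin p → Fin m → Op n Y) (T : Fin q → Op n Y) (u : ℝ),
        p ≤ c * n → q ≤ (2 : ℝ) ^ (c * n) →
        (∀ i, Bdd (D i + ∑ j, h i j) 1) → (∀ i j, Bdd (h i j) (Real.sqrt (2 ^ k) / m)) →
        (∀ j, Bdd (T j) 1) →
        (Nat.card {z : Cube n // ¬ Hard α κ Λ t u G D h T z} : ℝ) ≤ 2 ^ ((α + 2 * u + e) * n)} : ℝ)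
      ≤ Nat.card (Fin m → Clause n k) / 2 ^ n := by
  obtain ⟨Q, σ, K1, hQ1, hσ0, hσ1, hK1, hK2, hK3, hθ⟩ :=
    params (e1 := e / 16) (κ := κ) (Λ := Λ) (by linarith) hκ hΛ
  obtain ⟨δ, hδ0, hδ1, hball⟩ := ball_in (β := e / 16) (by linarith)
  obtain ⟨Ib, nb, -, hb1, hb2⟩ := exists_net (ζ := σ / (3 * Λ + 1)) (A := 0) (B := 1)
    (by positivity) zero_le_one
  obtain ⟨Is, ns, -, hs1, hs2⟩ := exists_net (ζ := σ) (A := -1) (B := 1) hσ0 (by norm_num)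
  obtain ⟨ε, hε⟩ : ∃ ε : ℝ, ε = min (σ / 4) (min (κ / 40) (t / 4)) := ⟨_, rfl⟩
  obtain ⟨ν, hν⟩ : ∃ ν : ℝ, ν = min (σ / 4) (min (1 / 20) (t / 4)) := ⟨_, rfl⟩
  have hε0 : 0 < ε := by
    rw [hε]; exact lt_min (by linarith) (lt_min (by linarith) (by linarith))
  have hε1 : ε ≤ σ / 4 := by rw [hε]; exact min_le_left _ _
  have hε2 : ε ≤ κ / 40 := by rw [hε]; exact (min_le_right _ _).trans (min_le_left _ _)
  have hε3 : ε ≤ t / 4 := by rw [hε]; exact (min_le_right _ _).trans (min_le_right _ _)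
  have hν0 : 0 < ν := by
    rw [hν]; exact lt_min (by linarith) (lt_min (by norm_num) (by linarith))
  have hν1 : ν ≤ σ / 4 := by rw [hν]; exact min_le_left _ _
  have hν2 : ν ≤ 1 / 20 := by rw [hν]; exact (min_le_right _ _).trans (min_le_left _ _)
  have hν3 : ν ≤ t / 4 := by rw [hν]; exact (min_le_right _ _).trans (min_le_right _ _)
  obtain ⟨C, hC0, k1, hC⟩ := typ_count (ε := ε) (δ := δ) (ν := ν) hε0 (by linarith) hδ0
    (by linarith) hν0 (by linarith)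
  obtain ⟨k2, hk2⟩ := exists_nat_ge ((16 * Λ / σ) ^ 2)
  obtain ⟨n1, hn1⟩ := lin_le_exp (c := e / 16) (by linarith) (A := 1) zero_le_one
  obtain ⟨n2, hn2⟩ := lin_le_exp (c := e / 4) (by linarith)
    (A := 4 * 3 * 4 * ((Ib.card : ℝ) * Is.card) ^ 2 * (81 / κ ^ 2 * 16 * K1 ^ 4) *
      (400 / κ) ^ 2) (by positivity)
  refine ⟨e / 16 / (8 * Λ / σ + 2), C, by positivity, hC0, max k1 k2, fun k hk =>
    ⟨max 1 (max n1 n2), fun n hn m hm => ?_⟩⟩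
  have hn0 : 1 ≤ n := (le_max_left _ _).trans hn
  have hn0' : (1 : ℝ) ≤ n := by exact_mod_cast hn0
  have hm0 : 0 < m := by
    have h1 : 0 < C * 2 ^ k * n := by positivity
    have h2 : (0 : ℝ) < m := h1.trans_le hm
    exact_mod_cast h2
  have h1 := hC k ((le_max_left _ _).trans hk) n hn0 m hm
  refine le_trans ?_ h1
  have h2 : Nat.card {G : Fin m → Clause n k // ¬ ∀ (Y : Type) (_ : Fintype Y) (_ : DecidableEq Y)
        (p q : ℕ) (D : Fin p → Op n Y) (h : Fin p → Fin m → Op n Y) (T : Fin q → Op n Y) (u : ℝ),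
        p ≤ e / 16 / (8 * Λ / σ + 2) * n → q ≤ (2 : ℝ) ^ (e / 16 / (8 * Λ / σ + 2) * n) →
        (∀ i, Bdd (D i + ∑ j, h i j) 1) → (∀ i j, Bdd (h i j) (Real.sqrt (2 ^ k) / m)) →
        (∀ j, Bdd (T j) 1) →
        (Nat.card {z : Cube n // ¬ Hard α κ Λ t u G D h T z} : ℝ) ≤ 2 ^ ((α + 2 * u + e) * n)} ≤
      Nat.card {G : Fin m → Clause n k // ¬ Typ ε δ ν G} := by
    refine Nat.card_le_card_of_injective (fun G => ⟨G.1, fun hG => G.2 ?_⟩) fun G G' h =>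
      Subtype.ext (congrArg (fun x => x.1) h)
    intro Y _ _ p q D h T u hp hq hD hh hT
    refine one_formula (ε := ε) (δ := δ) (ν := ν) (σ := σ) (K1 := K1) (Q := Q) hα hκ hκ1 hΛ he
      hQ1 hσ0 hK1 hK2 hK3 hθ hε0.le hε1 hε2 hν0.le hν1 hν2 (by linarith) hball hb1 hb2 hs1 hs2
      ?_ ?_ ?_ hm0 hG D h T u hp hq hD hh hT
    · -- k is large
      have h3 : (16 * Λ / σ) ^ 2 ≤ 2 ^ k := by
        refine hk2.trans ?_
        have h4 : k2 ≤ 2 ^ k :=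
          ((le_max_right _ _).trans hk).trans (Nat.lt_two_pow_self).le
        exact_mod_cast h4
      have h4 : 16 * Λ / σ ≤ Real.sqrt (2 ^ k) := Real.le_sqrt_of_sq_le h3
      have h5 : 0 < Real.sqrt (2 ^ k) := Real.sqrt_pos.2 (by positivity)
      rw [div_le_iff₀ h5]
      rw [div_le_iff₀ hσ0] at h4
      linarith
    · have h3 := hn1 n (((le_max_left _ _).trans (le_max_right _ _)).trans hn)
      linarith
    · have h3 := hn2 n (((le_max_right _ _).trans (le_max_right _ _)).trans hn)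
      refine le_trans ?_ h3
      have h4 : (0 : ℝ) ≤ 4 * 3 * 4 * ((Ib.card : ℝ) * Is.card) ^ 2 *
        (81 / κ ^ 2 * 16 * K1 ^ 4) * (400 / κ) ^ 2 := by positivity
      nlinarith
  exact_mod_cast h2

end Pool.Agent.H73.AD
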