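import Pool.Agent.H73.AD.BadC
import Pool.Agent.H73.QA.Num

/-! Choice of the parameters. -/

namespace Pool.Agent.H73.AD

open Finset Matrix Pool.Agent.H73.QA

theorem rpow_add_n (a b : ℝ) (n : ℕ) :
    (2 : ℝ) ^ (a * n) * 2 ^ (b * n) = 2 ^ ((a + b) * n) := by
  rw [← Real.rpow_add two_pos]; congr 1; ring

theorem rpow_sq_n (a : ℝ) (n : ℕ) : ((2 : ℝ) ^ (a * n)) ^ 2 = 2 ^ ((2 * a) * n) := by
  rw [sq, rpow_add_n]; congr 2; ring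

/-- the constants of the argument -/
theorem params {e1 κ Λ : ℝ} (he : 0 < e1) (hκ : 0 < κ) (hΛ : 0 ≤ Λ) :
    ∃ (Q : ℕ) (σ K1 : ℝ), 1 ≤ Q ∧ 0 < σ ∧ σ ≤ 1 ∧ 1 ≤ K1 ∧ K1 ≤ 2 ^ (e1 * Q) ∧
      (κ / 8)⁻¹ * (2 * σ + 4 * Λ + 7 + 2 * σ) ≤ K1 ∧ (κ / 8)⁻¹ * (3 * σ) ≤ 2 ^ (-(Q : ℝ) / 2) := by
  obtain ⟨K1, hK1⟩ : ∃ K1 : ℝ, K1 = (κ / 8)⁻¹ * (4 * Λ + 11) + 1 := ⟨_, rfl⟩
  have hκ8 : 0 < (κ / 8)⁻¹ := by positivity
  have hK : 1 ≤ K1 := by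
    rw [hK1]
    have : 0 ≤ (κ / 8)⁻¹ * (4 * Λ + 11) := by positivity
    linarith
  obtain ⟨Q, hQ⟩ := exists_nat_ge (max 1 (Real.logb 2 K1 / e1))
  have hQ1 : (1 : ℝ) ≤ Q := (le_max_left _ _).trans hQ
  have hQ2 : Real.logb 2 K1 / e1 ≤ Q := (le_max_right _ _).trans hQ
  have hpow : 0 < (2 : ℝ) ^ (-(Q : ℝ) / 2) := Real.rpow_pos_of_pos two_pos _
  obtain ⟨σ, hσ⟩ : ∃ σ : ℝ, σ = min 1 (κ / 24 * 2 ^ (-(Q : ℝ) / 2)) := ⟨_, rfl⟩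
  have hσ0 : 0 < σ := by rw [hσ]; exact lt_min one_pos (by positivity)
  have hσ1 : σ ≤ 1 := by rw [hσ]; exact min_le_left _ _
  have hσ2 : σ ≤ κ / 24 * 2 ^ (-(Q : ℝ) / 2) := by rw [hσ]; exact min_le_right _ _
  refine ⟨Q, σ, K1, by exact_mod_cast hQ1, hσ0, hσ1, hK, ?_, ?_, ?_⟩
  · rw [div_le_iff₀ he] at hQ2
    have h1 : K1 = 2 ^ Real.logb 2 K1 :=
      (Real.rpow_logb two_pos (by norm_num) (by linarith)).symm
    calc K1 = 2 ^ Real.logb 2 K1 := h1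
      _ ≤ 2 ^ (e1 * Q) := Real.rpow_le_rpow_of_exponent_le one_le_two (by linarith)
  · rw [hK1]
    have : (κ / 8)⁻¹ * (2 * σ + 4 * Λ + 7 + 2 * σ) ≤ (κ / 8)⁻¹ * (4 * Λ + 11) :=
      mul_le_mul_of_nonneg_left (by linarith) hκ8.le
    linarith
  · calc (κ / 8)⁻¹ * (3 * σ) ≤ (κ / 8)⁻¹ * (3 * (κ / 24 * 2 ^ (-(Q : ℝ) / 2))) := by gcongr
      _ = 2 ^ (-(Q : ℝ) / 2) := by field_simp; ring

theorem iter_le {θ : ℝ} {Q n : ℕ} (hQ : 1 ≤ Q) (hθ0 : 0 ≤ θ) (hθ : θ ≤ 2 ^ (-(Q : ℝ) / 2)) :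
    θ ^ (n / Q + 1) * Real.sqrt (2 ^ n) ≤ 1 := by
  have h1 : θ ^ (n / Q + 1) ≤ 2 ^ (-(n : ℝ) / 2) := by
    calc θ ^ (n / Q + 1) ≤ ((2 : ℝ) ^ (-(Q : ℝ) / 2)) ^ (n / Q + 1) :=
          pow_le_pow_left₀ hθ0 hθ _
      _ = 2 ^ (-(Q : ℝ) / 2 * ((n / Q + 1 : ℕ) : ℝ)) := by
          rw [← Real.rpow_natCast, ← Real.rpow_mul two_pos.le]
      _ ≤ _ := by
          refine Real.rpow_le_rpow_of_exponent_le one_le_two ?_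
          have h2 : n ≤ Q * (n / Q + 1) := by
            have h3 := Nat.div_add_mod n Q
            have h4 := Nat.mod_lt n (by omega : 0 < Q)
            rw [mul_add, mul_one]
            omega
          have h3 : (n : ℝ) ≤ Q * ((n / Q + 1 : ℕ) : ℝ) := by exact_mod_cast h2
          linarith
  have h2 : Real.sqrt (2 ^ n) = 2 ^ ((n : ℝ) / 2) := by
    rw [Real.sqrt_eq_rpow, ← Real.rpow_natCast, ← Real.rpow_mul two_pos.le]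
    congr 1
    ring
  rw [h2]
  calc θ ^ (n / Q + 1) * 2 ^ ((n : ℝ) / 2) ≤ 2 ^ (-(n : ℝ) / 2) * 2 ^ ((n : ℝ) / 2) :=
        mul_le_mul_of_nonneg_right h1 (Real.rpow_nonneg two_pos.le _)
    _ = 1 := by
        rw [← Real.rpow_add two_pos]
        have : -(n : ℝ) / 2 + n / 2 = 0 := by ring
        rw [this, Real.rpow_zero]

theorem geo_le {e1 κ Λ ρ σ K1 : ℝ} {Q : ℕ} (n : ℕ) (hκ : 0 < κ) (hΛ : 0 ≤ Λ)
    (hρ0 : 0 ≤ ρ) (hρ : 5 * ρ ≤ 2 * σ) (hK1 : 1 ≤ K1) (hQ : K1 ≤ 2 ^ (e1 * Q))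
    (he : 0 ≤ e1)
    (hK : (κ / 8)⁻¹ * (2 * σ + 4 * Λ + 7 + 2 * σ) ≤ K1)
    (hn : (n : ℝ) + 1 ≤ 2 ^ (e1 * n)) :
    geo κ Λ ρ σ (n / Q + 1) + 1 ≤ 2 * K1 * 2 ^ ((2 * e1) * n) := by
  have h0 : 0 ≤ (κ / 8)⁻¹ * (5 * ρ + 4 * Λ + 7 + 2 * σ) := by
    have : 0 ≤ σ := by linarith
    positivity
  have h1 : (κ / 8)⁻¹ * (5 * ρ + 4 * Λ + 7 + 2 * σ) ≤ K1 := by
    refine le_trans ?_ hK
    exact mul_le_mul_of_nonneg_left (by linarith) (by positivity)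
  have h2 : geo κ Λ ρ σ (n / Q + 1) ≤ ((n / Q + 1 : ℕ) : ℝ) * K1 ^ (n / Q + 1) := by
    unfold geo
    calc _ ≤ ∑ _j ∈ range (n / Q + 1), K1 ^ (n / Q + 1) := by
          refine sum_le_sum fun j hj => ?_
          rw [mem_range] at hj
          exact (pow_le_pow_left₀ h0 h1 j).trans (pow_le_pow_right₀ hK1 hj.le)
      _ = _ := by rw [sum_const, card_range, nsmul_eq_mul]
  have h3 : K1 ^ (n / Q + 1) ≤ K1 * 2 ^ (e1 * n) := by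
    rw [pow_succ, mul_comm]
    refine mul_le_mul_of_nonneg_left ?_ (by linarith)
    calc K1 ^ (n / Q) ≤ ((2 : ℝ) ^ (e1 * Q)) ^ (n / Q) := pow_le_pow_left₀ (by linarith) hQ _
      _ = 2 ^ (e1 * Q * ((n / Q : ℕ) : ℝ)) := by
          rw [← Real.rpow_natCast, ← Real.rpow_mul two_pos.le]
      _ ≤ _ := by
          refine Real.rpow_le_rpow_of_exponent_le one_le_two ?_
          have h4 : Q * (n / Q) ≤ n := Nat.mul_div_le n Q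
          have h5 : (Q : ℝ) * ((n / Q : ℕ) : ℝ) ≤ n := by exact_mod_cast h4
          rw [mul_assoc]
          exact mul_le_mul_of_nonneg_left h5 he
  have h4 : ((n / Q + 1 : ℕ) : ℝ) ≤ 2 ^ (e1 * n) := by
    refine le_trans ?_ hn
    have : n / Q ≤ n := Nat.div_le_self n Q
    have h5 : ((n / Q : ℕ) : ℝ) ≤ n := by exact_mod_cast this
    push_cast
    linarith
  have h5 : geo κ Λ ρ σ (n / Q + 1) ≤ K1 * 2 ^ ((2 * e1) * n) := by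
    calc _ ≤ _ := h2
      _ ≤ 2 ^ (e1 * n) * (K1 * 2 ^ (e1 * n)) :=
          mul_le_mul h4 h3 (by positivity) (by positivity)
      _ = K1 * (2 ^ (e1 * n) * 2 ^ (e1 * n)) := by ring
      _ = _ := by rw [rpow_add_n]; congr 2; ring
  have h6 : (1 : ℝ) ≤ K1 * 2 ^ ((2 * e1) * n) := by
    have h7 : (1 : ℝ) ≤ 2 ^ ((2 * e1) * n) :=
      Real.one_le_rpow one_le_two (by positivity)
    nlinarith
  linarith

/-- the final inequality -/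
theorem final {α u e κ K1 β r η g Nc Nb q : ℝ} {n : ℕ} (hκ : 0 < κ) (hκ1 : κ ≤ 1)
    (hK1 : 1 ≤ K1) (hβ : β ^ 2 ≤ 2 ^ (e / 16 * n)) (hr1 : 1 ≤ r)
    (hr : r ^ 2 = 2 ^ (α * n)) (hη : η = κ * (2 : ℝ) ^ (-u * n) / 400) (hg0 : 0 ≤ g)
    (hg : g + 1 ≤ 2 * K1 * 2 ^ ((2 * (e / 16)) * n)) (hNc0 : 0 ≤ Nc)
    (hNc : Nc ≤ 2 * 2 ^ (e / 16 * n)) (hNb0 : 0 ≤ Nb)
    (hint : Nc * Nb ≤ (Nc * Nb) ^ 2) (hq0 : 0 ≤ q) (hq : q + 1 ≤ 2 * 2 ^ (e / 16 * n))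
    (hn : 4 * 3 * 4 * Nb ^ 2 * (81 / κ ^ 2 * 16 * K1 ^ 4) * (400 / κ) ^ 2 ≤ 2 ^ (e / 4 * n))
    (he : 0 ≤ e) :
    Nc * Nb * (4 * (β ^ 2 * (r * g + 1) ^ 2) / η ^ 2) +
      (Nc * Nb) * ((q + 1) * (Nc * Nb)) *
        (4 * (β ^ 2 * ((r + (κ / 8)⁻¹ * (r * g + 1)) * g + 1) ^ 2) / η ^ 2) ≤
      2 ^ ((α + 2 * u + e) * n) := by
  obtain ⟨w, hw⟩ : ∃ w : ℝ, w = 2 ^ (e / 16 * n) := ⟨_, rfl⟩
  obtain ⟨τ, hτ⟩ : ∃ τ : ℝ, τ = 2 ^ (-u * n) := ⟨_, rfl⟩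
  have hw1 : 1 ≤ w := by rw [hw]; exact Real.one_le_rpow one_le_two (by positivity)
  have hτ0 : 0 < τ := by rw [hτ]; exact Real.rpow_pos_of_pos two_pos _
  have hw2 : (2 : ℝ) ^ ((2 * (e / 16)) * n) = w ^ 2 := by rw [hw, rpow_sq_n]
  have hw4 : (2 : ℝ) ^ (e / 4 * n) = w ^ 4 := by
    rw [hw, ← Real.rpow_natCast, ← Real.rpow_mul two_pos.le]
    congr 1; push_cast; ring
  have hw16 : (2 : ℝ) ^ (e * n) = w ^ 16 := by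
    rw [hw, ← Real.rpow_natCast, ← Real.rpow_mul two_pos.le]
    congr 1; push_cast; ring
  have hgoal : (2 : ℝ) ^ ((α + 2 * u + e) * n) = r ^ 2 * (1 / τ ^ 2) * w ^ 16 := by
    have h1 : (2 : ℝ) ^ (2 * u * n) * τ ^ 2 = 1 := by
      rw [hτ, rpow_sq_n, rpow_add_n]
      have : (2 * u + 2 * -u) * n = 0 := by ring
      rw [this, Real.rpow_zero]
    have h2 : 1 / τ ^ 2 = 2 ^ (2 * u * n) := by
      rw [div_eq_iff (by positivity)]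
      exact h1.symm
    rw [h2, hr, ← hw16, rpow_add_n, rpow_add_n]
  rw [hgoal]
  rw [← hw] at hβ hNc hq
  rw [hw2] at hg
  rw [hw4] at hn
  rw [← hτ] at hη
  -- the costs
  obtain ⟨γ, hγ⟩ : ∃ γ, γ = g + 1 := ⟨_, rfl⟩
  have hγ1 : 1 ≤ γ := by rw [hγ]; linarith
  rw [← hγ] at hg
  obtain ⟨c, hc⟩ : ∃ c, c = r * (9 / κ) * γ ^ 2 := ⟨_, rfl⟩
  have hκi : 1 ≤ 1 / κ := by rw [le_div_iff₀ hκ]; linarith
  have h9 : 9 / κ = 9 * (1 / κ) := by ring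
  have h8 : (κ / 8)⁻¹ = 8 * (1 / κ) := by rw [inv_div]; ring
  obtain ⟨i, hi⟩ : ∃ i, i = 1 / κ := ⟨_, rfl⟩
  rw [h9, ← hi] at hc
  rw [h8, ← hi]
  rw [← hi] at hκi
  have hg' : g = γ - 1 := by rw [hγ]; ring
  have hrγ : 1 ≤ r * γ := by nlinarith
  have h1 : r * g + 1 ≤ r * γ := by rw [hg']; nlinarith
  have h1' : r * γ ≤ c := by
    rw [hc]
    have h3 : 1 ≤ 9 * i * γ := by nlinarith
    calc r * γ = r * γ * 1 := by ring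
      _ ≤ r * γ * (9 * i * γ) := mul_le_mul_of_nonneg_left h3 (by positivity)
      _ = _ := by ring
  have h2 : (r + 8 * i * (r * g + 1)) * g + 1 ≤ c := by
    have h3 : r + 8 * i * (r * g + 1) ≤ 9 * i * (r * γ) := by
      have h4 : 8 * i * (r * g + 1) ≤ 8 * i * (r * γ) :=
        mul_le_mul_of_nonneg_left h1 (by positivity)
      have h5 : r ≤ i * (r * γ) := by
        have h6 : r * 1 ≤ r * (i * γ) :=
          mul_le_mul_of_nonneg_left (by nlinarith) (by linarith)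
        linarith
      linarith
    have h4 : (r + 8 * i * (r * g + 1)) * g ≤ 9 * i * (r * γ) * g :=
      mul_le_mul_of_nonneg_right h3 hg0
    have h5 : 1 ≤ 9 * i * (r * γ) := by nlinarith
    rw [hg'] at h4 ⊢
    rw [hc]
    have h6 : 9 * i * (r * γ) * (γ - 1) = r * (9 * i) * γ ^ 2 - 9 * i * (r * γ) := by ring
    rw [h6] at h4
    linarith
  have hc0 : 0 ≤ c := by rw [hc]; positivity
  have hη2 : 0 < η ^ 2 := by rw [hη]; positivity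
  obtain ⟨B, hB⟩ : ∃ B, B = 4 * (β ^ 2 * c ^ 2) / η ^ 2 := ⟨_, rfl⟩
  have hB0 : 0 ≤ B := by rw [hB]; positivity
  have h5 : 4 * (β ^ 2 * (r * g + 1) ^ 2) / η ^ 2 ≤ B := by
    rw [hB]
    have : (r * g + 1) ^ 2 ≤ c ^ 2 := pow_le_pow_left₀ (by positivity) (h1.trans h1') 2
    gcongr
  have h6 : 4 * (β ^ 2 * ((r + 8 * i * (r * g + 1)) * g + 1) ^ 2) / η ^ 2 ≤ B := by
    rw [hB]
    have : ((r + 8 * i * (r * g + 1)) * g + 1) ^ 2 ≤ c ^ 2 :=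
      pow_le_pow_left₀ (by positivity) h2 2
    gcongr
  have hX0 : 0 ≤ Nc * Nb := by positivity
  have hX : (Nc * Nb) ^ 2 ≤ 4 * w ^ 2 * Nb ^ 2 := by
    have : Nc ^ 2 ≤ (2 * w) ^ 2 := pow_le_pow_left₀ hNc0 hNc 2
    calc (Nc * Nb) ^ 2 = Nc ^ 2 * Nb ^ 2 := by ring
      _ ≤ (2 * w) ^ 2 * Nb ^ 2 := mul_le_mul_of_nonneg_right this (sq_nonneg _)
      _ = _ := by ring
  have hq3 : q + 2 ≤ 3 * w := by linarith
  have h7 : Nc * Nb * (4 * (β ^ 2 * (r * g + 1) ^ 2) / η ^ 2) +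
      (Nc * Nb) * ((q + 1) * (Nc * Nb)) *
        (4 * (β ^ 2 * ((r + 8 * i * (r * g + 1)) * g + 1) ^ 2) / η ^ 2) ≤
      (q + 2) * (Nc * Nb) ^ 2 * B := by
    calc _ ≤ (Nc * Nb) ^ 2 * B + (Nc * Nb) * ((q + 1) * (Nc * Nb)) * B :=
          add_le_add ((mul_le_mul_of_nonneg_left h5 hX0).trans
            (mul_le_mul_of_nonneg_right hint hB0))
            (mul_le_mul_of_nonneg_left h6 (by positivity))
      _ = _ := by ring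
  refine h7.trans ?_
  have hc2 : c ^ 2 ≤ r ^ 2 * (81 / κ ^ 2 * 16 * K1 ^ 4) * w ^ 8 := by
    have h8 : γ ^ 4 ≤ (2 * K1 * w ^ 2) ^ 4 := pow_le_pow_left₀ (by linarith) hg 4
    have h9' : c ^ 2 = r ^ 2 * (81 * i ^ 2) * γ ^ 4 := by rw [hc]; ring
    rw [h9']
    calc r ^ 2 * (81 * i ^ 2) * γ ^ 4 ≤ r ^ 2 * (81 * i ^ 2) * (2 * K1 * w ^ 2) ^ 4 :=
          mul_le_mul_of_nonneg_left h8 (by positivity)
      _ = _ := by rw [hi]; ring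
  have hηi : 1 / η ^ 2 = (400 / κ) ^ 2 * (1 / τ ^ 2) := by
    rw [hη]
    field_simp
  have hB2 : B ≤ 4 * (w * (r ^ 2 * (81 / κ ^ 2 * 16 * K1 ^ 4) * w ^ 8)) *
      ((400 / κ) ^ 2 * (1 / τ ^ 2)) := by
    rw [hB, ← hηi, div_eq_mul_one_div]
    refine mul_le_mul_of_nonneg_right ?_ (by positivity)
    have : β ^ 2 * c ^ 2 ≤ w * (r ^ 2 * (81 / κ ^ 2 * 16 * K1 ^ 4) * w ^ 8) :=
      mul_le_mul hβ hc2 (sq_nonneg _) (by positivity)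
    linarith
  have hw0 : 0 ≤ w := by linarith
  calc (q + 2) * (Nc * Nb) ^ 2 * B ≤ (3 * w) * (4 * w ^ 2 * Nb ^ 2) *
        (4 * (w * (r ^ 2 * (81 / κ ^ 2 * 16 * K1 ^ 4) * w ^ 8)) *
          ((400 / κ) ^ 2 * (1 / τ ^ 2))) := by
        refine mul_le_mul (mul_le_mul hq3 hX (sq_nonneg _) (by positivity)) hB2 hB0
          (by positivity)
    _ = (4 * 3 * 4 * Nb ^ 2 * (81 / κ ^ 2 * 16 * K1 ^ 4) * (400 / κ) ^ 2) *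
        (r ^ 2 * (1 / τ ^ 2) * w ^ 12) := by ring
    _ ≤ w ^ 4 * (r ^ 2 * (1 / τ ^ 2) * w ^ 12) :=
        mul_le_mul_of_nonneg_right hn (by positivity)
    _ = _ := by ring

end Pool.Agent.H73.AD
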