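import Mathlib
import Pool.Agent.H73.QA.Stmt

/-!
Annealing of planted k-CNF formulas with few controls: the definitions used by the statement.

`Cube n`, `Clause n k` and `Violates` are the ones of `Pool/Agent/H73/QA/Stmt.lean`.
-/

namespace Pool.Agent.H73.AD

open Finset Matrix Pool.Agent.H73.QA

/-- Operators on `n` qubits and an ancilla register with basis `Y`. -/
abbrev Op (n : ℕ) (Y : Type) := Matrix (Cube n × Y) (Cube n × Y) ℂ

/-- squared norm of a vector -/
noncomputable def nsq {X : Type} [Fintype X] (v : X → ℂ) : ℝ := ∑ x, ‖v x‖ ^ 2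

/-- the operator norm of `A` is at most `a` -/
def Bdd {X : Type} [Fintype X] (A : Matrix X X ℂ) (a : ℝ) : Prop :=
  ∀ v : X → ℂ, nsq (A *ᵥ v) ≤ a ^ 2 * nsq v

/-- Number of clauses violated by `x` of the formula that consists of the clauses of `G` which are
satisfied by `z`. -/
def pviol {n k m : ℕ} (G : Fin m → Clause n k) (z x : Cube n) : ℕ :=
  (univ.filter fun j => ¬ Violates z (G j) ∧ Violates x (G j)).card

/-- The driver `∑ i, a i (D i + ∑ j, h i j)`, where `j` runs through the clauses of `G` which are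
satisfied by `z`. -/
noncomputable def driver {n k m p : ℕ} {Y : Type} (G : Fin m → Clause n k) (D : Fin p → Op n Y)
    (h : Fin p → Fin m → Op n Y) (z : Cube n) (a : Fin p → ℝ) : Op n Y :=
  ∑ i, (a i : ℂ) • (D i + ∑ j ∈ univ.filter (fun j => ¬ Violates z (G j)), h i j)

/-- the vector `z ⊗ η` -/
def ket {n : ℕ} {Y : Type} (z : Cube n) (η : Y → ℂ) : Cube n × Y → ℂ :=
  fun x => if x.1 = z then η x.2 else 0

/-- Admissible drivers `A` with coefficients `a` for the planted assignment `z`: bounded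
coefficients, `A` is Hermitian and positive semidefinite with nonzero kernel, the energy of `z ⊗ η` is at most `1`
for some `η`, and at most `2 ^ (α n)` eigenvalues of `A` are smaller than `κ`. -/
structure Adm {n p : ℕ} {Y : Type} [Fintype Y] [DecidableEq Y] (α κ Λ : ℝ) (a : Fin p → ℝ)
    (A : Op n Y) (z : Cube n) : Prop where
  coeff : ∑ i, |a i| ≤ Λ
  herm : A.IsHermitian
  psd : ∀ v : Cube n × Y → ℂ, 0 ≤ (star v ⬝ᵥ A *ᵥ v).re
  ker : ∃ v : Cube n × Y → ℂ, v ≠ 0 ∧ A *ᵥ v = 0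
  sol : ∃ η : Y → ℂ, nsq η = 1 ∧ (star (ket z η) ⬝ᵥ A *ᵥ ket z η).re ≤ 1
  low : ((univ.filter fun i => herm.eigenvalues i < κ).card : ℝ) ≤ 2 ^ (α * n)

/-- The Hamiltonian `b A + (1 - b) (2 ^ k / m) viol`, where `viol` counts the violated clauses of
the formula that consists of the clauses of `G` satisfied by `z`. -/
noncomputable def ham {n k m : ℕ} {Y : Type} [DecidableEq Y] (G : Fin m → Clause n k) (z : Cube n)
    (A : Op n Y) (b : ℝ) : Op n Y :=
  (b : ℂ) • A + diagonal fun x => (((1 - b) * (2 ^ k / m * pviol G z x.1) : ℝ) : ℂ)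

/-- `ψ` is a unit eigenvector of the Hermitian matrix `H` for the eigenvalue `E`, and the rest of the
spectrum has distance at least `g` from `E`. -/
def Iso {X : Type} [Fintype X] (H : Matrix X X ℂ) (g E : ℝ) (ψ : X → ℂ) : Prop :=
  nsq ψ = 1 ∧ H *ᵥ ψ = (E : ℂ) • ψ ∧
    ∀ w : X → ℂ, star ψ ⬝ᵥ w = 0 → g ^ 2 * nsq w ≤ nsq (H *ᵥ w - (E : ℂ) • w)

/-- `E` is the lowest energy of `H`, or it lies in the window `E ≤ 1 - (1 - κ / 4) b` (and
`E ≤ 1 / 2` if `b < 1 / 5`). -/
def Low {X : Type} [Fintype X] (H : Matrix X X ℂ) (κ b E : ℝ) : Prop :=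
  (∀ w : X → ℂ, E * nsq w ≤ (star w ⬝ᵥ H *ᵥ w).re) ∨
    (E ≤ 1 - (1 - κ / 4) * b ∧ (b < 1 / 5 → E ≤ 1 / 2))

/-- A schedule consists of `l + 1` continuous paths of Hamiltonians with admissible drivers; the
first path starts with the driver alone (`b = 1`), and between two paths it may jump.  It follows
eigenvectors `ψ i s` for eigenvalues `E i s`, which are continuous along each path, are lowest
energies or lie in the window of `Low`, and are separated by at least `g > 2 ^ (-u n)` from the rest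
of the spectrum.  The overlaps of the eigenvectors before and after each jump exceed
`2 ^ (-u n) / g`, possibly after the application of one of the operators `T j`.  Then the driver has
weight at least `1 / 5` at the end, and the last eigenvector has at most the amplitude
`2 ^ (-u n) / g` on the assignments that violate at most the fraction `(1 - t) / 2 ^ k` of the
clauses. -/
def Hard {n k m p q : ℕ} {Y : Type} [Fintype Y] [DecidableEq Y] (α κ Λ t u : ℝ)
    (G : Fin m → Clause n k) (D : Fin p → Op n Y) (h : Fin p → Fin m → Op n Y)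
    (T : Fin q → Op n Y) (z : Cube n) : Prop :=
  ∀ (g : ℝ) (l : ℕ) (a : ℕ → ℝ → Fin p → ℝ) (b E : ℕ → ℝ → ℝ) (ψ : ℕ → ℝ → Cube n × Y → ℂ),
    (2 : ℝ) ^ (-u * n) < g → g ≤ 1 → b 0 0 = 1 →
    (∀ i ≤ l, ContinuousOn (a i) (Set.Icc 0 1) ∧ ContinuousOn (b i) (Set.Icc 0 1) ∧
      ContinuousOn (E i) (Set.Icc 0 1) ∧
      ∀ s ∈ Set.Icc (0 : ℝ) 1, 0 ≤ b i s ∧ b i s ≤ 1 ∧
        Adm α κ Λ (a i s) (driver G D h z (a i s)) z ∧
        Iso (ham G z (driver G D h z (a i s)) (b i s)) g (E i s) (ψ i s) ∧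
        Low (ham G z (driver G D h z (a i s)) (b i s)) κ (b i s) (E i s)) →
    (∀ i < l, (2 : ℝ) ^ (-u * n) / g < ‖star (ψ (i + 1) 0) ⬝ᵥ ψ i 1‖ ∨
      ∃ j, (2 : ℝ) ^ (-u * n) / g < ‖star (ψ (i + 1) 0) ⬝ᵥ T j *ᵥ ψ i 1‖) →
    1 / 5 ≤ b l 1 ∧
      ∀ L : Finset (Cube n), (∀ x ∈ L, (pviol G z x : ℝ) ≤ (1 - t) * m / 2 ^ k) →
        Real.sqrt (∑ x ∈ L, ∑ y, ‖ψ l 1 (x, y)‖ ^ 2) ≤ (2 : ℝ) ^ (-u * n) / g

end Pool.Agent.H73.AD
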