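import Pool.Agent.H73.AD.Good

/-! Two facts on isolated eigenvectors of perturbed operators (module W of the annealing board). -/

namespace Pool.Agent.H73.AD

open Finset Matrix Pool.Agent.H73.QA

section two
variable {E : Type} [NormedAddCommGroup E] [InnerProductSpace ℂ E]

theorem two_pyth {ψ χ : E} (h : inner ℂ ψ χ = 0) (c : ℂ) :
    ‖c • ψ + χ‖ ^ 2 = ‖c‖ ^ 2 * ‖ψ‖ ^ 2 + ‖χ‖ ^ 2 := by
  have h1 : inner ℂ (c • ψ) χ = 0 := by rw [inner_smul_left, h, mul_zero]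
  have h2 := norm_add_sq_eq_norm_sq_add_norm_sq_of_inner_eq_zero (𝕜 := ℂ) (c • ψ) χ h1
  rw [norm_smul] at h2
  nlinarith [h2]

theorem two_orth {ψ : E} (hψ : ‖ψ‖ = 1) (w : E) :
    inner ℂ ψ (w - (inner ℂ ψ w : ℂ) • ψ) = 0 := by
  rw [inner_sub_right, inner_smul_right, inner_self_eq_norm_sq_to_K, hψ]
  simp

theorem two_proj {ψ : E} (hψ : ‖ψ‖ = 1) (w : E) :
    ‖w - (inner ℂ ψ w : ℂ) • ψ‖ ≤ ‖w‖ := by
  have h1 := two_pyth (two_orth hψ w) (inner ℂ ψ w)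
  have h2 : (inner ℂ ψ w : ℂ) • ψ + (w - (inner ℂ ψ w : ℂ) • ψ) = w := by abel
  rw [h2, hψ] at h1
  refine le_of_sq_le_sq ?_ (norm_nonneg _)
  nlinarith [sq_nonneg ‖(inner ℂ ψ w : ℂ)‖]

theorem near_eig {H N : E →ₗ[ℂ] E} (hH : H.IsSymmetric) {ψ φ : E} {e f g ν : ℝ} (_hg : 0 < g)
    (hψ : ‖ψ‖ = 1) (h1 : H ψ = (e : ℂ) • ψ)
    (hiso : ∀ w, inner ℂ ψ w = 0 → g * ‖w‖ ≤ ‖H w - (e : ℂ) • w‖)
    (h2 : H φ + N φ = (f : ℂ) • φ) (hf : |f - e| ≤ g / 4) (hN : ‖N φ‖ ≤ ν) :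
    ∃ (c : ℂ) (χ : E), φ = c • ψ + χ ∧ inner ℂ ψ χ = 0 ∧ 3 * (g * ‖χ‖) ≤ 4 * ν := by
  have hχ := two_orth hψ φ
  refine ⟨inner ℂ ψ φ, φ - (inner ℂ ψ φ : ℂ) • ψ, by abel, hχ, ?_⟩
  have e1 : ∀ c : ℂ, H (φ - c • ψ) - (e : ℂ) • (φ - c • ψ) = ((f - e : ℝ) : ℂ) • φ - N φ := by
    intro c
    have h3 : H φ = (f : ℂ) • φ - N φ := by rw [← h2]; abel
    rw [map_sub, map_smul, h1, h3]
    push_cast
    module
  have e2 : H (φ - (inner ℂ ψ φ : ℂ) • ψ) - (e : ℂ) • (φ - (inner ℂ ψ φ : ℂ) • ψ) =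
      ((f - e : ℝ) : ℂ) • (φ - (inner ℂ ψ φ : ℂ) • ψ) -
        (N φ - (inner ℂ ψ (N φ) : ℂ) • ψ) := by
    have h4 : inner ℂ ψ (H (φ - (inner ℂ ψ φ : ℂ) • ψ) -
        (e : ℂ) • (φ - (inner ℂ ψ φ : ℂ) • ψ)) = 0 := by
      rw [inner_sub_right, inner_smul_right, hχ, ← hH, h1, inner_smul_left, hχ]
      simp
    rw [e1] at h4 ⊢
    rw [inner_sub_right, inner_smul_right, sub_eq_zero] at h4
    rw [← h4]
    module
  have h5 := hiso _ hχ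
  rw [e2] at h5
  have h6 := h5.trans (norm_sub_le _ _)
  rw [norm_smul] at h6
  have h7 : ‖((f - e : ℝ) : ℂ)‖ ≤ g / 4 := by
    rw [Complex.norm_real]
    exact hf
  have h8 := (two_proj hψ (N φ)).trans hN
  have h9 : ‖((f - e : ℝ) : ℂ)‖ * ‖φ - (inner ℂ ψ φ : ℂ) • ψ‖ ≤
      g / 4 * ‖φ - (inner ℂ ψ φ : ℂ) • ψ‖ := mul_le_mul_of_nonneg_right h7 (norm_nonneg _)
  linarith

theorem overlap_far {H N : E →ₗ[ℂ] E} (hH : H.IsSymmetric) (_hN : N.IsSymmetric) {ψ v u : E}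
    {e d : ℝ} (hd : 0 < d) (hψ : ‖ψ‖ = 1) (h1 : H ψ = (e : ℂ) • ψ)
    (hv : H v + N v - (e : ℂ) • v = (d : ℂ) • u) : d * ‖inner ℂ ψ u‖ ≤ ‖N v‖ := by
  have h2 : (d : ℂ) * inner ℂ ψ u = inner ℂ ψ (N v) := by
    rw [← inner_smul_right, ← hv, inner_sub_right, inner_add_right, inner_smul_right, ← hH, h1,
      inner_smul_left]
    simp
  have h3 : ‖(d : ℂ) * inner ℂ ψ u‖ ≤ ‖ψ‖ * ‖N v‖ := by
    rw [h2]
    exact norm_inner_le_norm _ _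
  rwa [norm_mul, Complex.norm_real, Real.norm_of_nonneg hd.le, hψ, one_mul] at h3

theorem dichotomy [FiniteDimensional ℂ E] {H : E →ₗ[ℂ] E} (hH : H.IsSymmetric) (e : ℝ) {d : ℝ}
    (hd : 0 < d) :
    (∃ (f : ℝ) (φ : E), ‖φ‖ = 1 ∧ H φ = (f : ℂ) • φ ∧ |f - e| < d) ∨
      ∀ u, ∃ v, ‖v‖ ≤ ‖u‖ ∧ H v - (e : ℂ) • v = (d : ℂ) • u := by
  by_cases h : ∃ i, |hH.eigenvalues rfl i - e| < d
  · obtain ⟨i, hi⟩ := h
    exact Or.inl ⟨hH.eigenvalues rfl i, hH.eigenvectorBasis rfl i,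
      (hH.eigenvectorBasis rfl).orthonormal.1 i, hH.apply_eigenvectorBasis rfl i, hi⟩
  · right
    push Not at h
    intro u
    obtain ⟨b, hb⟩ : ∃ b, b = hH.eigenvectorBasis rfl := ⟨_, rfl⟩
    obtain ⟨l, hl⟩ : ∃ l, l = hH.eigenvalues rfl := ⟨_, rfl⟩
    have hHb : ∀ i, H (b i) = (l i : ℂ) • b i := by
      intro i
      rw [hb, hl]
      exact hH.apply_eigenvectorBasis rfl i
    rw [← hl] at h
    have h0 : ∀ i, l i - e ≠ 0 := by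
      intro i h'
      have := h i
      rw [h', abs_zero] at this
      linarith
    refine ⟨∑ i, ((d / (l i - e) : ℝ) * inner ℂ (b i) u : ℂ) • b i, ?_, ?_⟩
    · refine le_of_sq_le_sq ?_ (norm_nonneg _)
      rw [← b.sum_sq_norm_inner_right u, ← b.sum_sq_norm_inner_right]
      refine sum_le_sum fun j _ => ?_
      have h2 : inner ℂ (b j) (∑ i, ((d / (l i - e) : ℝ) * inner ℂ (b i) u : ℂ) • b i) =
          ((d / (l j - e) : ℝ) * inner ℂ (b j) u : ℂ) := by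
        rw [b.orthonormal.inner_right_fintype]
      rw [h2, norm_mul, mul_pow]
      have h3 : ‖((d / (l j - e) : ℝ) : ℂ)‖ ≤ 1 := by
        rw [Complex.norm_real, Real.norm_eq_abs, abs_div, abs_of_pos hd]
        exact (div_le_one (abs_pos.2 (h0 j))).2 (h j)
      have h4 : ‖((d / (l j - e) : ℝ) : ℂ)‖ ^ 2 ≤ 1 := pow_le_one₀ (norm_nonneg _) h3
      exact mul_le_of_le_one_left (sq_nonneg _) h4
    · rw [map_sum, smul_sum, ← sum_sub_distrib]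
      conv_rhs => rw [← b.sum_repr' u, smul_sum]
      refine sum_congr rfl fun i _ => ?_
      rw [map_smul, hHb, smul_smul, smul_smul, ← sub_smul, smul_smul]
      congr 1
      have h5 : ((l i : ℂ) - (e : ℂ)) ≠ 0 := by
        have := h0 i
        exact_mod_cast this
      push_cast
      field_simp

/-- neighbouring isolated eigenvectors overlap -/
theorem overlap_near {H H' : E →ₗ[ℂ] E} {ψ ψ' : E} {e e' g ε : ℝ} (hg : 0 < g)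
    (hψ : ‖ψ‖ = 1) (hψ' : ‖ψ'‖ = 1) (h1 : H ψ = (e : ℂ) • ψ) (h1' : H' ψ' = (e' : ℂ) • ψ')
    (hiso : ∀ w, inner ℂ ψ w = 0 → g * ‖w‖ ≤ ‖H w - (e : ℂ) • w‖)
    (hH : ‖H' ψ' - H ψ'‖ ≤ ε) (he : |e' - e| ≤ ε) :
    1 - (2 * ε / g) ^ 2 ≤ ‖inner ℂ ψ ψ'‖ ^ 2 := by
  have hχ := two_orth hψ ψ'
  have h2 := hiso _ hχ
  have h3 : H (ψ' - (inner ℂ ψ ψ' : ℂ) • ψ) - (e : ℂ) • (ψ' - (inner ℂ ψ ψ' : ℂ) • ψ) =
      ((e' - e : ℝ) : ℂ) • ψ' - (H' ψ' - H ψ') := by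
    rw [map_sub, map_smul, h1, h1']
    push_cast
    module
  rw [h3] at h2
  have h4 := h2.trans (norm_sub_le _ _)
  rw [norm_smul, hψ', mul_one, Complex.norm_real, Real.norm_eq_abs] at h4
  have h5 : ‖ψ' - (inner ℂ ψ ψ' : ℂ) • ψ‖ ≤ 2 * ε / g := by
    rw [le_div_iff₀ hg]
    linarith
  have h6 := two_pyth hχ (inner ℂ ψ ψ')
  have h7 : (inner ℂ ψ ψ' : ℂ) • ψ + (ψ' - (inner ℂ ψ ψ' : ℂ) • ψ) = ψ' := by abel
  rw [h7, hψ, hψ'] at h6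
  have h8 := pow_le_pow_left₀ (norm_nonneg _) h5 2
  linarith

end two

end Pool.Agent.H73.AD
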