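import Pool.Agent.H73.AD.Flat

/-! The flattened Hamiltonian is a fixed operator minus a good operator. -/

namespace Pool.Agent.H73.AD

open Finset Matrix Pool.Agent.H73.QA

set_option linter.unusedSectionVars false

variable {n k m : ℕ} {Y : Type} [Fintype Y] [DecidableEq Y]

noncomputable def Xop (G : Fin m → Clause n k) (δ : ℝ) (z : Cube n) (A0 A : Op n Y) (b : ℝ) :
    Sp n Y →ₗ[ℂ] Sp n Y :=
  (b : ℂ) • (toEuclideanLin A0 - toEuclideanLin A) +
    ((1 - b : ℝ) : ℂ) • dg (fun x => if x ∈ hball δ z then 0 else ((2 ^ k / m * Wn G z x : ℝ) : ℂ)) -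
    ((1 - b : ℝ) : ℂ) • dg (fun x => ((2 ^ k / m * (viol G x - m / 2 ^ k) : ℝ) : ℂ))

theorem ham_apply (G : Fin m → Clause n k) (z : Cube n) (A : Op n Y) (b : ℝ) (u : Sp n Y)
    (x : Cube n × Y) : toEuclideanLin (ham G z A b) u x =
      (b : ℂ) * toEuclideanLin A u x +
        (((1 - b) * (2 ^ k / m * pviol G z x.1) : ℝ) : ℂ) * u x := by
  simp only [toEuclideanLin, toLpLin_apply, ham, add_mulVec, smul_mulVec]
  rw [Pi.add_apply, Pi.smul_apply, smul_eq_mul, mulVec_diagonal]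

theorem flat_eq (G : Fin m → Clause n k) (hm : 0 < m) (δ : ℝ) (z : Cube n) (A0 A : Op n Y)
    (b : ℝ) (u : Sp n Y) : flatH G δ z A b u =
      (b : ℂ) • toEuclideanLin A0 u + ((1 - b : ℝ) : ℂ) • u - Xop G δ z A0 A b u := by
  ext x
  have hm' : (m : ℂ) ≠ 0 := by exact_mod_cast hm.ne'
  unfold flatH Xop nearN
  simp only [LinearMap.add_apply, LinearMap.sub_apply, LinearMap.smul_apply, PiLp.add_apply,
    PiLp.sub_apply, PiLp.smul_apply, smul_eq_mul, dg_apply, ham_apply, pviol_eq]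
  by_cases hx : x.1 ∈ hball δ z
  · simp only [hx, if_true]
    push_cast
    field_simp
    ring
  · simp only [hx, if_false]
    push_cast
    field_simp
    ring

theorem norm_Xop_le {G : Fin m → Clause n k} (hm : 0 < m) {ε δ ν y b : ℝ} (hε : 0 ≤ ε)
    (hν : 0 ≤ ν) (hG : Typ ε δ ν G) (z : Cube n) (A0 A : Op n Y) (hb0 : 0 ≤ b) (hb1 : b ≤ 1)
    (hQ : ∀ u, ‖(toEuclideanLin A0 - toEuclideanLin A) u‖ ≤ y * ‖u‖) (u : Sp n Y) :
    ‖Xop G δ z A0 A b u‖ ≤ (y + ν + ε) * ‖u‖ := by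
  have hm' : (0 : ℝ) < m := by exact_mod_cast hm
  have hμ : (0 : ℝ) < 2 ^ k / m := by positivity
  have h1 : ‖dg (Y := Y) (fun x => if x ∈ hball δ z then 0 else ((2 ^ k / m * Wn G z x : ℝ) : ℂ)) u‖
      ≤ ν * ‖u‖ := by
    refine norm_dg_le hν (fun x => ?_) u
    by_cases hx : x ∈ hball δ z
    · simp [hx, hν]
    · rw [if_neg hx, Complex.norm_real, Real.norm_eq_abs, abs_of_nonneg (by positivity)]
      have h2 := hG.t2 z x hx
      calc 2 ^ k / m * (Wn G z x : ℝ) ≤ 2 ^ k / m * (ν * (m / 2 ^ k)) :=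
            mul_le_mul_of_nonneg_left h2 hμ.le
        _ = ν := by field_simp
  have h2 : ‖dg (Y := Y) (fun x => ((2 ^ k / m * (viol G x - m / 2 ^ k) : ℝ) : ℂ)) u‖
      ≤ ε * ‖u‖ := by
    refine norm_dg_le hε (fun x => ?_) u
    rw [Complex.norm_real, Real.norm_eq_abs, abs_mul, abs_of_pos hμ]
    calc 2 ^ k / m * |(viol G x : ℝ) - m / 2 ^ k| ≤ 2 ^ k / m * (ε * (m / 2 ^ k)) :=
          mul_le_mul_of_nonneg_left (hG.t1 x) hμ.le
      _ = ε := by field_simp
  have hb : ‖((1 - b : ℝ) : ℂ)‖ ≤ 1 := by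
    rw [Complex.norm_real, Real.norm_eq_abs, abs_of_nonneg (by linarith)]
    linarith
  have hb' : ‖(b : ℂ)‖ ≤ 1 := by
    rw [Complex.norm_real, Real.norm_eq_abs, abs_of_nonneg hb0]
    exact hb1
  unfold Xop
  rw [LinearMap.sub_apply, LinearMap.add_apply, LinearMap.smul_apply, LinearMap.smul_apply,
    LinearMap.smul_apply]
  refine (norm_sub_le _ _).trans ?_
  have h3 := norm_add_le ((b : ℂ) • (toEuclideanLin A0 - toEuclideanLin A) u)
    (((1 - b : ℝ) : ℂ) • dg (Y := Y)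
      (fun x => if x ∈ hball δ z then 0 else ((2 ^ k / m * Wn G z x : ℝ) : ℂ)) u)
  have h4 : ∀ (c : ℂ) (w : Sp n Y) (r : ℝ), ‖c‖ ≤ 1 → ‖w‖ ≤ r → ‖c • w‖ ≤ r := by
    intro c w r hc hw
    rw [norm_smul]
    calc ‖c‖ * ‖w‖ ≤ 1 * ‖w‖ := mul_le_mul_of_nonneg_right hc (norm_nonneg _)
      _ ≤ r := by rw [one_mul]; exact hw
  have h5 := h4 _ _ _ hb' (hQ u)
  have h6 := h4 _ _ _ hb h1
  have h7 := h4 _ _ _ hb h2
  linarith

theorem goodOp_Xop {G : Fin m → Clause n k} (hm : 0 < m) {ε δ ν KQ β : ℝ}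
    (hε : ε ≤ 1) (hG : Typ ε δ ν G) {Z : Type} [Fintype Z] (hβ : 0 ≤ β) (ζ : Z → Cube n)
    (hB : ∀ x, ((univ.filter fun z => x ∈ hball δ (ζ z)).card : ℝ) ≤ β ^ 2)
    (A0 : Op n Y) (A : Z → Op n Y) (b : Z → ℝ) (hb0 : ∀ z, 0 ≤ b z) (hb1 : ∀ z, b z ≤ 1)
    (hQ : GoodOp β KQ fun z => toEuclideanLin A0 - toEuclideanLin (A z)) :
    GoodOp β (KQ + 7) fun z => Xop G δ (ζ z) A0 (A z) (b z) := by
  have hm' : (0 : ℝ) < m := by exact_mod_cast hm
  obtain ⟨μ, hμ⟩ : ∃ μ : ℝ, μ = m / 2 ^ k := ⟨_, rfl⟩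
  have hμ0 : 0 < μ := by rw [hμ]; positivity
  have hμi : (2 : ℝ) ^ k / m = μ⁻¹ := by rw [hμ, inv_div]
  have hV : ∀ x, (viol G x : ℝ) ≤ 2 * μ := by
    intro x
    have h1 := (abs_le.1 (hG.t1 x)).2
    rw [← hμ] at h1
    have h2 : ε * μ ≤ 1 * μ := mul_le_mul_of_nonneg_right hε hμ0.le
    linarith
  have hW : ∀ z x, (Wn G z x : ℝ) ≤ 2 * μ := by
    intro z x
    refine le_trans ?_ (hV x)
    have : Wn G z x ≤ viol G x := by
      unfold Wn viol
      exact card_le_card fun j hj => by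
        simp only [mem_filter, mem_univ, true_and] at hj ⊢
        exact hj.2
    exact_mod_cast this
  have hs0 : 0 < Real.sqrt (2 * μ) := Real.sqrt_pos.2 (by positivity)
  have hs1 : Real.sqrt (2 * μ) ^ 2 = 2 * μ := Real.sq_sqrt (by positivity)
  -- all common violated clauses
  have g1 : GoodOp β 2 (fun z => dg (Y := Y) fun x => ((2 ^ k / m * Wn G (ζ z) x : ℝ) : ℂ)) := by
    have h1 := goodOp_ops (β := β) (Z := Z) (J := Fin m) (Φ := Real.sqrt (2 * μ))
      (Θ := μ⁻¹ * Real.sqrt (2 * μ)) hs0.le (by positivity)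
      (fun z j => if Violates (ζ z) (G j) then 1 else 0)
      (fun j => dg (Y := Y) fun x => if Violates x (G j) then ((μ⁻¹ : ℝ) : ℂ) else 0)
      (fun z => ?_) (fun u => ?_)
    · have h2 : Real.sqrt (2 * μ) * (μ⁻¹ * Real.sqrt (2 * μ)) = 2 := by
        have : Real.sqrt (2 * μ) * (μ⁻¹ * Real.sqrt (2 * μ)) = μ⁻¹ * Real.sqrt (2 * μ) ^ 2 := by
          ring
        rw [this, hs1]
        field_simp
      rw [h2] at h1
      have h3 : (fun z => ∑ j, (if Violates (ζ z) (G j) then (1 : ℂ) else 0) •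
          dg (Y := Y) fun x => if Violates x (G j) then ((μ⁻¹ : ℝ) : ℂ) else 0) =
          fun z => dg (Y := Y) fun x => ((2 ^ k / m * Wn G (ζ z) x : ℝ) : ℂ) := by
        funext z
        ext u x
        simp only [LinearMap.sum_apply, LinearMap.smul_apply, PiLp.smul_apply, dg_apply,
          smul_eq_mul, WithLp.ofLp_sum, Finset.sum_apply]
        rw [hμi]
        have h4 : ∀ j, (if Violates (ζ z) (G j) then (1 : ℂ) else 0) *
            ((if Violates x.1 (G j) then ((μ⁻¹ : ℝ) : ℂ) else 0) * u x) =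
            (if Violates (ζ z) (G j) ∧ Violates x.1 (G j) then 1 else 0) *
              (((μ⁻¹ : ℝ) : ℂ) * u x) := by
          intro j
          by_cases h5 : Violates (ζ z) (G j) <;> by_cases h6 : Violates x.1 (G j) <;>
            simp [h5, h6]
        simp only [h4]
        rw [← sum_mul, sum_boole]
        unfold Wn
        push_cast
        ring
      rw [h3] at h1
      exact h1
    · rw [hs1]
      have h2 : ∑ j, ‖(if Violates (ζ z) (G j) then (1 : ℂ) else 0)‖ ^ 2 = viol G (ζ z) := by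
        unfold viol
        rw [← sum_boole]
        push_cast
        refine sum_congr rfl fun j _ => ?_
        split_ifs <;> simp
      rw [h2]
      exact hV _
    · have h2 : ∀ j, ‖dg (Y := Y) (fun x => if Violates x (G j) then ((μ⁻¹ : ℝ) : ℂ) else 0) u‖ ^ 2
          = ∑ x : Cube n × Y, (if Violates x.1 (G j) then (1 : ℝ) else 0) *
            (μ⁻¹ ^ 2 * ‖u x‖ ^ 2) := by
        intro j
        rw [EuclideanSpace.norm_sq_eq]
        refine sum_congr rfl fun x _ => ?_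
        rw [dg_apply, norm_mul, mul_pow]
        split_ifs
        · rw [Complex.norm_real, Real.norm_eq_abs, abs_of_pos (inv_pos.2 hμ0), one_mul]
        · simp
      simp only [h2]
      rw [sum_comm]
      simp only [← sum_mul]
      rw [mul_pow, hs1, EuclideanSpace.norm_sq_eq, mul_sum]
      refine sum_le_sum fun x _ => ?_
      have h3 : ∑ j, (if Violates x.1 (G j) then (1 : ℝ) else 0) = viol G x.1 := by
        rw [sum_boole]
        rfl
      rw [h3]
      calc (viol G x.1 : ℝ) * (μ⁻¹ ^ 2 * ‖u x‖ ^ 2) ≤ 2 * μ * (μ⁻¹ ^ 2 * ‖u x‖ ^ 2) :=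
            mul_le_mul_of_nonneg_right (hV _) (by positivity)
        _ = _ := by ring
  -- near part
  have g2 : GoodOp β (2 * 2) (fun z => dg (Y := Y) fun x => if x ∈ hball δ (ζ z) then
      -((2 ^ k / m * Wn G (ζ z) x : ℝ) : ℂ) else 0) := by
    refine goodOp_near hβ hB zero_le_two _ fun z u => ?_
    have h1 : (dg (Y := Y) fun x => if x ∈ hball δ (ζ z) then
        -((2 ^ k / m * Wn G (ζ z) x : ℝ) : ℂ) else 0) u =
        dg (Y := Y) (fun x => -((2 ^ k / m * Wn G (ζ z) x : ℝ) : ℂ)) (nearP (hball δ (ζ z)) u) := by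
      ext x
      simp only [nearP, dg_apply]
      split_ifs <;> simp
    rw [h1]
    refine norm_dg_le zero_le_two (fun x => ?_) _
    rw [norm_neg, Complex.norm_real, Real.norm_eq_abs, hμi,
      abs_of_nonneg (mul_nonneg (inv_pos.2 hμ0).le (Nat.cast_nonneg _))]
    calc μ⁻¹ * (Wn G (ζ z) x : ℝ) ≤ μ⁻¹ * (2 * μ) :=
          mul_le_mul_of_nonneg_left (hW _ _) (inv_pos.2 hμ0).le
      _ = 2 := by field_simp
  -- deviations
  have g3 : GoodOp β 1 (fun _ : Z =>
      -dg (Y := Y) fun x => ((2 ^ k / m * (viol G x - m / 2 ^ k) : ℝ) : ℂ)) := by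
    refine goodOp_fixed zero_le_one _ fun u => ?_
    rw [LinearMap.neg_apply, norm_neg]
    refine norm_dg_le zero_le_one (fun x => ?_) u
    rw [Complex.norm_real, Real.norm_eq_abs, abs_mul, hμi, abs_of_pos (inv_pos.2 hμ0)]
    have h1 := hG.t1 x
    rw [← hμ] at h1 ⊢
    calc μ⁻¹ * |(viol G x : ℝ) - μ| ≤ μ⁻¹ * (ε * μ) :=
          mul_le_mul_of_nonneg_left h1 (inv_pos.2 hμ0).le
      _ = ε := by field_simp
      _ ≤ 1 := hε
  have hs : ∀ z, ‖((1 - b z : ℝ) : ℂ)‖ ≤ 1 := by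
    intro z
    rw [Complex.norm_real, Real.norm_eq_abs, abs_of_nonneg (by linarith [hb1 z])]
    linarith [hb0 z]
  have hs' : ∀ z, ‖(b z : ℂ)‖ ≤ 1 := by
    intro z
    rw [Complex.norm_real, Real.norm_eq_abs, abs_of_nonneg (hb0 z)]
    exact hb1 z
  have g4 := ((hQ.smul zero_le_one (fun z => (b z : ℂ)) hs').add
    ((g1.add g2).smul zero_le_one (fun z => ((1 - b z : ℝ) : ℂ)) hs)).add
    (g3.smul zero_le_one (fun z => ((1 - b z : ℝ) : ℂ)) hs)
  have h5 : 1 * KQ + 1 * (2 + 2 * 2) + 1 * 1 = KQ + 7 := by ring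
  rw [h5] at g4
  refine (congrArg (GoodOp β (KQ + 7)) ?_).mp g4
  funext z
  ext u x
  unfold Xop
  simp only [LinearMap.add_apply, LinearMap.sub_apply, LinearMap.smul_apply, LinearMap.neg_apply,
    PiLp.add_apply, PiLp.sub_apply, PiLp.smul_apply, PiLp.neg_apply, dg_apply, smul_eq_mul]
  by_cases hx : x.1 ∈ hball δ (ζ z)
  · simp only [hx, if_true]; ring
  · simp only [hx, if_false]; ring

end Pool.Agent.H73.AD
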